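import Pool.Agent.H31.Basis.Base3

namespace Pool.Agent.H31.Basis

variable {O F : Set ℕ} {M Q : ℕ}

/-- Fragility after `j` axes. -/
def FR (O F : Set ℕ) (M Q j : ℕ) : Prop :=
  ∀ y : ℤ, ∃ s ∈ Sums (LL O F M Q j) j, ∃ f ∈ F, (20 * M : ℤ) ∣ y + s - f - j * (5 * M) ∧
      ∀ v ∈ Sums (LP O F M Q j) (j + 1), ¬ (20 * M * Q ^ j : ℤ) ∣ y + s - v

theorem Uset_succ (M Q j : ℕ) : Uset M Q (j + 1) = Uset M Q j ∪ Uax M Q j := by
  ext x
  constructor
  · rintro ⟨l, hl, hx⟩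
    rcases Nat.lt_succ_iff_lt_or_eq.1 hl with h | h
    · exact Or.inl ⟨l, h, hx⟩
    · subst h; exact Or.inr hx
  · rintro (⟨l, hl, hx⟩ | hx)
    · exact ⟨l, by omega, hx⟩
    · exact ⟨j, by omega, hx⟩

theorem LL_succ (j : ℕ) : LL O F M Q (j + 1) = LL O F M Q j ∪ Uax M Q j := by
  unfold LL; rw [Uset_succ, Set.union_assoc, Set.union_assoc, Set.union_assoc]

theorem LP_succ (j : ℕ) : LP O F M Q (j + 1) = LP O F M Q j ∪ Uax M Q j := by
  unfold LP; rw [Uset_succ, Set.union_assoc, Set.union_assoc, Set.union_assoc]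

theorem LL_mono {i j : ℕ} (h : i ≤ j) : LL O F M Q i ⊆ LL O F M Q j := by
  rintro x (hx | ⟨l, hl, hx⟩)
  · exact Or.inl hx
  · exact Or.inr ⟨l, by omega, hx⟩

theorem LP_mono {i j : ℕ} (h : i ≤ j) : LP O F M Q i ⊆ LP O F M Q j := by
  rintro x (hx | ⟨l, hl, hx⟩)
  · exact Or.inl hx
  · exact Or.inr ⟨l, by omega, hx⟩

theorem beta_mem {j : ℕ} (hj : 1 ≤ j) (hQ : 1 ≤ Q) : 5 * M ∈ LP O F M Q j :=
  Or.inr ⟨0, by omega, 0, by omega, by simp⟩

theorem zero_mem_LP {j : ℕ} (h0O : 0 ∈ O) (h0F : 0 ∉ F) : 0 ∈ LP O F M Q j :=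
  Or.inl (Or.inl ⟨h0O, h0F⟩)

theorem zero_mem_LL {j : ℕ} (h0O : 0 ∈ O) : 0 ∈ LL O F M Q j :=
  Or.inl (Or.inl h0O)

/-- Bound on the small elements. -/
theorem LL_lt {j x : ℕ} (hM : 1 ≤ M) (hQ : 1000 * 32 ^ (20 * M) ≤ Q) (hO : ∀ o ∈ O, o ≤ M)
    (hj : 2 ≤ j) (hx : x ∈ LL O F M Q j) : x ≤ 2 * (20 * M * Q ^ j) := by
  have hQ1 : 1 ≤ Q := le_trans (by
    have : 1 ≤ 32 ^ (20 * M) := Nat.one_le_pow _ _ (by norm_num)
    omega) hQ
  have hj1 : 1 ≤ Q ^ j := Nat.one_le_pow _ _ hQ1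
  have hb : 20 * M * 1 ≤ 20 * M * Q ^ j := Nat.mul_le_mul_left _ hj1
  rcases hx with (hx | ⟨d, hd, _, rfl⟩) | ⟨l, hl, b, hb', rfl⟩
  · have := hO x hx
    omega
  · have h1 := (cc_lt hQ hd).le
    have h2 : Q ^ 2 ≤ Q ^ j := Nat.pow_le_pow_right hQ1 hj
    calc cc M Q d ≤ 20 * M * (2 * Q ^ 2) := h1
      _ ≤ 20 * M * (2 * Q ^ j) := by gcongr
      _ = 2 * (20 * M * Q ^ j) := by ring
  · have h2 : b * (20 * M * Q ^ l) ≤ 20 * M * Q ^ j := by
      calc b * (20 * M * Q ^ l) ≤ Q * (20 * M * Q ^ l) := by gcongr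
        _ = 20 * M * Q ^ (l + 1) := by ring
        _ ≤ 20 * M * Q ^ j := by
          gcongr
          omega
    omega

/-- sums containing an element of the last axis -/
theorem axis_red {j i : ℕ} (hj : 1 ≤ j) (hQ1 : 1 ≤ Q) {v : ℕ}
    (hv : v ∈ Sums (Uax M Q j) i) (hi : 1 ≤ i) :
    ∃ w ∈ Sums (LP O F M Q j) (i - 1), (20 * M * Q ^ j : ℤ) ∣ (v : ℤ) - 5 * M - w := by
  induction i generalizing v with
  | zero => omega
  | succ i ih =>
    obtain ⟨a, ⟨b, hb, rfl⟩, z, hz, rfl⟩ := hv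
    rcases Nat.eq_zero_or_pos i with h0 | h0
    · subst h0
      rw [mem_Sums_zero] at hz
      subst hz
      refine ⟨0, rfl, b, ?_⟩
      push_cast; ring
    · obtain ⟨w, hw, hd⟩ := ih hz h0
      refine ⟨w + 5 * M, ?_, ?_⟩
      · rw [show i + 1 - 1 = (i - 1) + 1 by omega]
        exact Sums_add_one hw (beta_mem hj hQ1)
      · rw [show (((5 * M + b * (20 * M * Q ^ j) + z : ℕ) : ℤ) - 5 * M - (w + 5 * M : ℕ)) =
          ((z : ℤ) - 5 * M - w) + 20 * M * Q ^ j * b by push_cast; ring]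
        exact Int.dvd_add hd (Dvd.intro _ rfl)

/-- The axis step with control of the cell. -/
theorem axis_step {j : ℕ} (hM : 1 ≤ M) (hQ : 1000 * 32 ^ (20 * M) ≤ Q)
    (hO : ∀ o ∈ O, o ≤ M)
    (hj : 2 ≤ j) (hFR : FR O F M Q j) (y : ℤ) (a : ℕ)
    (ha : 2 * (j + 2) < a) (haQ : a < Q) :
    ∃ s ∈ Sums (LL O F M Q (j + 1)) (j + 1), ∃ f ∈ F,
      (20 * M : ℤ) ∣ y + s - f - (j + 1) * (5 * M) ∧
      (∀ v ∈ Sums (LP O F M Q (j + 1)) (j + 2), ¬ (20 * M * Q ^ (j + 1) : ℤ) ∣ y + s - v) ∧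
      a * (20 * M * Q ^ j : ℤ) ≤ (y + s) % (20 * M * Q ^ (j + 1)) ∧
      (y + s) % (20 * M * Q ^ (j + 1) : ℤ) < (a + 1) * (20 * M * Q ^ j : ℤ) := by
  have hQ1 : 1 ≤ Q := le_trans (by
    have : 1 ≤ 32 ^ (20 * M) := Nat.one_le_pow _ _ (by norm_num)
    omega) hQ
  have hMz : (1 : ℤ) ≤ M := by exact_mod_cast hM
  have hQz : (1 : ℤ) ≤ Q := by exact_mod_cast hQ1
  set D : ℤ := 20 * M * Q ^ j with hD
  have hDpos : 0 < D := by rw [hD]; positivity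
  have hDs : (20 * M * Q ^ (j + 1) : ℤ) = D * Q := by rw [hD]; ring
  obtain ⟨s, hs, f, hf, hres, hbad⟩ := hFR y
  -- choose the digit
  set ρ : ℤ := (y + s + 5 * M) % D with hρ
  set g : ℤ := (y + s + 5 * M) / D with hg
  have hdm : y + s + 5 * M = D * g + ρ := by
    rw [hρ, hg]; exact (Int.mul_ediv_add_emod _ _).symm
  have hρ0 : 0 ≤ ρ := Int.emod_nonneg _ hDpos.ne'
  have hρ1 : ρ < D := Int.emod_lt_of_pos _ hDpos
  obtain ⟨b, hb, c, hc⟩ : ∃ b : ℕ, b < Q ∧ ∃ c : ℤ, g + b = a + Q * c := by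
    have h1 := Int.emod_nonneg (a - g) (show (Q : ℤ) ≠ 0 by omega)
    have h2 := Int.emod_lt_of_pos (a - g) (show (0 : ℤ) < Q by omega)
    have h3 := Int.mul_ediv_add_emod (a - g) Q
    refine ⟨((a - g) % Q).toNat, by omega, -((a - g) / Q), ?_⟩
    rw [show ((((a : ℤ) - g) % Q).toNat : ℤ) = ((a : ℤ) - g) % Q from Int.toNat_of_nonneg h1]
    linarith
  have hval : y + ((s + (5 * M + b * (20 * M * Q ^ j)) : ℕ) : ℤ) = D * Q * c + (D * a + ρ) := by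
    push_cast
    rw [show y + ((s : ℤ) + (5 * M + b * (20 * M * Q ^ j))) = (y + s + 5 * M) + b * D by
      rw [hD]; ring, hdm]
    have : g = a + Q * c - b := by linarith
    rw [this]; ring
  have hrange : 0 ≤ D * a + ρ ∧ D * a + ρ < D * Q := by
    constructor
    · positivity
    · have : (a : ℤ) + 1 ≤ Q := by exact_mod_cast haQ
      nlinarith
  have hmod : (y + ((s + (5 * M + b * (20 * M * Q ^ j)) : ℕ) : ℤ)) % (20 * M * Q ^ (j + 1))
      = D * a + ρ := by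
    rw [hDs, hval, Int.mul_add_emod_self_left, Int.emod_eq_of_lt hrange.1 hrange.2]
  refine ⟨s + (5 * M + b * (20 * M * Q ^ j)), ?_, f, hf, ?_, ?_, ?_, ?_⟩
  · rw [LL_succ]
    exact Sums_add_one (Sums_mono Set.subset_union_left _ hs) (Or.inr ⟨b, hb, rfl⟩)
  · have : (20 * M : ℤ) ∣ b * (20 * M * Q ^ j) := ⟨b * Q ^ j, by ring⟩
    have h2 := Int.dvd_add hres this
    push_cast
    rw [show y + ((s : ℤ) + (5 * M + b * (20 * M * Q ^ j))) - f - (j + 1) * (5 * M) =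
      y + s - f - j * (5 * M) + b * (20 * M * Q ^ j) by ring]
    exact h2
  · intro v hv hvd
    rw [LP_succ, Set.union_comm] at hv
    obtain ⟨i, hi, x, hx, z, hz, rfl⟩ := Sums_union hv
    rcases Nat.eq_zero_or_pos i with h0 | h0
    · -- no element of the last axis : size
      subst h0
      rw [mem_Sums_zero] at hx
      subst hx
      rw [zero_add] at hvd
      have hzb : z ≤ (j + 2) * (2 * (20 * M * Q ^ j)) := by
        have := Sums_bound (K := 2 * (20 * M * Q ^ j))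
          (fun x hx => LL_lt hM hQ hO hj (LP_sub_LL hx)) hz
        simpa using this
      have hzb' : (z : ℤ) ≤ (j + 2) * (2 * D) := by
        rw [hD]; exact_mod_cast hzb
      have hz0 : (0 : ℤ) ≤ z := by positivity
      rw [hDs, hval] at hvd
      have h5 : D * Q ∣ (D * a + ρ) - z := by
        rw [show D * Q * c + (D * a + ρ) - (z : ℤ) = ((D * a + ρ) - z) + D * Q * c by ring] at hvd
        exact (Int.dvd_add_left (Dvd.intro _ rfl)).1 hvd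
      have ha' : (2 * (j + 2) + 1 : ℤ) ≤ a := by exact_mod_cast ha
      have h6 : 0 < (D * a + ρ) - z := by nlinarith
      have h7 := Int.le_of_dvd h6 h5
      linarith [hrange.2]
    · obtain ⟨w, hw, hwd⟩ := axis_red (O := O) (F := F) (by omega : 1 ≤ j) hQ1 hx h0
      apply hbad (w + z)
      · have := Sums_add hw hz
        have hle : i - 1 + (j + 2 - i) = j + 1 := by omega
        rw [hle] at this
        exact this
      · have h5 : D ∣ y + ((s + (5 * M + b * (20 * M * Q ^ j)) : ℕ) : ℤ) - (x + z : ℕ) := by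
          refine dvd_trans ⟨Q, ?_⟩ hvd
          rw [hDs]
        have h6 := Int.dvd_add h5 hwd
        push_cast at h6 ⊢
        rw [show y + ((s : ℤ) + (5 * M + b * (20 * M * Q ^ j))) - (x + z) + (x - 5 * M - w) =
          (y + s - (w + z)) + D * b by rw [hD]; ring] at h6
        exact (Int.dvd_add_left (Dvd.intro _ rfl)).1 h6
  · rw [hmod]; linarith
  · rw [hmod]; linarith

theorem FR_two (hM : 1 ≤ M) (hQ : 1000 * 32 ^ (20 * M) ≤ Q) (h2Q : 2 ∣ Q)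
    (hO : ∀ o ∈ O, o ≤ M) (h0O : 0 ∈ O) (hF : F ⊆ O) (h0F : 0 ∉ F)
    (hFC : ∀ b ∈ O, ∃ f ∈ F, b + f ∉ Sums (O \ F) 2) : FR O F M Q 2 := by
  intro y
  obtain ⟨s, hs, f, hf, h1, h2⟩ := base hM hQ h2Q hO h0O hF h0F hFC y
  refine ⟨s, hs, f, hf, ?_, h2⟩
  rw [show y + s - f - ((2 : ℕ) : ℤ) * (5 * M) = y + s - f - 10 * M by push_cast; ring]
  exact h1

theorem FR_all (hM : 1 ≤ M) (hQ : 1000 * 32 ^ (20 * M) ≤ Q) (h2Q : 2 ∣ Q)
    (hO : ∀ o ∈ O, o ≤ M) (h0O : 0 ∈ O) (hF : F ⊆ O) (h0F : 0 ∉ F)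
    (hFC : ∀ b ∈ O, ∃ f ∈ F, b + f ∉ Sums (O \ F) 2) (j : ℕ) (hj : 2 ≤ j)
    (hjQ : 2 * (j + 2) < Q) : FR O F M Q j := by
  induction j, hj using Nat.le_induction with
  | base => exact FR_two hM hQ h2Q hO h0O hF h0F hFC
  | succ j hj ih =>
    intro y
    obtain ⟨s, hs, f, hf, h1, h2, _, _⟩ := axis_step hM hQ hO hj (ih (by omega)) y
      (2 * (j + 2) + 1) (by omega) (by omega)
    refine ⟨s, hs, f, hf, ?_, h2⟩
    push_cast
    exact h1

end Pool.Agent.H31.Basis
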