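import Pool.Agent.H31.Basis.Gen

namespace Pool.Agent.H31.Basis

open Classical in
/-- The part of `a` which is not generic. -/
noncomputable def np (F : Set ℕ) (M Q a : ℕ) : ℕ := if a ∈ Cset F M Q then 0 else a

/-- The first `j` axes. -/
def Uset (M Q j : ℕ) : Set ℕ := {x | ∃ l, l < j ∧ x ∈ Uax M Q l}

/-- All small elements of a stage. -/
def LL (O F : Set ℕ) (M Q j : ℕ) : Set ℕ := O ∪ Cset F M Q ∪ Uset M Q j

/-- The small elements of a stage without `F`. -/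
def LP (O F : Set ℕ) (M Q j : ℕ) : Set ℕ := (O \ F) ∪ Cset F M Q ∪ Uset M Q j

theorem no_dvd {M : ℕ} {z : ℤ} (h : (20 * M : ℤ) ∣ z) (h1 : 0 < z) (h2 : z < 20 * M) : False := by
  have := Int.le_of_dvd h1 h
  linarith

theorem dvd_zero_of {M : ℕ} {z : ℤ} (h : (20 * M : ℤ) ∣ z) (h1 : -(20 * M) < z)
    (h2 : z < 20 * M) : z = 0 :=
  Int.eq_zero_of_abs_lt_dvd h (abs_lt.2 ⟨h1, h2⟩)

theorem ind_of_not_mem {F : Set ℕ} {M Q x d : ℕ} (hd : d < 20 * M) (hF : d ∉ F)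
    (hx : x ∉ Cset F M Q) : ind M Q x d = 0 := by
  unfold ind
  rw [if_neg]
  rintro rfl
  exact hx ⟨d, hd, hF, rfl⟩

theorem Cset_not {O : Set ℕ} {M Q l x : ℕ} (hQ : 1000 * 32 ^ (20 * M) ≤ Q) (hM : 1 ≤ M)
    (hO : ∀ o ∈ O, o ≤ M) (hl : l < 2) (hx : x ∈ O ∪ Uax M Q l) (d : ℕ) : x ≠ cc M Q d := by
  have hQ1 : 1 ≤ Q := le_trans (by
    have : 1 ≤ 32 ^ (20 * M) := Nat.one_le_pow _ _ (by norm_num)
    omega) hQ
  intro h
  have h1 := cc_gt (M := M) (Q := Q) (d := d)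
  have h3 : 20 * M * 32 ≤ 20 * M * (32 * (1 + Q)) := by gcongr; omega
  rcases hx with hx | ⟨b, hb, hx⟩
  · have h2 := hO x hx
    rw [h] at h2
    omega
  · have h4 : b * (20 * M * Q ^ l) ≤ 20 * M * Q ^ 2 := by
      have : Q ^ l ≤ Q ^ 1 := Nat.pow_le_pow_right hQ1 (by omega)
      calc b * (20 * M * Q ^ l) ≤ Q * (20 * M * Q ^ 1) := by gcongr
        _ = 20 * M * Q ^ 2 := by ring
    omega

theorem sum_cp {O F : Set ℕ} {M Q l : ℕ} (hQ : 1000 * 32 ^ (20 * M) ≤ Q) (hM : 1 ≤ M)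
    (hO : ∀ o ∈ O, o ≤ M) (hl : l < 2) (xs : List ℕ)
    (hx : ∀ x ∈ xs, x ∈ O ∪ Cset F M Q ∪ Uax M Q l) :
    ((xs.sum : ℕ) : ℤ) = ((xs.map (np F M Q)).sum : ℕ) +
      ∑ d ∈ Finset.range (20 * M), (xs.map (fun x => ind M Q x d)).sum * (cc M Q d : ℤ) := by
  induction xs with
  | nil => simp
  | cons x xs ih =>
    have ih' := ih (fun y hy => hx y (List.mem_cons_of_mem _ hy))
    have hx0 := hx x (List.mem_cons_self)
    simp only [List.sum_cons, List.map_cons, add_mul, Finset.sum_add_distrib]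
    push_cast at ih' ⊢
    rw [ih']
    have key : (x : ℤ) = np F M Q x + ∑ d ∈ Finset.range (20 * M), ind M Q x d * (cc M Q d : ℤ) := by
      unfold np
      by_cases hc : x ∈ Cset F M Q
      · rw [if_pos hc]
        obtain ⟨e, he, _, rfl⟩ := hc
        have h0 : ∀ d ∈ Finset.range (20 * M), ind M Q (cc M Q e) d * (cc M Q d : ℤ)
            = if e = d then (cc M Q d : ℤ) else 0 := by
          intro d hd
          unfold ind
          by_cases h : e = d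
          · simp [h]
          · rw [if_neg h, if_neg]
            · simp
            · intro h'
              exact h (cc_inj he (Finset.mem_range.1 hd) h')
        rw [Finset.sum_congr rfl h0, Finset.sum_ite_eq]
        simp [he]
      · rw [if_neg hc]
        have hx1 : x ∈ O ∪ Uax M Q l := by
          rcases hx0 with (h | h) | h
          · exact Or.inl h
          · exact absurd h hc
          · exact Or.inr h
        have h0 : ∀ d ∈ Finset.range (20 * M), ind M Q x d * (cc M Q d : ℤ) = 0 := by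
          intro d _
          unfold ind
          rw [if_neg (Cset_not hQ hM hO hl hx1 d), zero_mul]
        rw [Finset.sum_eq_zero h0]
        simp
    linarith

/-- Genericity, second form. -/
theorem gen2 {O F : Set ℕ} {M Q l : ℕ} (hM : 1 ≤ M) (hQ : 1000 * 32 ^ (20 * M) ≤ Q)
    (hO : ∀ o ∈ O, o ≤ M) (hl : l < 2) (xs ys : List ℕ)
    (hx : ∀ x ∈ xs, x ∈ O ∪ Cset F M Q ∪ Uax M Q l)
    (hy : ∀ y ∈ ys, y ∈ O ∪ Cset F M Q ∪ Uax M Q l)
    (hlen : xs.length + ys.length ≤ 12)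
    (hd : (20 * M * Q ^ 2 : ℤ) ∣ ((xs.sum : ℕ) : ℤ) - (ys.sum : ℕ)) :
    (20 * M : ℤ) ∣ ((xs.map (np F M Q)).sum : ℕ) - ((ys.map (np F M Q)).sum : ℕ) := by
  have h1 := gen hM hQ hO hl xs ys hx hy hlen hd
  have h2 := sum_cp hQ hM hO hl xs hx
  have h3 := sum_cp hQ hM hO hl ys hy
  have h4 : ∑ d ∈ Finset.range (20 * M), (xs.map (fun x => ind M Q x d)).sum * (cc M Q d : ℤ)
      = ∑ d ∈ Finset.range (20 * M), (ys.map (fun x => ind M Q x d)).sum * (cc M Q d : ℤ) := by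
    apply Finset.sum_congr rfl
    intro d hd
    rw [h1 d (Finset.mem_range.1 hd)]
  have h5 : (20 * M : ℤ) ∣ ((xs.sum : ℕ) : ℤ) - (ys.sum : ℕ) := dvd_trans ⟨Q ^ 2, by ring⟩ hd
  rw [h2, h3, h4] at h5
  simpa using h5

theorem resU {M Q l a : ℕ} (h : a ∈ Uax M Q l) : (20 * M : ℤ) ∣ (a : ℤ) - 5 * M := by
  obtain ⟨b, _, rfl⟩ := h
  refine ⟨b * Q ^ l, ?_⟩
  push_cast
  ring

theorem resS {O F : Set ℕ} {M Q a f : ℕ} (hM : 1 ≤ M) (hO : ∀ o ∈ O, o ≤ M) (hF : F ⊆ O)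
    (h : a ∈ (O \ F) ∪ Cset F M Q) (hf : f ∈ F) : ¬ (20 * M : ℤ) ∣ (a : ℤ) - f := by
  intro hd
  have hfM := hO f (hF hf)
  rcases h with ⟨ha, haF⟩ | ⟨d, hdM, hdF, rfl⟩
  · have haM := hO a ha
    have : (a : ℤ) - f = 0 := dvd_zero_of hd (by omega) (by omega)
    have : a = f := by omega
    exact haF (this ▸ hf)
  · have h1 : (20 * M : ℤ) ∣ (d : ℤ) - f := by
      have : ((cc M Q d : ℕ) : ℤ) - f = ((d : ℤ) - f) +
          20 * M * (Q ^ 2 + (1 + Q) * 32 ^ (d + 1)) := by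
        unfold cc; push_cast; ring
      rw [this] at hd
      exact (Int.dvd_add_left (Dvd.intro _ rfl)).1 hd
    have : (d : ℤ) - f = 0 := dvd_zero_of h1 (by omega) (by omega)
    have : d = f := by omega
    exact hdF (this ▸ hf)

/-- Shape of a three-term sum in the critical classes. -/
theorem shape {O F : Set ℕ} {M Q v f : ℕ} (hM : 1 ≤ M) (hO : ∀ o ∈ O, o ≤ M) (hF : F ⊆ O)
    (hf : f ∈ F) (hv : v ∈ Sums (LP O F M Q 2) 3) (hr : (20 * M : ℤ) ∣ (v : ℤ) - f - 10 * M) :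
    ∃ l, l < 2 ∧ ∃ p₁ ∈ (O \ F) ∪ Cset F M Q, ∃ p₂ ∈ (O \ F) ∪ Cset F M Q,
      ∃ p₃ ∈ (O \ F) ∪ Cset F M Q ∪ Uax M Q l, v = p₁ + p₂ + p₃ := by
  obtain ⟨a, ha, b, hb, c, hc, rfl⟩ := mem_Sums_three.1 hv
  have hfM := hO f (hF hf)
  have h5 : ∀ l x, x ∈ Uax M Q l → ¬ (20 * M : ℤ) ∣ (x : ℤ) - f := by
    intro l x hx hd
    have h1 := resU hx
    have h2 : (20 * M : ℤ) ∣ 5 * M - f := by
      have := Int.dvd_sub hd h1
      rw [show (x : ℤ) - f - (x - 5 * M) = 5 * M - f by ring] at this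
      exact this
    exact no_dvd h2 (by omega) (by omega)
  have h6 : ∀ x, x ∈ LP O F M Q 2 → ¬ (20 * M : ℤ) ∣ (x : ℤ) - f := by
    intro x hx
    rcases hx with hx | ⟨l, _, hx⟩
    · exact resS hM hO hF hx hf
    · exact h5 l x hx
  have h7 : ∀ x y z : ℕ, ∀ l l', x ∈ Uax M Q l → y ∈ Uax M Q l' → z ∈ LP O F M Q 2 →
      (20 * M : ℤ) ∣ (x : ℤ) + y + z - f - 10 * M → False := by
    intro x y z l l' hx hy hz hd
    have h1 := resU hx
    have h2 := resU hy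
    apply h6 z hz
    have := Int.dvd_sub hd (Int.dvd_add h1 h2)
    rw [show (x : ℤ) + y + z - f - 10 * M - (x - 5 * M + (y - 5 * M)) = z - f by ring] at this
    exact this
  push_cast at hr
  have ha' := ha
  have hb' := hb
  have hc' := hc
  rcases ha with ha | ⟨la, hla, ha⟩
  · rcases hb with hb | ⟨lb, hlb, hb⟩
    · rcases hc with hc | ⟨lc, hlc, hc⟩
      · exact ⟨0, by norm_num, a, ha, b, hb, c, Or.inl hc, rfl⟩
      · exact ⟨lc, hlc, a, ha, b, hb, c, Or.inr hc, rfl⟩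
    · rcases hc with hc | ⟨lc, hlc, hc⟩
      · exact ⟨lb, hlb, a, ha, c, hc, b, Or.inr hb, by ring⟩
      · exact (h7 b c a lb lc hb hc ha' (by
          rw [show (b : ℤ) + c + a - f - 10 * M = a + b + c - f - 10 * M by ring]; exact hr)).elim
  · rcases hb with hb | ⟨lb, hlb, hb⟩
    · rcases hc with hc | ⟨lc, hlc, hc⟩
      · exact ⟨la, hla, b, hb, c, hc, a, Or.inr ha, by ring⟩
      · exact (h7 a c b la lc ha hc hb' (by
          rw [show (a : ℤ) + c + b - f - 10 * M = a + b + c - f - 10 * M by ring]; exact hr)).elim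
    · exact (h7 a b c la lb ha hb hc' hr).elim

/-- Case (c): two failures with the same axis force `y` to be a small element. -/
theorem two_fail {O F : Set ℕ} {M Q l : ℕ} (hM : 1 ≤ M) (hQ : 1000 * 32 ^ (20 * M) ≤ Q)
    (hO : ∀ o ∈ O, o ≤ M) (hl : l < 2) {y : ℤ} {e e' g g' p₁ p₂ p₃ r₁ r₂ r₃ : ℕ}
    (he : e < 20 * M) (he' : e' < 20 * M) (hg : g < 20 * M) (hg' : g' < 20 * M)
    (heF : e ∉ F) (heF' : e' ∉ F) (hgF : g ∉ F) (hgF' : g' ∉ F)
    (h1 : e ≠ e') (h2 : e ≠ g) (h3 : e ≠ g') (h4 : e' ≠ g) (h5 : e' ≠ g')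
    (hp₁ : p₁ ∈ (O \ F) ∪ Cset F M Q) (hp₂ : p₂ ∈ (O \ F) ∪ Cset F M Q)
    (hp₃ : p₃ ∈ (O \ F) ∪ Cset F M Q ∪ Uax M Q l)
    (hr₁ : r₁ ∈ (O \ F) ∪ Cset F M Q) (hr₂ : r₂ ∈ (O \ F) ∪ Cset F M Q)
    (hr₃ : r₃ ∈ (O \ F) ∪ Cset F M Q ∪ Uax M Q l)
    (hp : (20 * M * Q ^ 2 : ℤ) ∣ y + (cc M Q e + cc M Q e' : ℕ) - (p₁ + p₂ + p₃ : ℕ))
    (hr : (20 * M * Q ^ 2 : ℤ) ∣ y + (cc M Q g + cc M Q g' : ℕ) - (r₁ + r₂ + r₃ : ℕ)) :
    ∃ p ∈ LP O F M Q 2, (20 * M * Q ^ 2 : ℤ) ∣ y - p := by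
  have sub : (O \ F) ∪ Cset F M Q ⊆ O ∪ Cset F M Q := by
    rintro x (⟨hx, _⟩ | hx)
    · exact Or.inl hx
    · exact Or.inr hx
  have sub3 : (O \ F) ∪ Cset F M Q ∪ Uax M Q l ⊆ O ∪ Cset F M Q ∪ Uax M Q l := by
    rintro x (hx | hx)
    · exact Or.inl (sub hx)
    · exact Or.inr hx
  have cm : ∀ d, d < 20 * M → d ∉ F → cc M Q d ∈ O ∪ Cset F M Q ∪ Uax M Q l :=
    fun d hd hdF => Or.inl (Or.inr ⟨d, hd, hdF, rfl⟩)
  have hgen := gen hM hQ hO hl [cc M Q e, cc M Q e', r₁, r₂, r₃] [cc M Q g, cc M Q g', p₁, p₂, p₃]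
    (by
      intro x hx
      simp only [List.mem_cons, List.not_mem_nil, or_false] at hx
      rcases hx with rfl | rfl | rfl | rfl | rfl
      · exact cm _ he heF
      · exact cm _ he' heF'
      · exact Or.inl (sub hr₁)
      · exact Or.inl (sub hr₂)
      · exact sub3 hr₃)
    (by
      intro x hx
      simp only [List.mem_cons, List.not_mem_nil, or_false] at hx
      rcases hx with rfl | rfl | rfl | rfl | rfl
      · exact cm _ hg hgF
      · exact cm _ hg' hgF'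
      · exact Or.inl (sub hp₁)
      · exact Or.inl (sub hp₂)
      · exact sub3 hp₃)
    (by simp)
    (by
      have := Int.dvd_sub hp hr
      simp only [List.sum_cons, List.sum_nil]
      push_cast at this ⊢
      rw [show (cc M Q e : ℤ) + (cc M Q e' + (r₁ + (r₂ + (r₃ + 0)))) -
        (cc M Q g + (cc M Q g' + (p₁ + (p₂ + (p₃ + 0))))) =
        y + (cc M Q e + cc M Q e') - (p₁ + p₂ + p₃) -
          (y + (cc M Q g + cc M Q g') - (r₁ + r₂ + r₃)) by ring]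
      exact this)
  have hne : ∀ a b, a < 20 * M → b < 20 * M → a ≠ b → ind M Q (cc M Q a) b = 0 := by
    intro a b ha hb hab
    unfold ind
    rw [if_neg]
    intro h
    exact hab (cc_inj ha hb h)
  have hself : ∀ a, ind M Q (cc M Q a) a = 1 := by
    intro a; unfold ind; simp
  have mem_of : ∀ d, d < 20 * M → 1 ≤ ind M Q p₁ d + ind M Q p₂ d + ind M Q p₃ d →
      p₁ = cc M Q d ∨ p₂ = cc M Q d ∨ p₃ = cc M Q d := by
    intro d hd hs
    by_contra hc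
    push Not at hc
    obtain ⟨c1, c2, c3⟩ := hc
    unfold ind at hs
    rw [if_neg c1, if_neg c2, if_neg c3] at hs
    norm_num at hs
  have m1 : p₁ = cc M Q e ∨ p₂ = cc M Q e ∨ p₃ = cc M Q e := by
    apply mem_of e he
    have := hgen e he
    simp only [List.map_cons, List.map_nil, List.sum_cons, List.sum_nil] at this
    rw [hself, hne e' e he' he h1.symm, hne g e hg he h2.symm, hne g' e hg' he h3.symm] at this
    have a1 := ind_nonneg M Q r₁ e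
    have a2 := ind_nonneg M Q r₂ e
    have a3 := ind_nonneg M Q r₃ e
    linarith
  have m2 : p₁ = cc M Q e' ∨ p₂ = cc M Q e' ∨ p₃ = cc M Q e' := by
    apply mem_of e' he'
    have := hgen e' he'
    simp only [List.map_cons, List.map_nil, List.sum_cons, List.sum_nil] at this
    rw [hself, hne e e' he he' h1, hne g e' hg he' h4.symm, hne g' e' hg' he' h5.symm] at this
    have a1 := ind_nonneg M Q r₁ e'
    have a2 := ind_nonneg M Q r₂ e'
    have a3 := ind_nonneg M Q r₃ e'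
    linarith
  have hcne : cc M Q e ≠ cc M Q e' := fun h => h1 (cc_inj he he' h)
  have hS : ∀ p, p ∈ (O \ F) ∪ Cset F M Q → p ∈ LP O F M Q 2 := fun p hp => Or.inl hp
  have hS3 : ∀ p, p ∈ (O \ F) ∪ Cset F M Q ∪ Uax M Q l → p ∈ LP O F M Q 2 := by
    rintro p (hp | hp)
    · exact Or.inl hp
    · exact Or.inr ⟨l, hl, hp⟩
  rcases m1 with m1 | m1 | m1 <;> rcases m2 with m2 | m2 | m2
  · exact absurd (m1.symm.trans m2) hcne
  · refine ⟨p₃, hS3 _ hp₃, ?_⟩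
    rw [m1, m2] at hp; push_cast at hp ⊢
    convert hp using 1; ring
  · refine ⟨p₂, hS _ hp₂, ?_⟩
    rw [m1, m2] at hp; push_cast at hp ⊢
    convert hp using 1; ring
  · refine ⟨p₃, hS3 _ hp₃, ?_⟩
    rw [m1, m2] at hp; push_cast at hp ⊢
    convert hp using 1; ring
  · exact absurd (m1.symm.trans m2) hcne
  · refine ⟨p₁, hS _ hp₁, ?_⟩
    rw [m1, m2] at hp; push_cast at hp ⊢
    convert hp using 1; ring
  · refine ⟨p₂, hS _ hp₂, ?_⟩
    rw [m1, m2] at hp; push_cast at hp ⊢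
    convert hp using 1; ring
  · refine ⟨p₁, hS _ hp₁, ?_⟩
    rw [m1, m2] at hp; push_cast at hp ⊢
    convert hp using 1; ring
  · exact absurd (m1.symm.trans m2) hcne

end Pool.Agent.H31.Basis
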