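import Pool.Agent.H31.Basis.Base

namespace Pool.Agent.H31.Basis

theorem pairs {M : ℕ} (hM : 1 ≤ M) (τ : ℤ) :
    ∃ h h' : ℕ, (20 * M : ℤ) ∣ (h : ℤ) + h' - τ ∧ M + 4 ≤ h ∧ h ≤ h' ∧ h' + 4 ≤ 20 * M := by
  have hpos : (0 : ℤ) < 20 * M := by positivity
  have h1 := Int.emod_nonneg τ hpos.ne'
  have h2 := Int.emod_lt_of_pos τ hpos
  have h3 : (20 * M : ℤ) ∣ τ % (20 * M) - τ := by
    have := Int.emod_add_mul_ediv τ (20 * M)
    exact ⟨-(τ / (20 * M)), by linarith⟩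
  obtain ⟨τ', hτ1, hτ2, hτ3⟩ : ∃ τ' : ℤ, (20 * M : ℤ) ∣ τ' - τ ∧ 10 * M ≤ τ' ∧ τ' < 30 * M := by
    by_cases hc : τ % (20 * M) < 10 * M
    · refine ⟨τ % (20 * M) + 20 * M, ?_, by linarith, by linarith⟩
      rw [show τ % (20 * M) + 20 * M - τ = (τ % (20 * M) - τ) + 20 * M by ring]
      exact Int.dvd_add h3 (dvd_refl _)
    · push Not at hc
      exact ⟨τ % (20 * M), h3, hc, by linarith⟩
  refine ⟨(τ' / 2).toNat, (τ' - τ' / 2).toNat, ?_, ?_, ?_, ?_⟩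
  · rw [show (((τ' / 2).toNat : ℕ) : ℤ) + ((τ' - τ' / 2).toNat : ℕ) - τ = τ' - τ by omega]
    exact hτ1
  · omega
  · omega
  · omega

variable {O F : Set ℕ} {M Q : ℕ}

theorem LP_sub_LL {j : ℕ} : LP O F M Q j ⊆ LL O F M Q j := by
  rintro x ((⟨hx, _⟩ | hx) | hx)
  · exact Or.inl (Or.inl hx)
  · exact Or.inl (Or.inr hx)
  · exact Or.inr hx

/-- Case (c). -/
theorem base_c (hM : 1 ≤ M) (hQ : 1000 * 32 ^ (20 * M) ≤ Q)
    (hO : ∀ o ∈ O, o ≤ M) (hF : F ⊆ O) {f : ℕ} (hf : f ∈ F) (y : ℤ)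
    (hy : ∀ p ∈ LP O F M Q 2, ¬ (20 * M * Q ^ 2 : ℤ) ∣ y - p) :
    ∃ s ∈ Sums (LL O F M Q 2) 2, (20 * M : ℤ) ∣ y + s - f - 10 * M ∧
      ∀ v ∈ Sums (LP O F M Q 2) 3, ¬ (20 * M * Q ^ 2 : ℤ) ∣ y + s - v := by
  obtain ⟨h, h', hd, hh1, hh2, hh3⟩ := pairs hM ((f : ℤ) + 10 * M - y)
  by_contra hcon
  push Not at hcon
  have hFM : ∀ d, M < d → d ∉ F := by
    intro d hd' hdF
    have := hO d (hF hdF)
    omega
  have claim : ∀ i, i < 3 → ∃ l, l < 2 ∧ ∃ p₁ ∈ (O \ F) ∪ Cset F M Q,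
      ∃ p₂ ∈ (O \ F) ∪ Cset F M Q, ∃ p₃ ∈ (O \ F) ∪ Cset F M Q ∪ Uax M Q l,
      (20 * M * Q ^ 2 : ℤ) ∣ y + (cc M Q (h - 1 - i) + cc M Q (h' + 1 + i) : ℕ)
        - (p₁ + p₂ + p₃ : ℕ) := by
    intro i hi
    have hc1 : cc M Q (h - 1 - i) ∈ LL O F M Q 2 :=
      Or.inl (Or.inr ⟨_, by omega, hFM _ (by omega), rfl⟩)
    have hc2 : cc M Q (h' + 1 + i) ∈ LL O F M Q 2 :=
      Or.inl (Or.inr ⟨_, by omega, hFM _ (by omega), rfl⟩)
    have hres : (20 * M : ℤ) ∣ y + (cc M Q (h - 1 - i) + cc M Q (h' + 1 + i) : ℕ)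
        - f - 10 * M := by
      have e1 : y + ((cc M Q (h - 1 - i) + cc M Q (h' + 1 + i) : ℕ) : ℤ) - f - 10 * M
          = ((h : ℤ) + h' - (f + 10 * M - y)) + 20 * M * ((Q ^ 2 + (1 + Q) * 32 ^ (h - 1 - i + 1))
            + (Q ^ 2 + (1 + Q) * 32 ^ (h' + 1 + i + 1))) := by
        unfold cc
        push_cast
        have : ((h - 1 - i : ℕ) : ℤ) = h - 1 - i := by omega
        rw [this]
        ring
      rw [e1]
      exact Int.dvd_add hd (Dvd.intro _ rfl)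
    obtain ⟨v, hv, hvd⟩ := hcon _ (mem_Sums_two.2 ⟨_, hc1, _, hc2, rfl⟩) hres
    have hvr : (20 * M : ℤ) ∣ (v : ℤ) - f - 10 * M := by
      have h5 : (20 * M : ℤ) ∣ y + (cc M Q (h - 1 - i) + cc M Q (h' + 1 + i) : ℕ) - v :=
        dvd_trans ⟨Q ^ 2, by ring⟩ hvd
      have := Int.dvd_sub hres h5
      rw [show y + ((cc M Q (h - 1 - i) + cc M Q (h' + 1 + i) : ℕ) : ℤ) - f - 10 * M -
        (y + ((cc M Q (h - 1 - i) + cc M Q (h' + 1 + i) : ℕ) : ℤ) - v) = v - f - 10 * M by ring]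
        at this
      exact this
    obtain ⟨l, hl, p₁, hp₁, p₂, hp₂, p₃, hp₃, rfl⟩ := shape hM hO hF hf hv hvr
    exact ⟨l, hl, p₁, hp₁, p₂, hp₂, p₃, hp₃, hvd⟩
  have two : ∀ i j, i < 3 → j < 3 → i ≠ j → ∀ l, l < 2 →
      (∃ p₁ ∈ (O \ F) ∪ Cset F M Q,
      ∃ p₂ ∈ (O \ F) ∪ Cset F M Q, ∃ p₃ ∈ (O \ F) ∪ Cset F M Q ∪ Uax M Q l,
      (20 * M * Q ^ 2 : ℤ) ∣ y + (cc M Q (h - 1 - i) + cc M Q (h' + 1 + i) : ℕ)
        - (p₁ + p₂ + p₃ : ℕ)) →
      (∃ p₁ ∈ (O \ F) ∪ Cset F M Q,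
      ∃ p₂ ∈ (O \ F) ∪ Cset F M Q, ∃ p₃ ∈ (O \ F) ∪ Cset F M Q ∪ Uax M Q l,
      (20 * M * Q ^ 2 : ℤ) ∣ y + (cc M Q (h - 1 - j) + cc M Q (h' + 1 + j) : ℕ)
        - (p₁ + p₂ + p₃ : ℕ)) → False := by
    rintro i j hi hj hij l hl ⟨p₁, hp₁, p₂, hp₂, p₃, hp₃, hp⟩ ⟨r₁, hr₁, r₂, hr₂, r₃, hr₃, hr⟩
    obtain ⟨p, hp', hpd⟩ := two_fail hM hQ hO hl (y := y)
      (e := h - 1 - i) (e' := h' + 1 + i) (g := h - 1 - j) (g' := h' + 1 + j)
      (by omega) (by omega) (by omega) (by omega)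
      (hFM _ (by omega)) (hFM _ (by omega)) (hFM _ (by omega)) (hFM _ (by omega))
      (by omega) (by omega) (by omega) (by omega) (by omega)
      hp₁ hp₂ hp₃ hr₁ hr₂ hr₃ hp hr
    exact hy p hp' hpd
  obtain ⟨l₀, hl₀, c₀⟩ := claim 0 (by norm_num)
  obtain ⟨l₁, hl₁, c₁⟩ := claim 1 (by norm_num)
  obtain ⟨l₂, hl₂, c₂⟩ := claim 2 (by norm_num)
  have : l₀ = l₁ ∨ l₀ = l₂ ∨ l₁ = l₂ := by omega
  rcases this with h01 | h02 | h12
  · subst h01
    exact two 0 1 (by norm_num) (by norm_num) (by norm_num) _ hl₀ c₀ c₁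
  · subst h02
    exact two 0 2 (by norm_num) (by norm_num) (by norm_num) _ hl₀ c₀ c₂
  · subst h12
    exact two 1 2 (by norm_num) (by norm_num) (by norm_num) _ hl₁ c₁ c₂

theorem np_le (F : Set ℕ) (M Q a : ℕ) : np F M Q a = 0 ∨ (a ∉ Cset F M Q ∧ np F M Q a = a) := by
  unfold np
  by_cases h : a ∈ Cset F M Q
  · left; rw [if_pos h]
  · right; rw [if_neg h]; exact ⟨h, rfl⟩

theorem np_S {a : ℕ} (h0 : (0 : ℕ) ∈ O \ F) (ha : a ∈ (O \ F) ∪ Cset F M Q) :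
    np F M Q a ∈ O \ F := by
  unfold np
  by_cases h : a ∈ Cset F M Q
  · rw [if_pos h]; exact h0
  · rw [if_neg h]
    rcases ha with ha | ha
    · exact ha
    · exact absurd ha h

theorem np_U {l a : ℕ} (hM : 1 ≤ M) (hQ : 1000 * 32 ^ (20 * M) ≤ Q)
    (hO : ∀ o ∈ O, o ≤ M) (hl : l < 2) (ha : a ∈ Uax M Q l) : np F M Q a = a := by
  unfold np
  rw [if_neg]
  rintro ⟨d, _, _, h⟩
  exact Cset_not hQ hM hO hl (Or.inr ha) d h

/-- Case (b). -/
theorem base_b (hM : 1 ≤ M) (hQ : 1000 * 32 ^ (20 * M) ≤ Q)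
    (hO : ∀ o ∈ O, o ≤ M) (h0O : 0 ∈ O) (hF : F ⊆ O) (h0F : 0 ∉ F)
    (hFC : ∀ b ∈ O, ∃ f ∈ F, b + f ∉ Sums (O \ F) 2) (y : ℤ)
    {p : ℕ} (hp : p ∈ (O \ F) ∪ Cset F M Q) (hyp : (20 * M * Q ^ 2 : ℤ) ∣ y - p) :
    ∃ s ∈ Sums (LL O F M Q 2) 2, ∃ f ∈ F, (20 * M : ℤ) ∣ y + s - f - 10 * M ∧
      ∀ v ∈ Sums (LP O F M Q 2) 3, ¬ (20 * M * Q ^ 2 : ℤ) ∣ y + s - v := by
  have hMz : (1 : ℤ) ≤ M := by exact_mod_cast hM
  -- it suffices to find the partner `p'`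
  obtain ⟨p', b, hp', hb, hres, hnp, hC⟩ : ∃ p' b : ℕ, p' ∈ O ∪ Cset F M Q ∧ b ∈ O ∧
      (20 * M : ℤ) ∣ (p : ℤ) + p' - 10 * M ∧ np F M Q p + np F M Q p' = b ∧
      ∃ d, d < 20 * M ∧ d ∉ F ∧ (p = cc M Q d ∨ p' = cc M Q d) := by
    rcases hp with ⟨hpO, hpF⟩ | ⟨d, hdM, hdF, rfl⟩
    · have hpM := hO p hpO
      have hF' : 10 * M - p ∉ F := by
        intro h
        have := hO _ (hF h)
        omega
      refine ⟨cc M Q (10 * M - p), p, Or.inr ⟨_, by omega, hF', rfl⟩, hpO, ?_, ?_, ?_⟩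
      · refine ⟨Q ^ 2 + (1 + Q) * 32 ^ (10 * M - p + 1), ?_⟩
        unfold cc
        push_cast
        have : ((10 * M - p : ℕ) : ℤ) = 10 * M - p := by omega
        rw [this]; ring
      · have h1 : np F M Q (cc M Q (10 * M - p)) = 0 := by
          unfold np; rw [if_pos ⟨_, by omega, hF', rfl⟩]
        have h2 : np F M Q p = p := by
          unfold np; rw [if_neg]
          rintro ⟨d, _, _, h⟩
          exact Cset_not hQ hM hO (l := 0) (by norm_num) (Or.inl hpO) d h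
        rw [h1, h2, add_zero]
      · exact ⟨_, by omega, hF', Or.inr rfl⟩
    · -- residue of the partner
      have hd' : ∃ d' : ℕ, d' < 20 * M ∧ (20 * M : ℤ) ∣ (d : ℤ) + d' - 10 * M := by
        by_cases hc : d ≤ 10 * M
        · refine ⟨10 * M - d, by omega, 0, by omega⟩
        · refine ⟨30 * M - d, by omega, 1, by omega⟩
      obtain ⟨d', hd'M, hd'⟩ := hd'
      have h1 : np F M Q (cc M Q d) = 0 := by
        unfold np; rw [if_pos ⟨_, hdM, hdF, rfl⟩]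
      by_cases hd'F : d' ∈ F
      · refine ⟨d', d', Or.inl (hF hd'F), hF hd'F, ?_, ?_, d, hdM, hdF, Or.inl rfl⟩
        · rw [show ((cc M Q d : ℕ) : ℤ) + d' - 10 * M = ((d : ℤ) + d' - 10 * M) +
            20 * M * (Q ^ 2 + (1 + Q) * 32 ^ (d + 1)) by unfold cc; push_cast; ring]
          exact Int.dvd_add hd' (Dvd.intro _ rfl)
        · have h2 : np F M Q d' = d' := by
            unfold np; rw [if_neg]
            rintro ⟨e, _, _, h⟩
            exact Cset_not hQ hM hO (l := 0) (by norm_num) (Or.inl (hF hd'F)) e h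
          rw [h1, h2, zero_add]
      · refine ⟨cc M Q d', 0, Or.inr ⟨_, hd'M, hd'F, rfl⟩, h0O, ?_, ?_, d, hdM, hdF, Or.inl rfl⟩
        · rw [show ((cc M Q d : ℕ) : ℤ) + (cc M Q d' : ℕ) - 10 * M = ((d : ℤ) + d' - 10 * M) +
            20 * M * ((Q ^ 2 + (1 + Q) * 32 ^ (d + 1)) + (Q ^ 2 + (1 + Q) * 32 ^ (d' + 1))) by
              unfold cc; push_cast; ring]
          exact Int.dvd_add hd' (Dvd.intro _ rfl)
        · have h2 : np F M Q (cc M Q d') = 0 := by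
            unfold np; rw [if_pos ⟨_, hd'M, hd'F, rfl⟩]
          rw [h1, h2]
  obtain ⟨f, hf, hfb⟩ := hFC b hb
  have hfM := hO f (hF hf)
  have hbM := hO b hb
  have hpL : p ∈ O ∪ Cset F M Q := by
    rcases hp with ⟨h, _⟩ | h
    · exact Or.inl h
    · exact Or.inr h
  refine ⟨f + p', mem_Sums_two.2 ⟨f, Or.inl (Or.inl (hF hf)), p', Or.inl hp', rfl⟩, f, hf, ?_, ?_⟩
  · have h1 : (20 * M : ℤ) ∣ y - p := dvd_trans ⟨Q ^ 2, by ring⟩ hyp
    have := Int.dvd_add h1 hres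
    push_cast
    rw [show y + ((f : ℤ) + p') - f - 10 * M = y - p + (p + p' - 10 * M) by ring]
    exact this
  · intro v hv hvd
    have hpv : (20 * M * Q ^ 2 : ℤ) ∣ (p : ℤ) + (f + p') - v := by
      have := Int.dvd_sub hvd hyp
      push_cast at this
      rw [show y + ((f : ℤ) + p') - v - (y - p) = p + (f + p') - v by ring] at this
      exact this
    have hpv' : (20 * M : ℤ) ∣ (p : ℤ) + (f + p') - v := dvd_trans ⟨Q ^ 2, by ring⟩ hpv
    have hvr : (20 * M : ℤ) ∣ (v : ℤ) - f - 10 * M := by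
      have := Int.dvd_sub hres hpv'
      rw [show (p : ℤ) + p' - 10 * M - (p + (f + p') - v) = v - f - 10 * M by ring] at this
      exact this
    obtain ⟨l, hl, p₁, hp₁, p₂, hp₂, p₃, hp₃, rfl⟩ := shape hM hO hF hf hv hvr
    have sub : (O \ F) ∪ Cset F M Q ⊆ O ∪ Cset F M Q := by
      rintro x (⟨hx, _⟩ | hx)
      · exact Or.inl hx
      · exact Or.inr hx
    have m1 : ∀ x ∈ [p, f, p'], x ∈ O ∪ Cset F M Q ∪ Uax M Q l := by
      intro x hx
      simp only [List.mem_cons, List.not_mem_nil, or_false] at hx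
      rcases hx with rfl | rfl | rfl
      · exact Or.inl hpL
      · exact Or.inl (Or.inl (hF hf))
      · exact Or.inl hp'
    have m2 : ∀ x ∈ [p₁, p₂, p₃], x ∈ O ∪ Cset F M Q ∪ Uax M Q l := by
      intro x hx
      simp only [List.mem_cons, List.not_mem_nil, or_false] at hx
      rcases hx with rfl | rfl | rfl
      · exact Or.inl (sub hp₁)
      · exact Or.inl (sub hp₂)
      · rcases hp₃ with hp₃ | hp₃
        · exact Or.inl (sub hp₃)
        · exact Or.inr hp₃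
    have hdd : (20 * M * Q ^ 2 : ℤ) ∣ (([p, f, p'].sum : ℕ) : ℤ) - (([p₁, p₂, p₃].sum : ℕ) : ℤ) := by
      simp only [List.sum_cons, List.sum_nil]
      push_cast at hpv ⊢
      rw [show (p : ℤ) + (f + (p' + 0)) - (p₁ + (p₂ + (p₃ + 0))) = p + (f + p') - (p₁ + p₂ + p₃)
        by ring]
      exact hpv
    have g1 := gen hM hQ hO hl [p, f, p'] [p₁, p₂, p₃] m1 m2 (by simp) hdd
    have g2 := gen2 hM hQ hO hl [p, f, p'] [p₁, p₂, p₃] m1 m2 (by simp) hdd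
    have h0' : (0 : ℕ) ∈ O \ F := ⟨h0O, h0F⟩
    have hnf : np F M Q f = f := by
      unfold np; rw [if_neg]
      rintro ⟨e, _, _, h⟩
      exact Cset_not hQ hM hO (l := 0) (by norm_num) (Or.inl (hF hf)) e h
    simp only [List.map_cons, List.map_nil, List.sum_cons, List.sum_nil, hnf] at g2
    have hn1 := np_S (Q := Q) h0' hp₁
    have hn2 := np_S (Q := Q) h0' hp₂
    have hb1 := hO _ hn1.1
    have hb2 := hO _ hn2.1
    rcases hp₃ with hp₃ | hp₃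
    · have hn3 := np_S (Q := Q) h0' hp₃
      have hb3 := hO _ hn3.1
      -- all small: equality
      have heq : b + f = np F M Q p₁ + np F M Q p₂ + np F M Q p₃ := by
        have := dvd_zero_of g2 (by push_cast; omega) (by push_cast; omega)
        push_cast at this
        omega
      -- one of them is generic
      obtain ⟨d, hdM, hdF, hdd'⟩ := hC
      have g3 := g1 d hdM
      simp only [List.map_cons, List.map_nil, List.sum_cons, List.sum_nil] at g3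
      have hge : 1 ≤ ind M Q p d + (ind M Q f d + (ind M Q p' d + 0)) := by
        have a1 := ind_nonneg M Q p d
        have a2 := ind_nonneg M Q f d
        have a3 := ind_nonneg M Q p' d
        rcases hdd' with h | h
        · have : ind M Q p d = 1 := by unfold ind; rw [if_pos h]
          linarith
        · have : ind M Q p' d = 1 := by unfold ind; rw [if_pos h]
          linarith
      rw [g3] at hge
      apply hfb
      rw [heq]
      by_cases z1 : p₁ = cc M Q d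
      · have : np F M Q p₁ = 0 := by unfold np; rw [if_pos ⟨d, hdM, hdF, z1⟩]
        rw [this, zero_add]
        exact mem_Sums_two.2 ⟨_, hn2, _, hn3, rfl⟩
      · by_cases z2 : p₂ = cc M Q d
        · have : np F M Q p₂ = 0 := by unfold np; rw [if_pos ⟨d, hdM, hdF, z2⟩]
          rw [this, add_zero]
          exact mem_Sums_two.2 ⟨_, hn1, _, hn3, rfl⟩
        · by_cases z3 : p₃ = cc M Q d
          · have : np F M Q p₃ = 0 := by unfold np; rw [if_pos ⟨d, hdM, hdF, z3⟩]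
            rw [this, add_zero]
            exact mem_Sums_two.2 ⟨_, hn1, _, hn2, rfl⟩
          · exfalso
            unfold ind at hge
            rw [if_neg z1, if_neg z2, if_neg z3] at hge
            norm_num at hge
    · have h3 := np_U (F := F) hM hQ hO hl hp₃
      have h4 := resU hp₃
      have h5 : (20 * M : ℤ) ∣ 5 * M + np F M Q p₁ + np F M Q p₂ - b - f := by
        have := Int.dvd_add g2 h4
        rw [h3] at this
        push_cast at this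
        have h6 := (Int.dvd_neg (a := (20 * M : ℤ))).2 this
        rw [← hnp]
        push_cast
        rw [show (5 * M + (np F M Q p₁ : ℤ) + np F M Q p₂ - (np F M Q p + np F M Q p') - f) =
          -((np F M Q p : ℤ) + (f + (np F M Q p' + 0)) - (np F M Q p₁ + (np F M Q p₂ + (p₃ + 0)))
            + (p₃ - 5 * M)) by ring]
        exact h6
      exact no_dvd h5 (by omega) (by omega)

end Pool.Agent.H31.Basis
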