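import Pool.Agent.H31.Basis.Base2

namespace Pool.Agent.H31.Basis

variable {O F : Set ℕ} {M Q : ℕ}

/-- The shape of a non-axis element: residue and height. -/
theorem height {a : ℕ} (hM : 1 ≤ M) (hO : ∀ o ∈ O, o ≤ M)
    (ha : a ∈ (O \ F) ∪ Cset F M Q) :
    ∃ ρ κ η : ℤ, 0 ≤ ρ ∧ ρ < 20 * M ∧ 0 ≤ η ∧ η ≤ 32 ^ (20 * M) ∧
      (a : ℤ) = ρ + 20 * M * (Q ^ 2 * κ + (1 + Q) * η) := by
  rcases ha with ⟨ha, _⟩ | ⟨d, hd, _, rfl⟩
  · have := hO a ha
    exact ⟨a, 0, 0, by positivity, by omega, le_rfl, by positivity, by ring⟩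
  · refine ⟨d, 1, 32 ^ (d + 1), by positivity, by exact_mod_cast hd, by positivity, ?_, ?_⟩
    · exact pow_le_pow_right₀ (by norm_num) (by omega)
    · unfold cc; push_cast; ring

/-- Case (a). -/
theorem base_a (hM : 1 ≤ M) (hQ : 1000 * 32 ^ (20 * M) ≤ Q) (h2Q : 2 ∣ Q)
    (hO : ∀ o ∈ O, o ≤ M) (h0O : 0 ∈ O) (hF : F ⊆ O) (h0F : 0 ∉ F)
    {f : ℕ} (hf : f ∈ F) (y : ℤ) {l p : ℕ} (hl : l < 2) (hp : p ∈ Uax M Q l)
    (hyp : (20 * M * Q ^ 2 : ℤ) ∣ y - p) :
    ∃ s ∈ Sums (LL O F M Q 2) 2, (20 * M : ℤ) ∣ y + s - f - 10 * M ∧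
      ∀ v ∈ Sums (LP O F M Q 2) 3, ¬ (20 * M * Q ^ 2 : ℤ) ∣ y + s - v := by
  have hfM := hO f (hF hf)
  have hMz : (1 : ℤ) ≤ M := by exact_mod_cast hM
  have hPz : (1 : ℤ) ≤ 32 ^ (20 * M) := one_le_pow₀ (by norm_num)
  have hQz : (1000 : ℤ) * 32 ^ (20 * M) ≤ Q := by exact_mod_cast hQ
  obtain ⟨H, hH⟩ := h2Q
  obtain ⟨b, hb, hpb⟩ := hp
  obtain ⟨b', hb', c, hbb⟩ : ∃ b' : ℕ, b' < Q ∧ ∃ c : ℤ, (b : ℤ) + b' = H + Q * c := by
    by_cases h : b ≤ H
    · exact ⟨H - b, by omega, 0, by omega⟩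
    · exact ⟨H + Q - b, by omega, 1, by omega⟩
  set u : ℕ := 5 * M + b' * (20 * M * Q ^ l) with hu
  have huU : u ∈ Uax M Q l := ⟨b', hb', rfl⟩
  have hpU : p ∈ Uax M Q l := ⟨b, hb, hpb⟩
  refine ⟨f + u, mem_Sums_two.2 ⟨f, Or.inl (Or.inl (hF hf)), u, Or.inr ⟨l, hl, huU⟩, rfl⟩, ?_, ?_⟩
  · have h1 : (20 * M : ℤ) ∣ y - p := dvd_trans ⟨Q ^ 2, by ring⟩ hyp
    have h2 := resU hpU
    have h3 := resU huU
    have := Int.dvd_add (Int.dvd_add h1 h2) h3
    push_cast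
    rw [show y + ((f : ℤ) + u) - f - 10 * M = y - p + (p - 5 * M) + (u - 5 * M) by ring]
    exact this
  · intro v hv hvd
    have hpv : (20 * M * Q ^ 2 : ℤ) ∣ (p : ℤ) + (f + u) - v := by
      have := Int.dvd_sub hvd hyp
      push_cast at this
      rw [show y + ((f : ℤ) + u) - v - (y - p) = p + (f + u) - v by ring] at this
      exact this
    have hpv' : (20 * M : ℤ) ∣ (p : ℤ) + (f + u) - v := dvd_trans ⟨Q ^ 2, by ring⟩ hpv
    have hvr : (20 * M : ℤ) ∣ (v : ℤ) - f - 10 * M := by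
      have h2 := resU hpU
      have h3 := resU huU
      have := Int.dvd_sub (Int.dvd_add h2 h3) hpv'
      rw [show (p : ℤ) - 5 * M + (u - 5 * M) - (p + (f + u) - v) = v - f - 10 * M by ring] at this
      exact this
    obtain ⟨l', hl', p₁, hp₁, p₂, hp₂, p₃, hp₃, rfl⟩ := shape hM hO hF hf hv hvr
    have sub : (O \ F) ∪ Cset F M Q ⊆ O ∪ Cset F M Q := by
      rintro x (⟨hx, _⟩ | hx)
      · exact Or.inl hx
      · exact Or.inr hx
    have h0' : (0 : ℕ) ∈ O \ F := ⟨h0O, h0F⟩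
    have hnf : np F M Q f = f := by
      unfold np; rw [if_neg]
      rintro ⟨e, _, _, h⟩
      exact Cset_not hQ hM hO (l := 0) (by norm_num) (Or.inl (hF hf)) e h
    have hnp := np_U (F := F) hM hQ hO hl hpU
    have hnu := np_U (F := F) hM hQ hO hl huU
    have hn1 := np_S (Q := Q) h0' hp₁
    have hn2 := np_S (Q := Q) h0' hp₂
    have hb1 := hO _ hn1.1
    have hb2 := hO _ hn2.1
    have hrp := resU hpU
    have hru := resU huU
    -- same axis
    have same : p₃ ∈ (O \ F) ∪ Cset F M Q ∪ Uax M Q l → False := by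
      intro hp₃'
      have m1 : ∀ x ∈ [p, f, u], x ∈ O ∪ Cset F M Q ∪ Uax M Q l := by
        intro x hx
        simp only [List.mem_cons, List.not_mem_nil, or_false] at hx
        rcases hx with rfl | rfl | rfl
        · exact Or.inr hpU
        · exact Or.inl (Or.inl (hF hf))
        · exact Or.inr huU
      have m2 : ∀ x ∈ [p₁, p₂, p₃], x ∈ O ∪ Cset F M Q ∪ Uax M Q l := by
        intro x hx
        simp only [List.mem_cons, List.not_mem_nil, or_false] at hx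
        rcases hx with rfl | rfl | rfl
        · exact Or.inl (sub hp₁)
        · exact Or.inl (sub hp₂)
        · rcases hp₃' with hp₃ | hp₃
          · exact Or.inl (sub hp₃)
          · exact Or.inr hp₃
      have g2 := gen2 hM hQ hO hl [p, f, u] [p₁, p₂, p₃] m1 m2 (by simp) (by
        simp only [List.sum_cons, List.sum_nil]
        push_cast at hpv ⊢
        rw [show (p : ℤ) + (f + (u + 0)) - (p₁ + (p₂ + (p₃ + 0))) = p + (f + u) - (p₁ + p₂ + p₃)
          by ring]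
        exact hpv)
      simp only [List.map_cons, List.map_nil, List.sum_cons, List.sum_nil, hnf, hnp, hnu] at g2
      push_cast at g2
      rcases hp₃' with hp₃ | hp₃
      · have hn3 := np_S (Q := Q) h0' hp₃
        have hb3 := hO _ hn3.1
        have := Int.dvd_sub g2 (Int.dvd_add hrp hru)
        have h7 : (20 * M : ℤ) ∣ 10 * M + f - np F M Q p₁ - np F M Q p₂ - np F M Q p₃ := by
          rw [show (10 * M + f - np F M Q p₁ - np F M Q p₂ - np F M Q p₃ : ℤ) =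
            (p : ℤ) + (f + (u + 0)) - (np F M Q p₁ + (np F M Q p₂ + (np F M Q p₃ + 0)))
            - ((p : ℤ) - 5 * M + (u - 5 * M)) by ring]
          exact this
        exact no_dvd h7 (by omega) (by omega)
      · have h3 := np_U (F := F) hM hQ hO hl hp₃
        have h4 := resU hp₃
        rw [h3] at g2
        have := Int.dvd_add (Int.dvd_sub g2 (Int.dvd_add hrp hru)) h4
        have h7 : (20 * M : ℤ) ∣ 5 * M + f - np F M Q p₁ - np F M Q p₂ := by
          rw [show (5 * M + f - np F M Q p₁ - np F M Q p₂ : ℤ) =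
            (p : ℤ) + (f + (u + 0)) - (np F M Q p₁ + (np F M Q p₂ + (p₃ + 0)))
            - ((p : ℤ) - 5 * M + (u - 5 * M)) + (p₃ - 5 * M) by ring]
          exact this
        exact no_dvd h7 (by omega) (by omega)
    rcases hp₃ with hp₃ | hp₃
    · exact same (Or.inl hp₃)
    · by_cases hll : l' = l
      · subst hll
        exact same (Or.inr hp₃)
      · obtain ⟨b₃, hb₃, hp₃b⟩ := hp₃
        obtain ⟨ρ₁, κ₁, η₁, r1, r2, r3, r4, r5⟩ := height hM hO hp₁
        obtain ⟨ρ₂, κ₂, η₂, q1, q2, q3, q4, q5⟩ := height hM hO hp₂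
        have hQb : (b₃ : ℤ) < Q := by exact_mod_cast hb₃
        have hb30 : (0 : ℤ) ≤ b₃ := by positivity
        have hHz : (Q : ℤ) = 2 * H := by exact_mod_cast hH
        -- main relation
        have hmain : (20 * M * Q ^ 2 : ℤ) ∣ (f + 5 * M - ρ₁ - ρ₂) + 20 * M *
            ((H + Q * c) * Q ^ l - b₃ * Q ^ l' - (1 + Q) * (η₁ + η₂)) := by
          obtain ⟨w, hw⟩ := hpv
          refine ⟨w + κ₁ + κ₂, ?_⟩
          rw [← hbb]
          have e1 : (p : ℤ) = 5 * M + b * (20 * M * Q ^ l) := by rw [hpb]; push_cast; ring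
          have e2 : (u : ℤ) = 5 * M + b' * (20 * M * Q ^ l) := by rw [hu]; push_cast; ring
          have e3 : (p₃ : ℤ) = 5 * M + b₃ * (20 * M * Q ^ l') := by rw [hp₃b]; push_cast; ring
          push_cast at hw
          rw [e1, e2, e3, r5, q5] at hw
          linear_combination hw
        obtain ⟨w, hw⟩ : (20 * M : ℤ) ∣ (f + 5 * M - ρ₁ - ρ₂) := by
          have := dvd_trans (Dvd.intro (Q ^ 2 : ℤ) (by ring : (20 * M : ℤ) * Q ^ 2 = 20 * M * Q ^ 2))
            hmain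
          exact (Int.dvd_add_left (Dvd.intro _ rfl)).1 this
        have hw1 : -2 ≤ w := by
          by_contra hc
          push Not at hc
          have : (20 * M : ℤ) * w ≤ 20 * M * (-3) := by
            apply mul_le_mul_of_nonneg_left _ (by positivity)
            omega
          omega
        have hw2 : w ≤ 2 := by
          by_contra hc
          push Not at hc
          have : (20 * M : ℤ) * 3 ≤ 20 * M * w := by
            apply mul_le_mul_of_nonneg_left _ (by positivity)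
            omega
          omega
        have hmain2 : (Q ^ 2 : ℤ) ∣ w + ((H + Q * c) * Q ^ l - b₃ * Q ^ l'
            - (1 + Q) * (η₁ + η₂)) := by
          rw [hw] at hmain
          have h8 : (20 * M * Q ^ 2 : ℤ) ∣ 20 * M * (w + ((H + Q * c) * Q ^ l - b₃ * Q ^ l'
            - (1 + Q) * (η₁ + η₂))) := by
            rw [mul_add]; exact hmain
          exact Int.dvd_of_mul_dvd_mul_left (by positivity) h8
        have hη : 1000 * (η₁ + η₂) ≤ 2 * Q := by linarith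
        have hη0 : 0 ≤ η₁ + η₂ := by linarith
        have hl01 : (l = 0 ∧ l' = 1) ∨ (l = 1 ∧ l' = 0) := by omega
        rcases hl01 with ⟨rfl, rfl⟩ | ⟨rfl, rfl⟩
        · have h9 : (Q : ℤ) ∣ w + H - (η₁ + η₂) := by
            have h10 : (Q : ℤ) ∣ w + ((H + Q * c) * Q ^ 0 - b₃ * Q ^ 1
              - (1 + Q) * (η₁ + η₂)) := dvd_trans ⟨Q, by ring⟩ hmain2
            rw [show w + (((H : ℤ) + Q * c) * Q ^ 0 - b₃ * Q ^ 1 - (1 + Q) * (η₁ + η₂)) =
              (w + H - (η₁ + η₂)) + Q * (c - b₃ - (η₁ + η₂)) by ring] at h10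
            exact (Int.dvd_add_left (Dvd.intro _ rfl)).1 h10
          have h11 := Int.le_of_dvd (by linarith) h9
          linarith
        · have h9 : (Q ^ 2 : ℤ) ∣ w + H * Q - b₃ - (1 + Q) * (η₁ + η₂) := by
            rw [show w + (((H : ℤ) + Q * c) * Q ^ 1 - b₃ * Q ^ 0 - (1 + Q) * (η₁ + η₂)) =
              (w + H * Q - b₃ - (1 + Q) * (η₁ + η₂)) + Q ^ 2 * c by ring] at hmain2
            exact (Int.dvd_add_left (Dvd.intro _ rfl)).1 hmain2
          have h12 : (1 + (Q : ℤ)) * (1000 * (η₁ + η₂)) ≤ (1 + Q) * (2 * Q) :=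
            mul_le_mul_of_nonneg_left hη (by positivity)
          have h13 : (0 : ℤ) ≤ (1 + Q) * (η₁ + η₂) := by positivity
          have h14 : 1000 * ((1 + (Q : ℤ)) * (η₁ + η₂)) ≤ 2 * Q + 2 * Q ^ 2 := by nlinarith
          have h15 : (Q : ℤ) ^ 2 = 2 * (H * Q) := by rw [sq]; nth_rw 1 [hHz]; ring
          have h16 : (1000 : ℤ) * Q ≤ Q ^ 2 := by nlinarith
          have h11 := Int.le_of_dvd (by linarith) h9
          linarith

/-- The base lemma. -/
theorem base (hM : 1 ≤ M) (hQ : 1000 * 32 ^ (20 * M) ≤ Q) (h2Q : 2 ∣ Q)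
    (hO : ∀ o ∈ O, o ≤ M) (h0O : 0 ∈ O) (hF : F ⊆ O) (h0F : 0 ∉ F)
    (hFC : ∀ b ∈ O, ∃ f ∈ F, b + f ∉ Sums (O \ F) 2) (y : ℤ) :
    ∃ s ∈ Sums (LL O F M Q 2) 2, ∃ f ∈ F, (20 * M : ℤ) ∣ y + s - f - 10 * M ∧
      ∀ v ∈ Sums (LP O F M Q 2) 3, ¬ (20 * M * Q ^ 2 : ℤ) ∣ y + s - v := by
  obtain ⟨f, hf, _⟩ := hFC 0 h0O
  by_cases hy : ∃ p ∈ LP O F M Q 2, (20 * M * Q ^ 2 : ℤ) ∣ y - p
  · obtain ⟨p, hp, hyp⟩ := hy
    rcases hp with hp | ⟨l, hl, hp⟩
    · exact base_b hM hQ hO h0O hF h0F hFC y hp hyp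
    · obtain ⟨s, hs, h1, h2⟩ := base_a hM hQ h2Q hO h0O hF h0F hf y hl hp hyp
      exact ⟨s, hs, f, hf, h1, h2⟩
  · push Not at hy
    obtain ⟨s, hs, h1, h2⟩ := base_c hM hQ hO hF hf y hy
    exact ⟨s, hs, f, hf, h1, h2⟩

end Pool.Agent.H31.Basis
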