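import Pool.Agent.H31.Basis.NotRep

namespace Pool.Agent.H31.Basis

variable {O F : Set ℕ} {M Q : ℕ}

theorem axis_cov {X : Set ℕ} {i K j : ℕ} (hQ1 : 1 ≤ Q)
    (h : ∀ x, K ≤ x → ∃ s ∈ Sums X i, ∃ r, x = s + 20 * M * Q ^ j * r) :
    ∀ x, K + 5 * M ≤ x → ∃ s ∈ Sums (X ∪ Uax M Q j) (i + 1), ∃ r,
      x = s + 20 * M * Q ^ (j + 1) * r := by
  intro x hx
  obtain ⟨s, hs, r, hr⟩ := h (x - 5 * M) (by omega)
  refine ⟨s + (5 * M + (r % Q) * (20 * M * Q ^ j)), ?_, r / Q, ?_⟩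
  · exact Sums_add_one (Sums_mono Set.subset_union_left _ hs)
      (Or.inr ⟨r % Q, Nat.mod_lt _ (by omega), rfl⟩)
  · have h1 : x = s + 5 * M + 20 * M * Q ^ j * r := by omega
    have h2 : r = Q * (r / Q) + r % Q := (Nat.div_add_mod r Q).symm
    rw [h1]
    nth_rw 1 [h2]
    ring

theorem cov_LL (hQ : 1000 * 32 ^ (20 * M) ≤ Q) (hM : 1 ≤ M) (hF : F ⊆ O) (j : ℕ) :
    ∀ x, 20 * M * (2 * Q ^ 2) + j * (5 * M) ≤ x → ∃ s ∈ Sums (LL O F M Q j) (j + 1), ∃ r,
      x = s + 20 * M * Q ^ j * r := by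
  have hQ1 : 1 ≤ Q := le_trans (by
    have : 1 ≤ 32 ^ (20 * M) := Nat.one_le_pow _ _ (by norm_num)
    omega) hQ
  induction j with
  | zero =>
    intro x hx
    have hd : x % (20 * M) < 20 * M := Nat.mod_lt _ (by omega)
    by_cases hdF : x % (20 * M) ∈ F
    · refine ⟨x % (20 * M), Sums_one (Or.inl (Or.inl (hF hdF))), x / (20 * M), ?_⟩
      rw [pow_zero, mul_one]
      exact (Nat.mod_add_div _ _).symm
    · refine ⟨cc M Q (x % (20 * M)), Sums_one (Or.inl (Or.inr ⟨_, hd, hdF, rfl⟩)),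
        (x - cc M Q (x % (20 * M))) / (20 * M), ?_⟩
      have h1 := cc_lt hQ hd
      have h2 : cc M Q (x % (20 * M)) ≤ x := by omega
      have h3 := cc_mod (Q := Q) hd
      have h4 : 20 * M ∣ x - cc M Q (x % (20 * M)) := (Nat.modEq_iff_dvd' h2).1 h3
      rw [pow_zero, mul_one, Nat.mul_div_cancel' h4]
      omega
  | succ j ih =>
    intro x hx
    have := axis_cov hQ1 ih x (by
      have : (j + 1) * (5 * M) = j * (5 * M) + 5 * M := by ring
      omega)
    rw [LL_succ]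
    exact this

theorem cov_small (hQ1 : 1 ≤ Q) (hM : 1 ≤ M)
    (hκ : ∀ x, M ≤ x → x ≤ 36 * M → x ∈ Sums O 40) (j : ℕ) :
    ∀ x, 21 * M + j * (5 * M) ≤ x → ∃ s ∈ Sums (O ∪ Uset M Q j) (40 + j), ∃ r,
      x = s + 20 * M * Q ^ j * r := by
  induction j with
  | zero =>
    intro x hx
    have hd : (x - M) % (20 * M) < 20 * M := Nat.mod_lt _ (by omega)
    refine ⟨M + (x - M) % (20 * M), ?_, (x - M) / (20 * M), ?_⟩
    · exact Sums_mono Set.subset_union_left _ (hκ _ (by omega) (by omega))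
    · have := Nat.mod_add_div (x - M) (20 * M)
      rw [pow_zero, mul_one]
      omega
  | succ j ih =>
    intro x hx
    have := axis_cov hQ1 ih x (by
      have : (j + 1) * (5 * M) = j * (5 * M) + 5 * M := by ring
      omega)
    rw [Uset_succ, ← Set.union_assoc]
    exact this

theorem Gset_sum {m lo hi N r : ℕ} (hlh : lo ≤ hi) (h1 : N * lo ≤ r) (h2 : r ≤ N * hi) :
    N * (5 * M) + r * m ∈ Sums (Gset M m lo hi) N := by
  induction N generalizing r with
  | zero =>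
    have : r = 0 := by omega
    subst this
    rw [mem_Sums_zero]; simp
  | succ N ih =>
    have e1 : (N + 1) * lo = N * lo + lo := by ring
    have e2 : (N + 1) * hi = N * hi + hi := by ring
    have hN : N * lo ≤ N * hi := Nat.mul_le_mul_left _ hlh
    obtain ⟨b, hb1, hb2, hb3, hb4, hb5⟩ : ∃ b, lo ≤ b ∧ b ≤ hi ∧ b ≤ r ∧ N * lo ≤ r - b ∧
        r - b ≤ N * hi := by
      by_cases hc : r ≤ N * hi + lo
      · exact ⟨lo, le_rfl, hlh, by omega, by omega, by omega⟩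
      · refine ⟨r - N * hi, by omega, by omega, by omega, by omega, by omega⟩
    have := ih hb4 hb5
    refine ⟨5 * M + b * m, ⟨b, hb1, hb2, rfl⟩, _, this, ?_⟩
    have : r = b + (r - b) := by omega
    nth_rw 1 [this]
    ring

end Pool.Agent.H31.Basis
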