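import Pool.Agent.H31.Basis.Cov

namespace Pool.Agent.H31.Basis

variable {O F : Set ℕ} {M Q : ℕ}

/-- The reset elements. -/
def Eset (M m P a₀ : ℕ) : Set ℕ :=
  {x | ∃ j, P ≤ j ∧ j ≤ 3 * P ∧ x = 5 * M + a₀ * m + j * (20 * M + m)}

/-- The union of all pieces of a stage. -/
def Big (A : Set ℕ) (M m : ℕ) (W : ℕ → ℕ) (B b₁ B₂ a₀ P : ℕ) : Set ℕ :=
  (Wset W m ∪ (Gset M m 1 B ∪ A)) ∪ (Gset M m b₁ B₂ ∪ Eset M m P a₀)

/-- Coverage of the critical zone. -/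
theorem cov_W {A : Set ℕ} {m t B j₀ n : ℕ} {W : ℕ → ℕ} (h5 : 5 * M ∈ A)
    (hm : 0 < m) (h5m : 5 * M ≤ m) (hA : ∀ a ∈ A, a ≤ m)
    (hW : ∀ y < m, (j₀ + y) * m ≤ W y ∧ W y ≤ (j₀ + y + 1) * m ∧
      ∃ s ∈ Sums A t, (m : ℤ) ∣ (n : ℤ) - W y - 5 * M - y - s)
    {x : ℕ} (hx1 : (j₀ + m + t + 1) * m ≤ x) (hx2 : x ≤ (j₀ + B) * m) :
    x ∈ Sums (Wset W m ∪ (Gset M m 1 B ∪ A)) (t + 2) := by
  have hmz : (0 : ℤ) < m := by exact_mod_cast hm
  have hy0 : 0 ≤ ((n : ℤ) - x) % m := Int.emod_nonneg _ hmz.ne'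
  have hy1 : ((n : ℤ) - x) % m < m := Int.emod_lt_of_pos _ hmz
  obtain ⟨y, hy⟩ : ∃ y : ℕ, (y : ℤ) = ((n : ℤ) - x) % m :=
    ⟨(((n : ℤ) - x) % m).toNat, Int.toNat_of_nonneg hy0⟩
  have hym : y < m := by omega
  have hyd : (m : ℤ) ∣ (n : ℤ) - x - y := by
    rw [hy]
    have := Int.emod_add_mul_ediv ((n : ℤ) - x) m
    exact ⟨((n : ℤ) - x) / m, by linarith⟩
  obtain ⟨hW1, hW2, s, hs, hsd⟩ := hW y hym
  have hsb := Sums_bound hA hs
  have h1 : (j₀ + y + 1) * m ≤ (j₀ + m) * m := Nat.mul_le_mul_right _ (by omega)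
  have h2 : (j₀ + m + t + 1) * m = (j₀ + m) * m + t * m + m := by ring
  have h3 : (j₀ + y) * m = j₀ * m + y * m := by ring
  have h4 : (j₀ + B) * m = j₀ * m + B * m := by ring
  have hle : W y + s + 5 * M ≤ x := by omega
  obtain ⟨g, hg⟩ : ∃ g, x = W y + s + 5 * M + g := ⟨x - (W y + s + 5 * M), by omega⟩
  have hgd : (m : ℤ) ∣ (g : ℤ) := by
    have := Int.dvd_sub hsd hyd
    rw [show (n : ℤ) - W y - 5 * M - y - s - (n - x - y) = g by
      have : (x : ℤ) = W y + s + 5 * M + g := by rw [hg]; push_cast; ring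
      rw [this]; ring] at this
    exact this
  have hgd' : m ∣ g := by exact_mod_cast hgd
  obtain ⟨b, rfl⟩ := hgd'
  have hbB : b ≤ B := by
    by_contra hc
    push Not at hc
    have : m * (B + 1) ≤ m * b := Nat.mul_le_mul_left _ hc
    have e : m * (B + 1) = B * m + m := by ring
    have hy' : 0 ≤ y * m := Nat.zero_le _
    omega
  have hgm : 5 * M + b * m ∈ Gset M m 1 B ∪ A := by
    rcases Nat.eq_zero_or_pos b with hb | hb
    · subst hb
      right; simpa using h5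
    · left; exact ⟨b, hb, hbB, rfl⟩
  have hA' : A ⊆ Wset W m ∪ (Gset M m 1 B ∪ A) := fun a ha => Or.inr (Or.inr ha)
  have := Sums_add_one (Sums_add_one (Sums_mono hA' _ hs) (Or.inl ⟨y, hym, rfl⟩ :
    W y ∈ Wset W m ∪ (Gset M m 1 B ∪ A))) (Or.inr hgm :
    5 * M + b * m ∈ Wset W m ∪ (Gset M m 1 B ∪ A))
  rw [show x = s + W y + (5 * M + b * m) by rw [hg]; ring]
  exact this

/-- Coverage by few elements at the end of a stage. -/
theorem cov_E {m P a₀ b₁ B₂ Mp : ℕ} (hQ : 1000 * 32 ^ (20 * M) ≤ Q) (hM : 1 ≤ M) (hF : F ⊆ O)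
    (hO : ∀ o ∈ O, o ≤ M)
    (hP : 1 ≤ P) (hm : m = 20 * M * (4 * P)) (hcm : 20 * M * (2 * Q ^ 2) ≤ m)
    (hB₂ : B₂ = 37 * b₁ + 2 * a₀ + 12 * P + 20) (hMp : Mp = 5 * M + B₂ * m)
    {X : Set ℕ} (hX : O ∪ Cset F M Q ⊆ X) (hE : Eset M m P a₀ ⊆ X) (hG : Gset M m b₁ B₂ ⊆ X)
    {x : ℕ} (hx1 : Mp ≤ x) (hx2 : x ≤ 36 * Mp) : x ∈ Sums X 40 := by
  have hmpos : 20 * M ≤ m := by rw [hm]; nlinarith
  have hB20 : 20 * m ≤ B₂ * m := Nat.mul_le_mul_right _ (by omega)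
  -- choose the first element
  obtain ⟨c, hc, hcm', Z, hZ⟩ : ∃ c ∈ O ∪ Cset F M Q, c ≤ m ∧ ∃ Z, x = c + 195 * M + 20 * M * Z := by
    have h := cov_LL (O := O) hQ hM hF 0 (x - 195 * M) (by omega)
    obtain ⟨s, hs, r, hr⟩ := h
    obtain ⟨c, hc, z, hz, hcz⟩ := hs
    rw [mem_Sums_zero] at hz
    subst hz
    rw [add_zero] at hcz
    subst hcz
    have hc' : s ∈ O ∪ Cset F M Q := by
      rcases hc with hc | ⟨l, hl, _⟩
      · exact hc
      · omega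
    refine ⟨s, hc', ?_, r, ?_⟩
    · rcases hc' with hc | ⟨d, hd, _, rfl⟩
      · have := hO s hc
        omega
      · exact le_trans (cc_lt hQ hd).le hcm
    · rw [pow_zero, mul_one] at hr
      omega
  have h20Z : 20 * M * Z = x - c - 195 * M := by omega
  -- choose the residues
  obtain ⟨j, j', w, hj1, hj2, hj1', hj2', hjw⟩ : ∃ j j' w : ℕ, P ≤ j ∧ j ≤ 3 * P ∧ P ≤ j' ∧
      j' ≤ 3 * P ∧ Z = (j + j') + 4 * P * w := by
    have hZbig : 8 * P ≤ Z := by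
      by_contra hc
      push Not at hc
      have : 20 * M * Z ≤ 20 * M * (8 * P) := Nat.mul_le_mul_left _ hc.le
      have e : 20 * M * (8 * P) = 2 * m := by rw [hm]; ring
      omega
    obtain ⟨z, hz, v, hzd⟩ : ∃ z, z < 4 * P ∧ ∃ v, z + 4 * P * v = Z :=
      ⟨Z % (4 * P), Nat.mod_lt _ (by omega), Z / (4 * P), Nat.mod_add_div Z (4 * P)⟩
    by_cases hc : 2 * P ≤ z
    · refine ⟨z / 2, z - z / 2, v, by omega, by omega, by omega, by omega, by omega⟩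
    · have hv1 : 1 ≤ v := by
        by_contra h0
        have : v = 0 := by omega
        rw [this, mul_zero] at hzd
        omega
      refine ⟨(z + 4 * P) / 2, (z + 4 * P) - (z + 4 * P) / 2, v - 1, by omega, by omega, by omega,
        by omega, ?_⟩
      obtain ⟨v', rfl⟩ : ∃ v', v = v' + 1 := ⟨v - 1, by omega⟩
      have : 4 * P * (v' + 1) = 4 * P * v' + 4 * P := by ring
      rw [Nat.add_sub_cancel]
      omega
  -- the remaining multiple of m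
  have hmw : m * w + 20 * M * (j + j') = x - c - 195 * M := by
    rw [← h20Z, hjw, hm]; ring
  have hjj : 20 * M * (j + j') ≤ 2 * m := by
    have h1 : 20 * M * (j + j') ≤ 20 * M * (8 * P) := Nat.mul_le_mul_left _ (by omega)
    have e : 20 * M * (8 * P) = 2 * m := by rw [hm]; ring
    omega
  have hw1 : B₂ ≤ w + 13 := by
    by_contra hc
    push Not at hc
    have h1 : m * (w + 13 + 1) ≤ m * B₂ := Nat.mul_le_mul_left _ hc
    have e : m * (w + 13 + 1) = m * w + 14 * m := by ring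
    have e2 : m * B₂ = B₂ * m := by ring
    omega
  have hw2 : w ≤ 36 * B₂ + 9 := by
    by_contra hc
    push Not at hc
    have h1 : m * (36 * B₂ + 9 + 1) ≤ m * w := Nat.mul_le_mul_left _ hc
    have e : m * (36 * B₂ + 9 + 1) = 36 * (B₂ * m) + 10 * m := by ring
    omega
  obtain ⟨r, hr⟩ : ∃ r, w = r + 2 * a₀ + (j + j') := ⟨w - 2 * a₀ - (j + j'), by omega⟩
  have hG37 := Gset_sum (M := M) (m := m) (lo := b₁) (hi := B₂) (N := 37) (r := r) (by omega)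
    (by omega) (by omega)
  have he : 5 * M + a₀ * m + j * (20 * M + m) ∈ Eset M m P a₀ := ⟨j, hj1, hj2, rfl⟩
  have he' : 5 * M + a₀ * m + j' * (20 * M + m) ∈ Eset M m P a₀ := ⟨j', hj1', hj2', rfl⟩
  have hsum := Sums_add_one (Sums_add_one (Sums_add_one (Sums_mono hG _ hG37) (hE he)) (hE he'))
    (hX hc)
  have hxe : x = 37 * (5 * M) + r * m + (5 * M + a₀ * m + j * (20 * M + m)) +
      (5 * M + a₀ * m + j' * (20 * M + m)) + c := by
    have h1 : x = c + 195 * M + (m * w + 20 * M * (j + j')) := by omega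
    rw [h1, hr]; ring
  rw [hxe]
  exact hsum

end Pool.Agent.H31.Basis
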