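import Pool.Agent.H31.Basis.Cov2

namespace Pool.Agent.H31.Basis

variable {O F : Set ℕ} {M Q : ℕ}

theorem pow_facts {t : ℕ} (hQ : 1000 * 32 ^ (20 * M) ≤ Q) (ht : 3 ≤ t)
    (htQ : 8 * (t + 2) < Q) :
    20 * M * (2 * Q ^ 2) + (t + 1) * (5 * M) + 5 * M ≤ 20 * M * Q ^ 3 ∧
    20 * M * Q ^ 3 ≤ 20 * M * Q ^ t := by
  have hQ1 : 1 ≤ Q := by omega
  constructor
  · have h1 : 2 * Q ^ 2 + (t + 2) ≤ Q ^ 3 := by
      have a : Q ^ 2 * 3 ≤ Q ^ 2 * Q := Nat.mul_le_mul_left _ (by omega)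
      have b : Q * 1 ≤ Q * Q := Nat.mul_le_mul_left _ hQ1
      have c : Q ^ 3 = Q ^ 2 * Q := by ring
      have d : Q ^ 2 = Q * Q := by ring
      omega
    calc 20 * M * (2 * Q ^ 2) + (t + 1) * (5 * M) + 5 * M
        ≤ 20 * M * (2 * Q ^ 2 + (t + 2)) := by nlinarith
      _ ≤ 20 * M * Q ^ 3 := Nat.mul_le_mul_left _ h1
  · exact Nat.mul_le_mul_left _ (Nat.pow_le_pow_right hQ1 ht)

/-- Sharper bound for the small elements. -/
theorem LL_le {t x : ℕ} (hM : 1 ≤ M) (hQ : 1000 * 32 ^ (20 * M) ≤ Q) (hO : ∀ o ∈ O, o ≤ M)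
    (ht : 3 ≤ t) (htQ : 8 * (t + 2) < Q) (hx : x ∈ LL O F M Q t) :
    x ≤ 20 * M * Q ^ t := by
  have hQ1 : 1 ≤ Q := by omega
  obtain ⟨h1, h2⟩ := pow_facts (M := M) hQ ht htQ
  rcases hx with (hx | ⟨d, hd, _, rfl⟩) | ⟨l, hl, b, hb', rfl⟩
  · have := hO x hx
    omega
  · have h3 := (cc_lt hQ hd).le
    omega
  · obtain ⟨b', rfl⟩ : ∃ b', Q = b' + 1 := ⟨Q - 1, by omega⟩
    have h3 : 5 * M ≤ 20 * M * (b' + 1) ^ l := by
      have : 1 ≤ (b' + 1) ^ l := Nat.one_le_pow _ _ (by omega)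
      nlinarith
    calc 5 * M + b * (20 * M * (b' + 1) ^ l) ≤ 20 * M * (b' + 1) ^ l + b' * (20 * M * (b' + 1) ^ l)
        := by
          have : b * (20 * M * (b' + 1) ^ l) ≤ b' * (20 * M * (b' + 1) ^ l) :=
            Nat.mul_le_mul_right _ (by omega)
          omega
      _ = 20 * M * (b' + 1) ^ (l + 1) := by ring
      _ ≤ 20 * M * (b' + 1) ^ t := Nat.mul_le_mul_left _ (Nat.pow_le_pow_right (by omega) (by omega))

theorem cov_all {t m P n B j₀ b₁ a₀ B₂ Mp : ℕ} {W : ℕ → ℕ}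
    (hM : 1 ≤ M) (hQ : 1000 * 32 ^ (20 * M) ≤ Q) (hO : ∀ o ∈ O, o ≤ M) (h0O : 0 ∈ O)
    (hF : F ⊆ O) (ht : 41 ≤ t) (htQ : 8 * (t + 2) < Q)
    (hk : ∀ x, x ≤ 36 * M → x ∈ Sums O (t + 2))
    (hκ : ∀ x, M ≤ x → x ≤ 36 * M → x ∈ Sums O 40)
    (hmdef : m = 20 * M * Q ^ t) (hP : Q ^ t = 4 * P)
    (hB : B = 2 * m + 3 * t + 5) (hj₀ : j₀ = m + 2 * t + 5) (hb₁ : b₁ = B + t + 5)
    (hB₂ : B₂ = 37 * b₁ + 2 * a₀ + 12 * P + 20) (hMp : Mp = 5 * M + B₂ * m)
    (hW : ∀ y < m, (j₀ + y) * m ≤ W y ∧ W y ≤ (j₀ + y + 1) * m ∧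
      ∃ s ∈ Sums (LL O F M Q t) t, (m : ℤ) ∣ (n : ℤ) - W y - 5 * M - y - s)
    {x : ℕ} (hx : x ≤ 36 * Mp) :
    x ∈ Sums (Big (LL O F M Q t) M m W B b₁ B₂ a₀ P) (t + 2) := by
  have hQ1 : 1 ≤ Q := by omega
  obtain ⟨hp1, hp2⟩ := pow_facts (M := M) hQ (by omega : 3 ≤ t) htQ
  have hPpos : 1 ≤ P := by
    have : 1 ≤ Q ^ t := Nat.one_le_pow _ _ hQ1
    omega
  have hmP : m = 20 * M * (4 * P) := by rw [hmdef, hP]
  have hLB : LL O F M Q t ⊆ Big (LL O F M Q t) M m W B b₁ B₂ a₀ P :=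
    fun a ha => Or.inl (Or.inr (Or.inr ha))
  have hOB : O ⊆ Big (LL O F M Q t) M m W B b₁ B₂ a₀ P :=
    fun a ha => hLB (Or.inl (Or.inl ha))
  have h0B : 0 ∈ Big (LL O F M Q t) M m W B b₁ B₂ a₀ P := hOB h0O
  rcases Nat.lt_or_ge (36 * M) x with h36 | h36
  swap
  · exact Sums_mono hOB _ (hk x h36)
  rcases Nat.lt_or_ge x (20 * M * Q ^ 3) with h3 | h3
  · obtain ⟨s, hs, r, hr⟩ := cov_small hQ1 hM hκ 3 x (by omega)
    have hr0 : r = 0 := by
      by_contra hc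
      have : 20 * M * Q ^ 3 * 1 ≤ 20 * M * Q ^ 3 * r := Nat.mul_le_mul_left _ (by omega)
      omega
    rw [hr0, mul_zero, add_zero] at hr
    rw [hr]
    have hsub : O ∪ Uset M Q 3 ⊆ Big (LL O F M Q t) M m W B b₁ B₂ a₀ P := by
      rintro a (ha | ⟨l, hl, ha⟩)
      · exact hOB ha
      · exact hLB (Or.inr ⟨l, by omega, ha⟩)
    exact Sums_le h0B (by omega) (Sums_mono hsub _ hs)
  · obtain ⟨s, hs, r, hr⟩ := cov_LL hQ hM hF t (x - 5 * M) (by
      have : (t + 1) * (5 * M) = t * (5 * M) + 5 * M := by ring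
      omega)
    rw [← hmdef] at hr
    have hx' : x = s + (5 * M + r * m) := by
      have : x = 5 * M + (s + m * r) := by omega
      rw [this]; ring
    have hsb : s ≤ (t + 1) * m := by
      rw [hmdef]
      exact Sums_bound (fun a ha => LL_le hM hQ hO (by omega) htQ ha) hs
    have hs' := Sums_mono hLB _ hs
    rcases Nat.eq_zero_or_pos r with hr0 | hr0
    · subst hr0
      rw [hx']
      exact Sums_add_one hs' (hLB (Or.inr ⟨0, by omega, 0, by omega, by simp⟩))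
    rcases Nat.lt_or_ge B r with hBr | hBr
    swap
    · rw [hx']
      exact Sums_add_one hs' (Or.inl (Or.inr (Or.inl ⟨r, hr0, hBr, rfl⟩)))
    rcases Nat.lt_or_ge r b₁ with hbr | hbr
    · -- critical zone
      have hxW : x ∈ Sums (Wset W m ∪ (Gset M m 1 B ∪ LL O F M Q t)) (t + 2) := by
        have hmpos : 0 < m := by rw [hmP]; positivity
        refine cov_W (j₀ := j₀) (n := n) (Or.inr ⟨0, by omega, 0, by omega, by simp⟩) hmpos
          (by omega) (fun a ha => ?_) hW ?_ ?_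
        · rw [hmdef]
          exact LL_le hM hQ hO (by omega) htQ ha
        · have h1 : (B + 1) * m ≤ r * m := Nat.mul_le_mul_right _ hBr
          have h2 : (j₀ + m + t + 1) * m = (B + 1) * m := by
            rw [hj₀, hB]; ring
          omega
        · have h1 : r * m + m ≤ b₁ * m := by
            have : (r + 1) * m ≤ b₁ * m := Nat.mul_le_mul_right _ hbr
            have e : (r + 1) * m = r * m + m := by ring
            omega
          have h2 : (t + 1) * m + b₁ * m ≤ (j₀ + B) * m := by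
            rw [← add_mul]
            apply Nat.mul_le_mul_right
            omega
          omega
      exact Sums_mono Set.subset_union_left _ hxW
    · rcases Nat.lt_or_ge B₂ r with hB2r | hB2r
      swap
      · rw [hx']
        exact Sums_add_one hs' (Or.inr (Or.inl ⟨r, hbr, hB2r, rfl⟩))
      · have hx1 : Mp ≤ x := by
          have h1 : (B₂ + 1) * m ≤ r * m := Nat.mul_le_mul_right _ hB2r
          have e : (B₂ + 1) * m = B₂ * m + m := by ring
          omega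
        refine Sums_le h0B (by omega : 40 ≤ t + 2) ?_
        exact cov_E hQ hM hF hO hPpos hmP (by omega) hB₂ hMp
          (fun a ha => hLB (Or.inl ha)) (fun a ha => Or.inr (Or.inr ha))
          (fun a ha => Or.inr (Or.inl ha)) hx1 hx

end Pool.Agent.H31.Basis
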