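import Mathlib

namespace Pool.Agent.H31.Basis

/-- `Sums A j` is the set of all sums of exactly `j` elements of `A`, repetitions allowed. -/
def Sums (A : Set ℕ) : ℕ → Set ℕ
  | 0 => {0}
  | j + 1 => {n | ∃ a ∈ A, ∃ x ∈ Sums A j, n = a + x}

theorem mem_Sums_zero {A : Set ℕ} {n : ℕ} : n ∈ Sums A 0 ↔ n = 0 := Iff.rfl

theorem mem_Sums_succ {A : Set ℕ} {j n : ℕ} :
    n ∈ Sums A (j + 1) ↔ ∃ a ∈ A, ∃ x ∈ Sums A j, n = a + x := Iff.rfl

theorem Sums_mono {A A' : Set ℕ} (h : A ⊆ A') (j : ℕ) : Sums A j ⊆ Sums A' j := by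
  induction j with
  | zero => intro n hn; exact hn
  | succ j ih =>
    rintro n ⟨a, ha, x, hx, rfl⟩
    exact ⟨a, h ha, x, ih hx, rfl⟩

theorem Sums_add {A : Set ℕ} {i j x y : ℕ} (hx : x ∈ Sums A i) (hy : y ∈ Sums A j) :
    x + y ∈ Sums A (i + j) := by
  induction i generalizing x with
  | zero =>
    rw [mem_Sums_zero] at hx
    subst hx
    simpa using hy
  | succ i ih =>
    obtain ⟨a, ha, z, hz, rfl⟩ := hx
    have := ih hz
    rw [show i + 1 + j = (i + j) + 1 by ring]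
    exact ⟨a, ha, z + y, this, by ring⟩

theorem Sums_one {A : Set ℕ} {x : ℕ} (hx : x ∈ A) : x ∈ Sums A 1 :=
  ⟨x, hx, 0, rfl, rfl⟩

theorem Sums_add_one {A : Set ℕ} {j x y : ℕ} (hx : x ∈ Sums A j) (hy : y ∈ A) :
    x + y ∈ Sums A (j + 1) := Sums_add hx (Sums_one hy)

theorem Sums_le_succ {A : Set ℕ} (h0 : 0 ∈ A) (j : ℕ) : Sums A j ⊆ Sums A (j + 1) := by
  intro x hx
  exact ⟨0, h0, x, hx, by simp⟩

theorem Sums_le {A : Set ℕ} (h0 : 0 ∈ A) {i j : ℕ} (hij : i ≤ j) : Sums A i ⊆ Sums A j := by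
  induction hij with
  | refl => exact subset_rfl
  | step _ ih => exact ih.trans (Sums_le_succ h0 _)

theorem Sums_bound {A : Set ℕ} {K : ℕ} (hA : ∀ a ∈ A, a ≤ K) {j x : ℕ} (hx : x ∈ Sums A j) :
    x ≤ j * K := by
  induction j generalizing x with
  | zero => rw [mem_Sums_zero] at hx; simp [hx]
  | succ j ih =>
    obtain ⟨a, ha, z, hz, rfl⟩ := hx
    have := ih hz
    have := hA a ha
    nlinarith

theorem mem_Sums_two {A : Set ℕ} {n : ℕ} :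
    n ∈ Sums A 2 ↔ ∃ a ∈ A, ∃ b ∈ A, n = a + b := by
  constructor
  · rintro ⟨a, ha, _, ⟨b, hb, z, hz, rfl⟩, rfl⟩
    rw [mem_Sums_zero] at hz
    subst hz
    exact ⟨a, ha, b, hb, rfl⟩
  · rintro ⟨a, ha, b, hb, rfl⟩
    exact ⟨a, ha, b, Sums_one hb, rfl⟩

theorem mem_Sums_three {A : Set ℕ} {n : ℕ} :
    n ∈ Sums A 3 ↔ ∃ a ∈ A, ∃ b ∈ A, ∃ c ∈ A, n = a + b + c := by
  constructor
  · rintro ⟨a, ha, x, hx, rfl⟩
    obtain ⟨b, hb, c, hc, rfl⟩ := mem_Sums_two.1 hx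
    exact ⟨a, ha, b, hb, c, hc, by ring⟩
  · rintro ⟨a, ha, b, hb, c, hc, rfl⟩
    exact ⟨a, ha, b + c, mem_Sums_two.2 ⟨b, hb, c, hc, rfl⟩, by ring⟩

/-- A sum of `j` elements of `X ∪ Y` splits. -/
theorem Sums_union {X Y : Set ℕ} {j n : ℕ} (hn : n ∈ Sums (X ∪ Y) j) :
    ∃ i ≤ j, ∃ x ∈ Sums X i, ∃ y ∈ Sums Y (j - i), n = x + y := by
  induction j generalizing n with
  | zero =>
    rw [mem_Sums_zero] at hn
    exact ⟨0, le_rfl, 0, rfl, 0, rfl, by simpa using hn⟩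
  | succ j ih =>
    obtain ⟨a, ha, z, hz, rfl⟩ := hn
    obtain ⟨i, hi, x, hx, y, hy, rfl⟩ := ih hz
    rcases ha with ha | ha
    · refine ⟨i + 1, by omega, a + x, ⟨a, ha, x, hx, rfl⟩, y, ?_, by ring⟩
      rwa [show j + 1 - (i + 1) = j - i by omega]
    · refine ⟨i, by omega, x, hx, a + y, ?_, by ring⟩
      rw [show j + 1 - i = (j - i) + 1 by omega]
      exact ⟨a, ha, y, hy, rfl⟩

theorem mem_Sums_iff_fin {A : Set ℕ} {j n : ℕ} :
    n ∈ Sums A j ↔ ∃ f : Fin j → ℕ, (∀ i, f i ∈ A) ∧ ∑ i, f i = n := by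
  induction j generalizing n with
  | zero =>
    rw [mem_Sums_zero]
    constructor
    · rintro rfl
      exact ⟨fun _ => 0, fun i => i.elim0, by simp⟩
    · rintro ⟨f, _, hf⟩
      simpa using hf.symm
  | succ j ih =>
    constructor
    · rintro ⟨a, ha, x, hx, rfl⟩
      obtain ⟨f, hf, hs⟩ := ih.1 hx
      refine ⟨Fin.cons a f, ?_, ?_⟩
      · intro i
        refine Fin.cases ?_ ?_ i
        · simpa using ha
        · intro i; simpa using hf i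
      · rw [Fin.sum_univ_succ]
        simp [hs]
    · rintro ⟨f, hf, hs⟩
      refine ⟨f 0, hf 0, ∑ i : Fin j, f i.succ, ih.2 ⟨fun i => f i.succ, fun i => hf _, rfl⟩, ?_⟩
      rw [← hs, Fin.sum_univ_succ]

end Pool.Agent.H31.Basis
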