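import Pool.Agent.H31.Basis.Cov3

namespace Pool.Agent.H31.Basis

variable {M Q : ℕ}

theorem pw_facts {d : ℕ} (hQ : 1000 * 32 ^ (20 * M) ≤ Q) (hd : d < 20 * M) :
    32 ≤ 32 ^ (d + 1) ∧ 1000 * 32 ^ (d + 1) ≤ Q ∧ 32 ∣ 32 ^ (d + 1) := by
  refine ⟨?_, ?_, ?_⟩
  · calc 32 = 32 ^ 1 := by norm_num
      _ ≤ 32 ^ (d + 1) := Nat.pow_le_pow_right (by norm_num) (by omega)
  · exact le_trans (Nat.mul_le_mul_left _ (Nat.pow_le_pow_right (by norm_num) hd)) hQ
  · exact dvd_pow_self _ (by omega)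

theorem mod_eq_of {a b u v : ℕ} (ha : a < Q) (hb : b < Q) (h : a + Q * u = b + Q * v) :
    a = b := by
  have h3 : (a + Q * u) % Q = (b + Q * v) % Q := by rw [h]
  rwa [Nat.add_mul_mod_self_left, Nat.add_mul_mod_self_left, Nat.mod_eq_of_lt ha,
    Nat.mod_eq_of_lt hb] at h3

/-- A number with three nonzero digits is not a sum of two one-digit numbers. -/
theorem E1 {β b b' i i' : ℕ} (h1 : 1 ≤ β) (h2 : 1000 * β ≤ Q) (hb : b < Q) (hb' : b' < Q)
    (h : Q ^ 2 + (1 + Q) * β = b * Q ^ i + b' * Q ^ i') : False := by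
  have hQ : 1000 ≤ Q := by omega
  have hQ0 : 0 < Q := by omega
  have hQ2 : Q * 1000 ≤ Q ^ 2 := by rw [sq]; exact Nat.mul_le_mul_left _ hQ
  -- one exponent zero, the other positive
  have main : ∀ b b' i' : ℕ, b < Q → b' < Q →
      Q ^ 2 + (1 + Q) * β = b + b' * Q ^ (i' + 1) → False := by
    intro b b' i' hb hb' h
    have hbβ : b = β := mod_eq_of (u := b' * Q ^ i') (v := Q + β) hb (by omega)
      (by linear_combination -h)
    subst hbβ
    have h3 : Q * (Q + b) = Q * (b' * Q ^ i') := by linear_combination h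
    have h4 : Q + b = b' * Q ^ i' := Nat.eq_of_mul_eq_mul_left hQ0 h3
    rcases Nat.eq_zero_or_pos i' with h0 | h0
    · subst h0
      rw [pow_zero, mul_one] at h4
      omega
    · obtain ⟨k, rfl⟩ : ∃ k, i' = k + 1 := ⟨i' - 1, by omega⟩
      have : b = 0 := mod_eq_of (u := 1) (v := b' * Q ^ k) (by omega) hQ0
        (by linear_combination h4)
      omega
  rcases Nat.eq_zero_or_pos i with h0 | h0
  · subst h0
    rcases Nat.eq_zero_or_pos i' with h0' | h0'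
    · subst h0'
      rw [pow_zero, mul_one, mul_one] at h
      have : 0 ≤ (1 + Q) * β := Nat.zero_le _
      omega
    · obtain ⟨k, rfl⟩ : ∃ k, i' = k + 1 := ⟨i' - 1, by omega⟩
      exact main b b' k hb hb' (by rw [h, pow_zero, mul_one])
  · obtain ⟨k, rfl⟩ : ∃ k, i = k + 1 := ⟨i - 1, by omega⟩
    rcases Nat.eq_zero_or_pos i' with h0' | h0'
    · subst h0'
      exact main b' b k hb' hb (by rw [h, pow_zero, mul_one, add_comm])
    · obtain ⟨k', rfl⟩ : ∃ k, i' = k + 1 := ⟨i' - 1, by omega⟩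
      have : β = 0 := mod_eq_of (u := Q + β) (v := b * Q ^ k + b' * Q ^ k') (by omega) hQ0
        (by linear_combination h)
      omega

/-- Divisibility extraction: a small integer multiple of `20 * M`. -/
theorem small_mult {z w : ℤ} (hz : z = 20 * M * w) (h1 : -(20 * M) < z) (h2 : z < 20 * M) :
    z = 0 ∧ (0 < M → w = 0) := by
  have h0 : z = 0 := dvd_zero_of ⟨w, hz⟩ h1 h2
  refine ⟨h0, fun hM => ?_⟩
  rw [h0] at hz
  have hM' : (0 : ℤ) < 20 * M := by positivity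
  rcases mul_eq_zero.1 hz.symm with h | h
  · omega
  · exact h

theorem cc_eq (M Q d : ℕ) : ((cc M Q d : ℕ) : ℤ) = d + 20 * M * (Q ^ 2 + (1 + Q) * 32 ^ (d + 1)) := by
  unfold cc; push_cast; ring

/-- (D1) -/
theorem D1 {o d i i' b b' : ℕ} (hM : 1 ≤ M) (hQ : 1000 * 32 ^ (20 * M) ≤ Q) (ho : o ≤ M)
    (hd : d < 20 * M) (hb : b < Q) (hb' : b' < Q)
    (h : o + cc M Q d = (5 * M + b * (20 * M * Q ^ i)) + (5 * M + b' * (20 * M * Q ^ i'))) :
    False := by
  obtain ⟨f1, f2, f3⟩ := pw_facts hQ hd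
  have hz : (o + cc M Q d : ℤ) = (5 * M + b * (20 * M * Q ^ i)) + (5 * M + b' * (20 * M * Q ^ i'))
    := by exact_mod_cast h
  rw [cc_eq] at hz
  have h2 := small_mult (M := M) (z := (o : ℤ) + d - 10 * M)
    (w := b * Q ^ i + b' * Q ^ i' - (Q ^ 2 + (1 + Q) * 32 ^ (d + 1)))
    (by linear_combination hz) (by omega) (by omega)
  have h3 := h2.2 (by omega)
  have h4 : (Q ^ 2 + (1 + Q) * 32 ^ (d + 1) : ℤ) = b * Q ^ i + b' * Q ^ i' := by linarith
  exact E1 (by omega : 1 ≤ 32 ^ (d + 1)) f2 hb hb' (by exact_mod_cast h4)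

/-- (D2) -/
theorem D2 {o z d i b : ℕ} (hM : 1 ≤ M) (hQ : 1000 * 32 ^ (20 * M) ≤ Q) (ho : o ≤ M) (hz : z ≤ M)
    (hd : d < 20 * M) (hb : b < Q)
    (h : o + cc M Q d = z + (5 * M + b * (20 * M * Q ^ i))) : False := by
  obtain ⟨f1, f2, f3⟩ := pw_facts hQ hd
  have hz' : (o + cc M Q d : ℤ) = z + (5 * M + b * (20 * M * Q ^ i)) := by exact_mod_cast h
  rw [cc_eq] at hz'
  have h2 := small_mult (M := M) (z := (o : ℤ) + d - z - 5 * M)
    (w := b * Q ^ i - (Q ^ 2 + (1 + Q) * 32 ^ (d + 1)))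
    (by linear_combination hz') (by omega) (by omega)
  have h3 := h2.2 (by omega)
  have h4 : (Q ^ 2 + (1 + Q) * 32 ^ (d + 1) : ℤ) = b * Q ^ i + 0 * Q ^ 0 := by linarith
  exact E1 (by omega : 1 ≤ 32 ^ (d + 1)) f2 hb (by omega : 0 < Q) (by exact_mod_cast h4)

/-- (D3) -/
theorem D3 {o d d' i b : ℕ} (hM : 1 ≤ M) (hQ : 1000 * 32 ^ (20 * M) ≤ Q) (ho : o ≤ M)
    (hd : d < 20 * M) (hd' : d' < 20 * M) (hb : b < Q)
    (h : o + cc M Q d = cc M Q d' + (5 * M + b * (20 * M * Q ^ i))) : False := by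
  obtain ⟨f1, f2, g, hg⟩ := pw_facts hQ hd
  obtain ⟨f1', f2', g', hg'⟩ := pw_facts hQ hd'
  have hz' : (o + cc M Q d : ℤ) = cc M Q d' + (5 * M + b * (20 * M * Q ^ i)) := by exact_mod_cast h
  rw [cc_eq, cc_eq] at hz'
  have hMz : (1 : ℤ) ≤ M := by exact_mod_cast hM
  have hQz : (1 : ℤ) ≤ Q := by omega
  -- the carry
  obtain ⟨w, hw⟩ : ∃ w : ℤ, w = b * Q ^ i + (Q ^ 2 + (1 + Q) * 32 ^ (d' + 1)) -
    (Q ^ 2 + (1 + Q) * 32 ^ (d + 1)) := ⟨_, rfl⟩
  have hzw : (o : ℤ) + d - d' - 5 * M = 20 * M * w := by rw [hw]; linear_combination hz'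
  have hw1 : -2 < w := by
    by_contra hc
    push Not at hc
    have : 20 * (M : ℤ) * w ≤ 20 * M * (-2) := by
      apply mul_le_mul_of_nonneg_left hc (by positivity)
    omega
  have hw2 : w < 1 := by
    by_contra hc
    push Not at hc
    have : 20 * (M : ℤ) * 1 ≤ 20 * M * w := by
      apply mul_le_mul_of_nonneg_left hc (by positivity)
    omega
  have hgz : ((32 : ℤ)) ^ (d + 1) = 32 * g := by exact_mod_cast hg
  have hgz' : ((32 : ℤ)) ^ (d' + 1) = 32 * g' := by exact_mod_cast hg'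
  rw [hgz, hgz'] at hw
  have hbQ : (0 : ℤ) ≤ b * Q ^ i := by positivity
  have hgQ : 32000 * g ≤ Q := by omega
  have hgQ' : 32000 * g' ≤ Q := by omega
  have hgQz : 32000 * (g : ℤ) ≤ Q := by exact_mod_cast hgQ
  rcases lt_trichotomy g g' with hlt | heq | hgt
  · have : (g : ℤ) + 1 ≤ g' := by exact_mod_cast hlt
    nlinarith
  · have hw0 : w = b * Q ^ i := by rw [hw, heq]; ring
    have hw00 : w = 0 := by omega
    -- then `d = d'`
    have hdd : d = d' := by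
      have : 32 ^ (d + 1) = 32 ^ (d' + 1) := by rw [hg, hg', heq]
      have := Nat.pow_right_injective (le_refl 2 |>.trans (by norm_num : 2 ≤ 32)) this
      omega
    rw [hw00, hdd] at hzw
    omega
  · -- `g > g'`
    obtain ⟨k, rfl⟩ : ∃ k, g = g' + k := ⟨g - g', by omega⟩
    have hk : 1 ≤ k := by omega
    have hkz : (1 : ℤ) ≤ k := by exact_mod_cast hk
    have hkQ : 32000 * (k : ℤ) ≤ Q := by push_cast at hgQz; linarith
    have hmain : (b : ℤ) * Q ^ i = w + (1 + Q) * (32 * k) := by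
      rw [hw]; push_cast; ring
    rcases Nat.eq_zero_or_pos i with h0 | h0
    · subst h0
      rw [pow_zero, mul_one] at hmain
      have hbz : (b : ℤ) < Q := by exact_mod_cast hb
      nlinarith
    · obtain ⟨j, rfl⟩ : ∃ j, i = j + 1 := ⟨i - 1, by omega⟩
      have hdvd : (Q : ℤ) ∣ w + 32 * k := ⟨b * Q ^ j - 32 * k, by
        rw [mul_sub]
        linear_combination -hmain⟩
      have := Int.le_of_dvd (by linarith) hdvd
      linarith

/-- (D6) -/
theorem D6 {o z d d' : ℕ} (hM : 1 ≤ M) (hQ : 1000 * 32 ^ (20 * M) ≤ Q) (ho : o ≤ M) (hz : z ≤ M)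
    (hd : d < 20 * M) (hd' : d' < 20 * M)
    (h : o + cc M Q d = z + cc M Q d') : d = d' := by
  obtain ⟨f1, f2, g, hg⟩ := pw_facts hQ hd
  obtain ⟨f1', f2', g', hg'⟩ := pw_facts hQ hd'
  have hz' : (o + cc M Q d : ℤ) = z + cc M Q d' := by exact_mod_cast h
  rw [cc_eq, cc_eq] at hz'
  have hMz : (1 : ℤ) ≤ M := by exact_mod_cast hM
  have hQz : (1000 : ℤ) ≤ Q := by omega
  obtain ⟨w, hw⟩ : ∃ w : ℤ, w = (1 + Q) * 32 ^ (d' + 1) - (1 + Q) * 32 ^ (d + 1) := ⟨_, rfl⟩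
  have hzw : (o : ℤ) + d - z - d' = 20 * M * w := by rw [hw]; linear_combination hz'
  have hw1 : -2 < w := by
    by_contra hc
    push Not at hc
    have : 20 * (M : ℤ) * w ≤ 20 * M * (-2) := by
      apply mul_le_mul_of_nonneg_left hc (by positivity)
    omega
  have hw2 : w < 2 := by
    by_contra hc
    push Not at hc
    have : 20 * (M : ℤ) * 2 ≤ 20 * M * w := by
      apply mul_le_mul_of_nonneg_left hc (by positivity)
    omega
  have hgz : ((32 : ℤ)) ^ (d + 1) = 32 * g := by exact_mod_cast hg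
  have hgz' : ((32 : ℤ)) ^ (d' + 1) = 32 * g' := by exact_mod_cast hg'
  rw [hgz, hgz'] at hw
  rcases lt_trichotomy g g' with hlt | heq | hgt
  · have : (g : ℤ) + 1 ≤ g' := by exact_mod_cast hlt
    nlinarith
  · have : 32 ^ (d + 1) = 32 ^ (d' + 1) := by rw [hg, hg', heq]
    have := Nat.pow_right_injective (le_refl 2 |>.trans (by norm_num : 2 ≤ 32)) this
    omega
  · have : (g' : ℤ) + 1 ≤ g := by exact_mod_cast hgt
    nlinarith

/-- (D4) -/
theorem D4 {o d d' i b : ℕ} (hM : 1 ≤ M) (hQ : 1000 * 32 ^ (20 * M) ≤ Q) (ho : o ≤ M)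
    (hd : d < 20 * M) (hd' : d' < 20 * M) (hb : b < Q)
    (h : o + (5 * M + b * (20 * M * Q ^ i)) = cc M Q d + cc M Q d') : False := by
  obtain ⟨f1, f2, _⟩ := pw_facts hQ hd
  obtain ⟨f1', f2', _⟩ := pw_facts hQ hd'
  have hz' : (o + (5 * M + b * (20 * M * Q ^ i)) : ℤ) = cc M Q d + cc M Q d' := by
    exact_mod_cast h
  rw [cc_eq, cc_eq] at hz'
  have hMz : (1 : ℤ) ≤ M := by exact_mod_cast hM
  have hQz : (1000 : ℤ) ≤ Q := by omega
  obtain ⟨w, hw⟩ : ∃ w : ℤ, w = (Q ^ 2 + (1 + Q) * 32 ^ (d + 1)) +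
    (Q ^ 2 + (1 + Q) * 32 ^ (d' + 1)) - b * Q ^ i := ⟨_, rfl⟩
  have hzw : 5 * M + (o : ℤ) - d - d' = 20 * M * w := by rw [hw]; linear_combination hz'
  have hw1 : -2 < w := by
    by_contra hc
    push Not at hc
    have : 20 * (M : ℤ) * w ≤ 20 * M * (-2) := by
      apply mul_le_mul_of_nonneg_left hc (by positivity)
    omega
  have hw2 : w < 1 := by
    by_contra hc
    push Not at hc
    have : 20 * (M : ℤ) * 1 ≤ 20 * M * w := by
      apply mul_le_mul_of_nonneg_left hc (by positivity)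
    omega
  have f1z : (32 : ℤ) ≤ 32 ^ (d + 1) := by exact_mod_cast f1
  have f1z' : (32 : ℤ) ≤ 32 ^ (d' + 1) := by exact_mod_cast f1'
  have f2z : (1000 : ℤ) * 32 ^ (d + 1) ≤ Q := by exact_mod_cast f2
  have f2z' : (1000 : ℤ) * 32 ^ (d' + 1) ≤ Q := by exact_mod_cast f2'
  set p : ℤ := 32 ^ (d + 1)
  set p' : ℤ := 32 ^ (d' + 1)
  have hmain : (b : ℤ) * Q ^ i = 2 * Q ^ 2 + (1 + Q) * (p + p') - w := by rw [hw]; ring
  rcases Nat.eq_zero_or_pos i with h0 | h0
  · subst h0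
    rw [pow_zero, mul_one] at hmain
    have hbz : (b : ℤ) < Q := by exact_mod_cast hb
    nlinarith
  · obtain ⟨j, rfl⟩ : ∃ j, i = j + 1 := ⟨i - 1, by omega⟩
    have hdvd : (Q : ℤ) ∣ p + p' - w := ⟨b * Q ^ j - 2 * Q - (p + p'), by
      linear_combination -hmain⟩
    have := Int.le_of_dvd (by linarith) hdvd
    linarith

/-- (D5) -/
theorem D5 {o d i i' b b' : ℕ} (hM : 1 ≤ M) (hQ : 1000 * 32 ^ (20 * M) ≤ Q) (ho : o ≤ M)
    (hd : d < 20 * M) (hb : b < Q) (hb' : b' < Q)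
    (h : o + (5 * M + b * (20 * M * Q ^ i)) = cc M Q d + (5 * M + b' * (20 * M * Q ^ i'))) :
    False := by
  obtain ⟨f1, f2, _⟩ := pw_facts hQ hd
  have hz' : (o + (5 * M + b * (20 * M * Q ^ i)) : ℤ) =
      cc M Q d + (5 * M + b' * (20 * M * Q ^ i')) := by exact_mod_cast h
  rw [cc_eq] at hz'
  have h2 := small_mult (M := M) (z := (o : ℤ) - d)
    (w := (Q ^ 2 + (1 + Q) * 32 ^ (d + 1)) + b' * Q ^ i' - b * Q ^ i)
    (by linear_combination hz') (by omega) (by omega)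
  have h3 := h2.2 (by omega)
  have h4 : Q ^ 2 + (1 + Q) * 32 ^ (d + 1) + b' * Q ^ i' = b * Q ^ i := by
    have : (Q ^ 2 + (1 + Q) * 32 ^ (d + 1) + b' * Q ^ i' : ℤ) = b * Q ^ i := by linarith
    exact_mod_cast this
  set p : ℕ := 32 ^ (d + 1) with hp
  have hQ0 : 0 < Q := by omega
  have hQ2 : Q * 1000 ≤ Q ^ 2 := by rw [sq]; exact Nat.mul_le_mul_left _ (by omega)
  rcases Nat.eq_zero_or_pos i with h0 | h0
  · subst h0
    rw [pow_zero, mul_one] at h4
    have : 0 ≤ (1 + Q) * p := Nat.zero_le _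
    have : 0 ≤ b' * Q ^ i' := Nat.zero_le _
    omega
  · obtain ⟨j, rfl⟩ : ∃ j, i = j + 1 := ⟨i - 1, by omega⟩
    rcases Nat.eq_zero_or_pos i' with h0' | h0'
    · subst h0'
      rw [pow_zero, mul_one] at h4
      -- `Q ∣ p + b'`
      have hdvd : Q ∣ p + b' := by
        have : Q ∣ (p + b') + Q * (Q + p) := ⟨b * Q ^ j, by linear_combination h4⟩
        exact (Nat.dvd_add_left (Dvd.intro _ rfl)).1 this
      obtain ⟨w, hw⟩ := hdvd
      have hw1 : w = 1 := by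
        rcases Nat.lt_or_ge w 1 with h | h
        · have : w = 0 := by omega
          rw [this, mul_zero] at hw
          omega
        · rcases Nat.lt_or_ge w 2 with h' | h'
          · omega
          · have : Q * 2 ≤ Q * w := Nat.mul_le_mul_left _ h'
            omega
      rw [hw1, mul_one] at hw
      have h5 : Q * (Q + p + 1) = Q * (b * Q ^ j) := by
        have e : Q ^ 2 + (1 + Q) * p + b' = Q ^ 2 + Q * p + (p + b') := by ring
        rw [e, hw] at h4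
        linear_combination h4
      have h6 : Q + p + 1 = b * Q ^ j := Nat.eq_of_mul_eq_mul_left hQ0 h5
      rcases Nat.eq_zero_or_pos j with hj | hj
      · subst hj
        rw [pow_zero, mul_one] at h6
        omega
      · obtain ⟨k, rfl⟩ : ∃ k, j = k + 1 := ⟨j - 1, by omega⟩
        have : p + 1 = 0 := mod_eq_of (u := 1) (v := b * Q ^ k) (by omega) hQ0
          (by linear_combination h6)
        omega
    · obtain ⟨j', rfl⟩ : ∃ j, i' = j + 1 := ⟨i' - 1, by omega⟩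
      have : p = 0 := mod_eq_of (u := Q + p + b' * Q ^ j') (v := b * Q ^ j) (by omega) hQ0
        (by linear_combination h4)
      omega

end Pool.Agent.H31.Basis
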