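import Pool.Agent.H31.Basis.Stage

namespace Pool.Agent.H31.Basis

/-- A set `F` that can be treated at the stage starting with `O`. -/
def Valid (O F : Set ℕ) : Prop :=
  F ⊆ O ∧ 0 ∉ F ∧ ∀ b ∈ O, ∃ f ∈ F, b + f ∉ Sums (O \ F) 2

/-- The states of the construction. -/
def St (t : ℕ) : Type := {p : Set ℕ × ℕ // Good t p.1 p.2 ∧ 1 ∈ p.1}

/-- The pair treated at stage `i`. -/
def pr (i : ℕ) : Set ℕ := {(Nat.unpair (Nat.unpair i).1).1, (Nat.unpair (Nat.unpair i).1).2}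

open Classical in
/-- The set treated at stage `i`. -/
noncomputable def Fi (i : ℕ) (O : Set ℕ) : Set ℕ := if Valid O (pr i) then pr i else O \ {0}

theorem Fi_valid (i : ℕ) (O : Set ℕ) (h1 : 1 ∈ O) : Valid O (Fi i O) := by
  unfold Fi
  split_ifs with h
  · exact h
  · refine ⟨Set.sdiff_subset, by simp, fun b _ => ⟨1, ⟨h1, by simp⟩, ?_⟩⟩
    intro hs
    obtain ⟨x, ⟨hx, hx'⟩, y, ⟨hy, hy'⟩, hxy⟩ := mem_Sums_two.1 hs
    have hx0 : x = 0 := by
      by_contra hc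
      exact hx' ⟨hx, hc⟩
    have hy0 : y = 0 := by
      by_contra hc
      exact hy' ⟨hy, hc⟩
    omega

/-- The relation between consecutive states. -/
def Rel (t i : ℕ) (p q : Set ℕ × ℕ) : Prop :=
  p.1 ⊆ q.1 ∧ p.2 < q.2 ∧ (∀ x ∈ q.1, x ∉ p.1 → 5 * p.2 ≤ x) ∧
      (∀ o ∈ p.1, ∀ x ∈ q.1, x ∉ p.1 → ∀ y ∈ q.1, ∀ z ∈ q.1, o + x = y + z →
        (y = o ∧ z = x) ∨ (y = x ∧ z = o)) ∧
      ∃ n, p.2 < n ∧ n < q.2 ∧ n ∉ Sums (q.1 \ Fi i p.1) (t + 3)

theorem exists_next {t : ℕ} (ht : 41 ≤ t) (i : ℕ) (p : St t) : ∃ q : St t, Rel t i p.1 q.1 := by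
  obtain ⟨⟨O, M⟩, hG, h1⟩ := p
  obtain ⟨hF, h0F, hFC⟩ := Fi_valid i O h1
  obtain ⟨O', M', hG', hsub, hlt, hlarge, huniq, hn⟩ := stage ht hG hF h0F hFC
  exact ⟨⟨(O', M'), hG', hsub h1⟩, hsub, hlt, hlarge, huniq, hn⟩

theorem Sums_zero_one {j x : ℕ} (hx : x ≤ j) : x ∈ Sums ({0, 1} : Set ℕ) j := by
  induction j generalizing x with
  | zero =>
    have : x = 0 := by omega
    subst this; rfl
  | succ j ih =>
    rcases Nat.eq_zero_or_pos x with h | h
    · subst h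
      exact ⟨0, by simp, 0, ih (by omega), rfl⟩
    · exact ⟨1, by simp, x - 1, ih (by omega), by omega⟩

/-- The initial state. -/
def st0 (t : ℕ) (ht : 41 ≤ t) : St t :=
  ⟨({0, 1}, 1), ⟨le_rfl, by
    intro o ho
    simp only [Set.mem_insert_iff, Set.mem_singleton_iff] at ho
    omega, by simp, fun x hx => Sums_zero_one (by omega), fun x _ hx => Sums_zero_one (by omega)⟩,
    by simp⟩

/-- The sequence of states. -/
noncomputable def seq (t : ℕ) (ht : 41 ≤ t) : ℕ → St t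
  | 0 => st0 t ht
  | i + 1 => Classical.choose (exists_next ht i (seq t ht i))

section

variable {t : ℕ} (ht : 41 ≤ t)

/-- The sets of the construction. -/
noncomputable def OO (i : ℕ) : Set ℕ := (seq t ht i).1.1

/-- The bounds of the construction. -/
noncomputable def MM (i : ℕ) : ℕ := (seq t ht i).1.2

theorem seq_rel (i : ℕ) : Rel t i (seq t ht i).1 (seq t ht (i + 1)).1 :=
  Classical.choose_spec (exists_next ht i (seq t ht i))

theorem OO_succ (i : ℕ) : OO ht i ⊆ OO ht (i + 1) := (seq_rel ht i).1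

theorem MM_succ (i : ℕ) : MM ht i < MM ht (i + 1) := (seq_rel ht i).2.1

theorem OO_mono {i j : ℕ} (h : i ≤ j) : OO ht i ⊆ OO ht j :=
  monotone_nat_of_le_succ (OO_succ ht) h

theorem MM_mono {i j : ℕ} (h : i ≤ j) : MM ht i ≤ MM ht j :=
  monotone_nat_of_le_succ (fun i => (MM_succ ht i).le) h

theorem MM_ge (i : ℕ) : i + 1 ≤ MM ht i := by
  induction i with
  | zero => exact (seq t ht 0).2.1.1
  | succ i ih => have := MM_succ ht i; omega

theorem OO_le (i : ℕ) : ∀ x ∈ OO ht i, x ≤ MM ht i := (seq t ht i).2.1.2.1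

/-- The first stage containing an element. -/
theorem enter {i j x : ℕ} (hij : i ≤ j) (hx : x ∈ OO ht j) (hxi : x ∉ OO ht i) :
    ∃ l, i ≤ l ∧ l < j ∧ x ∉ OO ht l ∧ x ∈ OO ht (l + 1) := by
  induction j, hij using Nat.le_induction with
  | base => exact absurd hx hxi
  | succ j hj ih =>
    by_cases h : x ∈ OO ht j
    · obtain ⟨l, h1, h2, h3, h4⟩ := ih h
      exact ⟨l, h1, by omega, h3, h4⟩
    · exact ⟨j, hj, by omega, h, hx⟩

theorem large {i j x : ℕ} (hij : i ≤ j) (hx : x ∈ OO ht j) (hxi : x ∉ OO ht i) :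
    5 * MM ht i ≤ x := by
  obtain ⟨l, h1, _, h3, h4⟩ := enter ht hij hx hxi
  have := (seq_rel ht l).2.2.1 x h4 h3
  have h5 := MM_mono ht h1
  change 5 * MM ht l ≤ x at this
  omega

theorem small_mem {i j x : ℕ} (hx : x ∈ OO ht j) (h : x < 5 * MM ht i) : x ∈ OO ht i := by
  rcases Nat.le_total j i with hji | hij
  · exact OO_mono ht hji hx
  · by_contra hxi
    have := large ht hij hx hxi
    omega

/-- Uniqueness of sums of elements of different blocks. -/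
theorem cross {l j o x y z : ℕ} (ho : o ∈ OO ht l) (hx : x ∈ OO ht (l + 1)) (hxl : x ∉ OO ht l)
    (hy : y ∈ OO ht j) (hz : z ∈ OO ht j) (h : o + x = y + z) :
    (y = o ∧ z = x) ∨ (y = x ∧ z = o) := by
  have h1 := OO_le ht _ o (OO_succ ht l ho)
  have h2 := OO_le ht _ x hx
  have h3 := MM_ge ht (l + 1)
  exact (seq_rel ht l).2.2.2.1 o ho x hx hxl y (small_mem ht hy (by omega)) z
    (small_mem ht hz (by omega)) h

theorem pair_valid {i j b₁ b₂ : ℕ} (h1 : b₁ ∈ OO ht i) (h2 : b₂ ∉ OO ht i) (hij : i ≤ j)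
    (h2j : b₂ ∈ OO ht j) (h10 : b₁ ≠ 0) (h20 : b₂ ≠ 0) : Valid (OO ht j) {b₁, b₂} := by
  obtain ⟨l, hl1, hl2, hl3, hl4⟩ := enter ht hij h2j h2
  have h1l : b₁ ∈ OO ht l := OO_mono ht hl1 h1
  refine ⟨?_, ?_, ?_⟩
  · intro x hx
    simp only [Set.mem_insert_iff, Set.mem_singleton_iff] at hx
    rcases hx with rfl | rfl
    · exact OO_mono ht hij h1
    · exact h2j
  · simp only [Set.mem_insert_iff, Set.mem_singleton_iff, not_or]
    exact ⟨fun h => h10 h.symm, fun h => h20 h.symm⟩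
  · intro b hb
    by_cases hbl : b ∈ OO ht l
    · refine ⟨b₂, by simp, ?_⟩
      intro hs
      obtain ⟨y, ⟨hy, hy'⟩, z, ⟨hz, hz'⟩, hyz⟩ := mem_Sums_two.1 hs
      rcases cross ht hbl hl4 hl3 hy hz hyz with ⟨_, h⟩ | ⟨h, _⟩
      · exact hz' (by simp [h])
      · exact hy' (by simp [h])
    · refine ⟨b₁, by simp, ?_⟩
      intro hs
      obtain ⟨y, ⟨hy, hy'⟩, z, ⟨hz, hz'⟩, hyz⟩ := mem_Sums_two.1 hs
      obtain ⟨l', hl1', hl2', hl3', hl4'⟩ := enter ht hl2.le hb hbl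
      rcases cross ht (OO_mono ht hl1' h1l) hl4' hl3' hy hz (by rw [add_comm]; exact hyz) with
        ⟨h, _⟩ | ⟨_, h⟩
      · exact hy' (by simp [h])
      · exact hz' (by simp [h])

/-- The set constructed. -/
noncomputable def AA : Set ℕ := ⋃ i, OO ht i

theorem AA_basis (x : ℕ) : x ∈ Sums (AA ht) (t + 2) := by
  have h1 := (seq t ht x).2.1.2.2.2.1 x (by
    have := MM_ge ht x
    change x ≤ 36 * MM ht x
    omega)
  exact Sums_mono (Set.subset_iUnion (OO ht) x) _ h1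

theorem AA_main {B : Set ℕ} (hB : B ⊆ AA ht) (hBinf : B.Infinite) (N : ℕ) :
    ∃ n, N ≤ n ∧ n ∉ Sums (AA ht \ B) (t + 3) := by
  obtain ⟨b₁, hb₁, hb₁0⟩ := hBinf.exists_gt 0
  obtain ⟨i, hi⟩ := Set.mem_iUnion.1 (hB hb₁)
  obtain ⟨b₂, hb₂, hb₂i⟩ := hBinf.exists_gt (MM ht i)
  obtain ⟨j, hj⟩ := Set.mem_iUnion.1 (hB hb₂)
  have h2 : b₂ ∉ OO ht i := by
    intro h
    have := OO_le ht i _ h
    omega
  -- the stage
  obtain ⟨s, hs⟩ : ∃ s, s = Nat.pair (Nat.pair b₁ b₂) (i + j + N) := ⟨_, rfl⟩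
  have hs1 : i + j + N ≤ s := by rw [hs]; exact Nat.right_le_pair _ _
  have hpr : pr s = {b₁, b₂} := by
    unfold pr
    rw [hs]
    simp
  have hv : Valid (OO ht s) {b₁, b₂} :=
    pair_valid ht hi h2 (by omega) (OO_mono ht (by omega) hj) (by omega) (by omega)
  have hFi : Fi s (OO ht s) = {b₁, b₂} := by
    unfold Fi
    rw [hpr, if_pos hv]
  obtain ⟨n, hn1, hn2, hn3⟩ := (seq_rel ht s).2.2.2.2
  change MM ht s < n at hn1
  change n < MM ht (s + 1) at hn2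
  change n ∉ Sums (OO ht (s + 1) \ Fi s (OO ht s)) (t + 3) at hn3
  rw [hFi] at hn3
  refine ⟨n, ?_, ?_⟩
  · have := MM_ge ht s
    omega
  · intro hmem
    apply hn3
    refine Sums_mono ?_ _ (Sums_restrict hmem le_rfl)
    rintro a ⟨⟨haA, haB⟩, han⟩
    obtain ⟨r, hr⟩ := Set.mem_iUnion.1 haA
    refine ⟨small_mem ht hr (by omega), ?_⟩
    simp only [Set.mem_insert_iff, Set.mem_singleton_iff, not_or]
    refine ⟨?_, ?_⟩
    · rintro rfl; exact haB hb₁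
    · rintro rfl; exact haB hb₂

end

end Pool.Agent.H31.Basis
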