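import Pool.Agent.H31.Basis.Defs

namespace Pool.Agent.H31.Basis

/-- The generic element with residue `d` modulo `20 * M`. -/
def cc (M Q d : ℕ) : ℕ := d + 20 * M * (Q ^ 2 + (1 + Q) * 32 ^ (d + 1))

/-- The set of generic elements. -/
def Cset (F : Set ℕ) (M Q : ℕ) : Set ℕ := {x | ∃ d, d < 20 * M ∧ d ∉ F ∧ x = cc M Q d}

/-- The `l`-th digit axis, shifted by `5 * M`. -/
def Uax (M Q l : ℕ) : Set ℕ := {x | ∃ b, b < Q ∧ x = 5 * M + b * (20 * M * Q ^ l)}

/-- Indicator of being the generic element with residue `d`. -/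
def ind (M Q x d : ℕ) : ℤ := if x = cc M Q d then 1 else 0

theorem cc_lt {M Q d : ℕ} (hQ : 1000 * 32 ^ (20 * M) ≤ Q) (hd : d < 20 * M) :
    cc M Q d < 20 * M * (2 * Q ^ 2) := by
  unfold cc
  have h1 : 32 ^ (d + 1) ≤ 32 ^ (20 * M) := Nat.pow_le_pow_right (by norm_num) hd
  have h2 : 1000 * 32 ^ (d + 1) ≤ Q := le_trans (Nat.mul_le_mul_left _ h1) hQ
  have h3 : 1 ≤ 32 ^ (d + 1) := Nat.one_le_pow _ _ (by norm_num)
  have h4 : (1 + Q) * 32 ^ (d + 1) + 1 ≤ Q ^ 2 := by
    have : (1 + Q) * (1000 * 32 ^ (d + 1)) ≤ (1 + Q) * Q := Nat.mul_le_mul_left _ h2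
    nlinarith
  calc d + 20 * M * (Q ^ 2 + (1 + Q) * 32 ^ (d + 1))
      < 20 * M + 20 * M * (Q ^ 2 + (1 + Q) * 32 ^ (d + 1)) := by omega
    _ = 20 * M * (Q ^ 2 + ((1 + Q) * 32 ^ (d + 1) + 1)) := by ring
    _ ≤ 20 * M * (Q ^ 2 + Q ^ 2) := by gcongr
    _ = 20 * M * (2 * Q ^ 2) := by ring

theorem cc_gt {M Q d : ℕ} : 20 * M * Q ^ 2 + 20 * M * (32 * (1 + Q)) ≤ cc M Q d := by
  unfold cc
  have h1 : 32 ≤ 32 ^ (d + 1) := by
    calc 32 = 32 ^ 1 := by norm_num
      _ ≤ 32 ^ (d + 1) := Nat.pow_le_pow_right (by norm_num) (by omega)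
  have : 20 * M * (Q ^ 2 + (1 + Q) * 32) ≤ 20 * M * (Q ^ 2 + (1 + Q) * 32 ^ (d + 1)) := by gcongr
  calc 20 * M * Q ^ 2 + 20 * M * (32 * (1 + Q)) = 20 * M * (Q ^ 2 + (1 + Q) * 32) := by ring
    _ ≤ _ := this
    _ ≤ _ := Nat.le_add_left _ _

theorem cc_mod {M Q d : ℕ} (hd : d < 20 * M) : cc M Q d % (20 * M) = d := by
  unfold cc
  rw [Nat.add_mul_mod_self_left, Nat.mod_eq_of_lt hd]

theorem cc_inj {M Q d d' : ℕ} (hd : d < 20 * M) (hd' : d' < 20 * M) (h : cc M Q d = cc M Q d') :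
    d = d' := by
  rw [← cc_mod (Q := Q) hd, ← cc_mod (Q := Q) hd', h]

theorem pow_sum (n : ℕ) (ε : ℕ → ℤ) (h : ∑ d ∈ Finset.range n, |ε d| ≤ 12) :
    |∑ d ∈ Finset.range n, ε d * 32 ^ (d + 1)| ≤ (∑ d ∈ Finset.range n, |ε d|) * 32 ^ n ∧
    ((∀ d < n, ε d = 0) ∨ 32 ≤ |∑ d ∈ Finset.range n, ε d * 32 ^ (d + 1)|) := by
  induction n with
  | zero => simp
  | succ n ih =>
    rw [Finset.sum_range_succ] at h
    have hn : 0 ≤ |ε n| := abs_nonneg _
    have hs : 0 ≤ ∑ d ∈ Finset.range n, |ε d| := Finset.sum_nonneg (fun _ _ => abs_nonneg _)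
    obtain ⟨ih1, ih2⟩ := ih (by linarith)
    rw [Finset.sum_range_succ, Finset.sum_range_succ]
    set S := ∑ d ∈ Finset.range n, ε d * 32 ^ (d + 1) with hS
    set A := ∑ d ∈ Finset.range n, |ε d| with hA
    have hp : (1 : ℤ) ≤ 32 ^ n := one_le_pow₀ (by norm_num)
    have hb : |ε n * 32 ^ (n + 1)| = |ε n| * 32 ^ (n + 1) := by
      rw [abs_mul, abs_of_nonneg (a := (32 : ℤ) ^ (n + 1)) (by positivity)]
    refine ⟨?_, ?_⟩
    · calc |S + ε n * 32 ^ (n + 1)| ≤ |S| + |ε n * 32 ^ (n + 1)| := abs_add_le _ _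
        _ ≤ A * 32 ^ n + |ε n| * 32 ^ (n + 1) := by rw [hb]; linarith
        _ ≤ (A + |ε n|) * 32 ^ (n + 1) := by
          have : A * 32 ^ n ≤ A * 32 ^ (n + 1) := by
            apply mul_le_mul_of_nonneg_left _ hs
            exact pow_le_pow_right₀ (by norm_num) (by omega)
          linarith
    · by_cases he : ε n = 0
      · rcases ih2 with h0 | h1
        · left
          intro d hd
          rcases Nat.lt_succ_iff_lt_or_eq.1 hd with h | h
          · exact h0 d h
          · rw [h]; exact he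
        · right
          rw [he]; simpa using h1
      · right
        have he1 : 1 ≤ |ε n| := Int.one_le_abs he
        rcases Nat.eq_zero_or_pos n with hn0 | hn0
        · have hS0 : S = 0 := by rw [hS, hn0]; simp
          have h5 : (32 : ℤ) ^ (n + 1) = 32 * 32 ^ n := by ring
          rw [hS0, zero_add, hb, h5]
          nlinarith
        · have h2 : |S + ε n * 32 ^ (n + 1)| ≥ |ε n * 32 ^ (n + 1)| - |S| := by
            have := abs_sub_abs_le_abs_sub (ε n * 32 ^ (n + 1)) (-S)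
            rw [abs_neg] at this
            rw [show S + ε n * 32 ^ (n + 1) = ε n * 32 ^ (n + 1) - -S by ring]
            exact this
          rw [hb] at h2
          have h3 : (32 : ℤ) ≤ 32 ^ n := by
            calc (32 : ℤ) = 32 ^ 1 := by norm_num
              _ ≤ 32 ^ n := pow_le_pow_right₀ (by norm_num) hn0
          have h4 : |S| ≤ 12 * 32 ^ n := by
            refine ih1.trans ?_
            apply mul_le_mul_of_nonneg_right (by linarith) (by positivity)
          have h5 : (32 : ℤ) ^ (n + 1) = 32 * 32 ^ n := by ring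
          have h6 : |ε n| * 32 ^ (n + 1) ≥ 32 * 32 ^ n := by
            rw [h5]; nlinarith
          linarith

theorem atom {O F : Set ℕ} {M Q l : ℕ} (hM : 1 ≤ M) (hQ : 1000 * 32 ^ (20 * M) ≤ Q)
    (hO : ∀ o ∈ O, o ≤ M) (hl : l < 2) {x : ℕ} (hx : x ∈ O ∪ Cset F M Q ∪ Uax M Q l) :
    ∃ R T : ℤ, 0 ≤ R ∧ R ≤ 20 * M ∧ 0 ≤ T ∧ T ≤ Q ∧
      (20 * M * Q ^ 2 : ℤ) ∣ x - (R + 20 * M * ((1 + Q) *
        ∑ d ∈ Finset.range (20 * M), ind M Q x d * 32 ^ (d + 1) + Q ^ l * T)) ∧
      ∑ d ∈ Finset.range (20 * M), ind M Q x d ≤ 1 := by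
  have hQ1 : 1 ≤ Q := le_trans (by
    have : 1 ≤ 32 ^ (20 * M) := Nat.one_le_pow _ _ (by norm_num)
    omega) hQ
  rcases hx with (hx | hx) | hx
  · have h0 : ∀ d, ind M Q x d = 0 := by
      intro d
      unfold ind
      rw [if_neg]
      intro h
      have h1 := cc_gt (M := M) (Q := Q) (d := d)
      have h2 := hO x hx
      have h3 : 20 * M * 32 ≤ 20 * M * (32 * (1 + Q)) := by gcongr; omega
      rw [h] at h2
      omega
    refine ⟨x, 0, by positivity, ?_, le_rfl, by positivity, ?_, ?_⟩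
    · have := hO x hx
      have : (x : ℤ) ≤ M := by exact_mod_cast this
      linarith
    · simp [h0]
    · simp [h0]
  · obtain ⟨e, he, _, rfl⟩ := hx
    have h0 : ∀ d ∈ Finset.range (20 * M), ind M Q (cc M Q e) d = if e = d then 1 else 0 := by
      intro d hd
      unfold ind
      by_cases h : e = d
      · simp [h]
      · rw [if_neg h, if_neg]
        intro h'
        exact h (cc_inj he (Finset.mem_range.1 hd) h')
    have h1 : ∑ d ∈ Finset.range (20 * M), ind M Q (cc M Q e) d * 32 ^ (d + 1)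
        = 32 ^ (e + 1) := by
      rw [Finset.sum_congr rfl (fun d hd => by rw [h0 d hd])]
      simp only [ite_mul, one_mul, zero_mul]
      rw [Finset.sum_ite_eq]
      simp [he]
    have h2 : ∑ d ∈ Finset.range (20 * M), ind M Q (cc M Q e) d = 1 := by
      rw [Finset.sum_congr rfl h0, Finset.sum_ite_eq]
      simp [he]
    refine ⟨e, 0, by positivity, by exact_mod_cast he.le, le_rfl, by positivity, ?_, by rw [h2]⟩
    rw [h1]
    unfold cc
    push_cast
    refine ⟨1, by ring⟩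
  · obtain ⟨b, hb, rfl⟩ := hx
    have h0 : ∀ d, ind M Q (5 * M + b * (20 * M * Q ^ l)) d = 0 := by
      intro d
      unfold ind
      rw [if_neg]
      intro h
      have h1 := cc_gt (M := M) (Q := Q) (d := d)
      have h3 : 20 * M * 32 ≤ 20 * M * (32 * (1 + Q)) := by gcongr; omega
      have h4 : b * (20 * M * Q ^ l) ≤ 20 * M * Q ^ 2 := by
        have : Q ^ l ≤ Q ^ 1 := Nat.pow_le_pow_right hQ1 (by omega)
        calc b * (20 * M * Q ^ l) ≤ Q * (20 * M * Q ^ 1) := by gcongr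
          _ = 20 * M * Q ^ 2 := by ring
      omega
    refine ⟨5 * M, b, by positivity, by nlinarith, by positivity, by exact_mod_cast hb.le, ?_, ?_⟩
    · simp only [h0, zero_mul, Finset.sum_const_zero, mul_zero, zero_add]
      push_cast
      refine ⟨0, by ring⟩
    · simp [h0]

theorem atoms {O F : Set ℕ} {M Q l : ℕ} (hM : 1 ≤ M) (hQ : 1000 * 32 ^ (20 * M) ≤ Q)
    (hO : ∀ o ∈ O, o ≤ M) (hl : l < 2) (xs : List ℕ)
    (hx : ∀ x ∈ xs, x ∈ O ∪ Cset F M Q ∪ Uax M Q l) :
    ∃ R T : ℤ, 0 ≤ R ∧ R ≤ xs.length * (20 * M) ∧ 0 ≤ T ∧ T ≤ xs.length * Q ∧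
      (20 * M * Q ^ 2 : ℤ) ∣ (xs.sum : ℕ) - (R + 20 * M * ((1 + Q) *
        ∑ d ∈ Finset.range (20 * M), (xs.map (fun x => ind M Q x d)).sum * 32 ^ (d + 1)
          + Q ^ l * T)) ∧
      ∑ d ∈ Finset.range (20 * M), (xs.map (fun x => ind M Q x d)).sum ≤ xs.length := by
  induction xs with
  | nil => exact ⟨0, 0, by simp⟩
  | cons x xs ih =>
    obtain ⟨R, T, h1, h2, h3, h4, h5, h6⟩ := ih (fun y hy => hx y (List.mem_cons_of_mem _ hy))
    obtain ⟨R', T', g1, g2, g3, g4, g5, g6⟩ :=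
      atom hM hQ hO hl (hx x (List.mem_cons_self))
    refine ⟨R + R', T + T', by positivity, ?_, by positivity, ?_, ?_, ?_⟩
    · simp only [List.length_cons]; push_cast; linarith
    · simp only [List.length_cons]; push_cast; linarith
    · obtain ⟨u, hu⟩ := h5
      obtain ⟨v, hv⟩ := g5
      refine ⟨u + v, ?_⟩
      simp only [List.sum_cons, List.map_cons, add_mul, Finset.sum_add_distrib]
      push_cast at hu hv ⊢
      linear_combination hu + hv
    · simp only [List.map_cons, List.sum_cons, Finset.sum_add_distrib, List.length_cons]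
      push_cast
      linarith

theorem ind_nonneg (M Q x d : ℕ) : 0 ≤ ind M Q x d := by
  unfold ind; split_ifs <;> norm_num

theorem ind_sum_nonneg (M Q d : ℕ) (xs : List ℕ) :
    0 ≤ (xs.map (fun x => ind M Q x d)).sum := by
  apply List.sum_nonneg
  intro y hy
  obtain ⟨x, _, rfl⟩ := List.mem_map.1 hy
  exact ind_nonneg _ _ _ _

/-- Genericity: in a relation modulo `20 * M * Q ^ 2` the generic elements cancel. -/
theorem gen {O F : Set ℕ} {M Q l : ℕ} (hM : 1 ≤ M) (hQ : 1000 * 32 ^ (20 * M) ≤ Q)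
    (hO : ∀ o ∈ O, o ≤ M) (hl : l < 2) (xs ys : List ℕ)
    (hx : ∀ x ∈ xs, x ∈ O ∪ Cset F M Q ∪ Uax M Q l)
    (hy : ∀ y ∈ ys, y ∈ O ∪ Cset F M Q ∪ Uax M Q l)
    (hlen : xs.length + ys.length ≤ 12)
    (hd : (20 * M * Q ^ 2 : ℤ) ∣ ((xs.sum : ℕ) : ℤ) - (ys.sum : ℕ)) :
    ∀ d < 20 * M, (xs.map (fun x => ind M Q x d)).sum = (ys.map (fun x => ind M Q x d)).sum := by
  obtain ⟨R, T, h1, h2, h3, h4, h5, h6⟩ := atoms hM hQ hO hl xs hx
  obtain ⟨R', T', g1, g2, g3, g4, g5, g6⟩ := atoms hM hQ hO hl ys hy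
  set X : ℕ → ℤ := fun d => (xs.map (fun x => ind M Q x d)).sum with hX
  set Y : ℕ → ℤ := fun d => (ys.map (fun x => ind M Q x d)).sum with hY
  have hlen' : ((xs.length : ℤ) + ys.length) ≤ 12 := by exact_mod_cast hlen
  have hlx : (0 : ℤ) ≤ xs.length := by positivity
  have hly : (0 : ℤ) ≤ ys.length := by positivity
  have hMz : (1 : ℤ) ≤ M := by exact_mod_cast hM
  have hQz : (1000 : ℤ) * 32 ^ (20 * M) ≤ Q := by exact_mod_cast hQ
  have hPz : (1 : ℤ) ≤ 32 ^ (20 * M) := one_le_pow₀ (by norm_num)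
  have heps : ∑ d ∈ Finset.range (20 * M), |X d - Y d| ≤ 12 := by
    calc ∑ d ∈ Finset.range (20 * M), |X d - Y d|
        ≤ ∑ d ∈ Finset.range (20 * M), (X d + Y d) := by
          apply Finset.sum_le_sum
          intro d _
          have a1 : 0 ≤ X d := ind_sum_nonneg M Q d xs
          have a2 : 0 ≤ Y d := ind_sum_nonneg M Q d ys
          rw [abs_le]; constructor <;> linarith
      _ = ∑ d ∈ Finset.range (20 * M), X d + ∑ d ∈ Finset.range (20 * M), Y d :=
          Finset.sum_add_distrib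
      _ ≤ 12 := by linarith
  obtain ⟨p1, p2⟩ := pow_sum (20 * M) (fun d => X d - Y d) heps
  set E : ℤ := ∑ d ∈ Finset.range (20 * M), (X d - Y d) * 32 ^ (d + 1) with hE
  have hEabs : |E| ≤ 12 * 32 ^ (20 * M) := by
    refine p1.trans ?_
    exact mul_le_mul_of_nonneg_right heps (by positivity)
  have hkey : (20 * M * Q ^ 2 : ℤ) ∣ (R - R') + 20 * M * ((1 + Q) * E + Q ^ l * (T - T')) := by
    obtain ⟨u, hu⟩ := h5
    obtain ⟨v, hv⟩ := g5
    obtain ⟨w, hw⟩ := hd
    refine ⟨w - u + v, ?_⟩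
    have hEE : E = ∑ d ∈ Finset.range (20 * M), X d * 32 ^ (d + 1)
        - ∑ d ∈ Finset.range (20 * M), Y d * 32 ^ (d + 1) := by
      rw [hE, ← Finset.sum_sub_distrib]
      apply Finset.sum_congr rfl
      intro d _
      ring
    rw [hEE]
    simp only [hX, hY]
    linear_combination hw - hu + hv
  have hR : (20 * M : ℤ) ∣ R - R' := by
    have h7 : (20 * M : ℤ) ∣ (R - R') + 20 * M * ((1 + Q) * E + Q ^ l * (T - T')) :=
      dvd_trans ⟨Q ^ 2, by ring⟩ hkey
    exact (Int.dvd_add_left (Dvd.intro _ rfl)).1 h7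
  obtain ⟨w, hw⟩ := hR
  have hw1 : |w| ≤ 12 := by
    rw [abs_le]
    constructor
    · by_contra hc
      push Not at hc
      have : (20 * M : ℤ) * w ≤ 20 * M * (-13) := by
        apply mul_le_mul_of_nonneg_left _ (by positivity)
        omega
      nlinarith
    · by_contra hc
      push Not at hc
      have : (20 * M : ℤ) * 13 ≤ 20 * M * w := by
        apply mul_le_mul_of_nonneg_left _ (by positivity)
        omega
      nlinarith
  have hkey2 : (Q ^ 2 : ℤ) ∣ w + ((1 + Q) * E + Q ^ l * (T - T')) := by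
    have h8 : (20 * M * Q ^ 2 : ℤ) ∣ 20 * M * (w + ((1 + Q) * E + Q ^ l * (T - T'))) := by
      rw [hw] at hkey
      rw [mul_add]; exact hkey
    exact Int.dvd_of_mul_dvd_mul_left (by positivity) h8
  have hTabs : |T - T'| ≤ 12 * Q := by
    have hQ0 : (0 : ℤ) ≤ Q := by positivity
    rw [abs_le]
    constructor
    · nlinarith
    · nlinarith
  have hE12 : |E| ≤ 12 + 12 := by
    have hl' : l = 0 ∨ l = 1 := by omega
    rcases hl' with rfl | rfl
    · -- first axis
      simp only [pow_zero, one_mul] at hkey2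
      have hz : w + ((1 + (Q : ℤ)) * E + (T - T')) = 0 := by
        apply Int.eq_zero_of_abs_lt_dvd hkey2
        have a1 : |(1 + (Q : ℤ)) * E| ≤ (1 + Q) * (12 * 32 ^ (20 * M)) := by
          rw [abs_mul, abs_of_nonneg (a := (1 + (Q : ℤ))) (by positivity)]
          exact mul_le_mul_of_nonneg_left hEabs (by positivity)
        have a2 : |w + ((1 + (Q : ℤ)) * E + (T - T'))| ≤ |w| + (|(1 + (Q : ℤ)) * E| + |T - T'|) := by
          refine (abs_add_le _ _).trans ?_
          gcongr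
          exact abs_add_le _ _
        have a3 : (1 + (Q : ℤ)) * (12 * 32 ^ (20 * M)) * 1000 ≤ (1 + Q) * 12 * Q := by
          have : (1 + (Q : ℤ)) * 12 * (1000 * 32 ^ (20 * M)) ≤ (1 + Q) * 12 * Q :=
            mul_le_mul_of_nonneg_left hQz (by positivity)
          linarith
        nlinarith
      have hz2 : (1 + (Q : ℤ)) * E = -(w + (T - T')) := by linarith
      have hz3 : (1 + (Q : ℤ)) * |E| ≤ 12 + 12 * Q := by
        calc (1 + (Q : ℤ)) * |E| = |(1 + (Q : ℤ)) * E| := by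
              rw [abs_mul, abs_of_nonneg (a := (1 + (Q : ℤ))) (by positivity)]
          _ = |w + (T - T')| := by rw [hz2, abs_neg]
          _ ≤ |w| + |T - T'| := abs_add_le _ _
          _ ≤ 12 + 12 * Q := by linarith
      have hz4 : (1 + (Q : ℤ)) * |E| ≤ (1 + Q) * 12 := by linarith
      have := le_of_mul_le_mul_left hz4 (by positivity)
      linarith
    · -- second axis
      have hq : (Q : ℤ) ∣ w + E := by
        have h9 : (Q : ℤ) ∣ w + ((1 + Q) * E + Q ^ 1 * (T - T')) :=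
          dvd_trans ⟨Q, by ring⟩ hkey2
        have h10 : w + ((1 + (Q : ℤ)) * E + Q ^ 1 * (T - T')) = (w + E) + Q * (E + (T - T')) := by
          ring
        rw [h10] at h9
        exact (Int.dvd_add_left (Dvd.intro _ rfl)).1 h9
      have hz : w + E = 0 := by
        apply Int.eq_zero_of_abs_lt_dvd hq
        have := abs_add_le w E
        nlinarith
      have : E = -w := by linarith
      rw [this, abs_neg]
      linarith
  rcases p2 with h0 | h0
  · intro d hd'
    have := h0 d hd'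
    linarith
  · exfalso
    have : (32 : ℤ) ≤ |E| := h0
    linarith

end Pool.Agent.H31.Basis
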