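import Pool.Agent.H31.Basis.Wit

namespace Pool.Agent.H31.Basis

/-- An arithmetic progression with difference `m` and offset `5 * M`. -/
def Gset (M m lo hi : ℕ) : Set ℕ := {x | ∃ b, lo ≤ b ∧ b ≤ hi ∧ x = 5 * M + b * m}

/-- The set of the special elements `W y`. -/
def Wset (W : ℕ → ℕ) (m : ℕ) : Set ℕ := {x | ∃ y, y < m ∧ x = W y}

theorem Sums_ge {A : Set ℕ} {K : ℕ} (hA : ∀ a ∈ A, K ≤ a) {j x : ℕ} (hx : x ∈ Sums A j) :
    j * K ≤ x := by
  induction j generalizing x with
  | zero => simp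
  | succ j ih =>
    obtain ⟨a, ha, z, hz, rfl⟩ := hx
    have := ih hz
    have := hA a ha
    nlinarith

theorem Sums_restrict {A : Set ℕ} {N : ℕ} {j x : ℕ} (hx : x ∈ Sums A j) (hxN : x ≤ N) :
    x ∈ Sums {a | a ∈ A ∧ a ≤ N} j := by
  induction j generalizing x with
  | zero => exact hx
  | succ j ih =>
    obtain ⟨a, ha, z, hz, rfl⟩ := hx
    exact ⟨a, ⟨ha, by omega⟩, z, ih hz (by omega), rfl⟩

theorem Gsum_red {A' : Set ℕ} {M m lo hi i v : ℕ} (h5 : 5 * M ∈ A')
    (hv : v ∈ Sums (Gset M m lo hi) i) (hi' : 1 ≤ i) :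
    ∃ w ∈ Sums A' (i - 1), (m : ℤ) ∣ (v : ℤ) - 5 * M - w := by
  induction i generalizing v with
  | zero => omega
  | succ i ih =>
    obtain ⟨a, ⟨b, _, _, rfl⟩, z, hz, rfl⟩ := hv
    rcases Nat.eq_zero_or_pos i with h0 | h0
    · subst h0
      rw [mem_Sums_zero] at hz
      subst hz
      refine ⟨0, rfl, b, ?_⟩
      push_cast; ring
    · obtain ⟨w, hw, hd⟩ := ih hz h0
      refine ⟨w + 5 * M, ?_, ?_⟩
      · rw [show i + 1 - 1 = (i - 1) + 1 by omega]
        exact Sums_add_one hw h5
      · rw [show (((5 * M + b * m + z : ℕ) : ℤ) - 5 * M - (w + 5 * M : ℕ)) =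
          ((z : ℤ) - 5 * M - w) + m * b by push_cast; ring]
        exact Int.dvd_add hd (Dvd.intro _ rfl)

theorem not_rep {A' : Set ℕ} {M m t B j₀ ν n : ℕ} {W : ℕ → ℕ} (hA' : ∀ x ∈ A', x ≤ m)
    (h5 : 5 * M ∈ A') (h10 : 10 * M ≤ m) (hνm : ν < m)
    (hn : n = ν + 10 * M + m * (B + t + 3))
    (hν : ∀ v ∈ Sums A' (t + 1), ¬ (m : ℤ) ∣ (ν : ℤ) - v)
    (hW : ∀ y < m, (j₀ + y) * m ≤ W y ∧ W y ≤ (j₀ + y + 1) * m ∧
      ∃ s : ℕ, (m : ℤ) ∣ (n : ℤ) - W y - 5 * M - y - s ∧
        ∀ v ∈ Sums A' (t + 1), ¬ (m : ℤ) ∣ (y : ℤ) + s - v)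
    (hj₀ : j₀ = m + 2 * t + 5) (hB : B = 2 * m + 3 * t + 5) :
    n ∉ Sums (Wset W m ∪ (Gset M m 1 B ∪ A')) (t + 3) := by
  have hmpos : 0 < m := by omega
  intro hmem
  obtain ⟨i, hi, x, hx, z, hz, hnx⟩ := Sums_union hmem
  obtain ⟨i', hi', g, hg, v, hv, hzg⟩ := Sums_union hz
  have hvb : v ≤ (t + 3 - i - i') * m := Sums_bound hA' hv
  have hj0m : j₀ * m = m * m + 2 * t * m + 5 * m := by rw [hj₀]; ring
  have hBm : m * (B + t + 3) = 2 * m * m + 4 * t * m + 8 * m := by rw [hB]; ring
  -- lower bound for elements of W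
  have hWge : ∀ a ∈ Wset W m, j₀ * m ≤ a := by
    rintro a ⟨y, hy, rfl⟩
    have h1 := (hW y hy).1
    have : (j₀ + y) * m = j₀ * m + y * m := by ring
    omega
  have hxge := Sums_ge hWge hx
  have hGle : ∀ a ∈ Gset M m 1 B, a ≤ 5 * M + B * m := by
    rintro a ⟨b, _, hb, rfl⟩
    have : b * m ≤ B * m := Nat.mul_le_mul_right _ hb
    omega
  have hgle := Sums_bound hGle hg
  rcases Nat.lt_or_ge 1 i with hi2 | hi2
  · -- at least two elements of W
    have : 2 * (j₀ * m) ≤ i * (j₀ * m) := Nat.mul_le_mul_right _ hi2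
    have hm2 : 2 * (j₀ * m) = 2 * m * m + 4 * t * m + 10 * m := by rw [hj0m]; ring
    omega
  · rcases Nat.eq_zero_or_pos i with hi0 | hi0
    · -- no element of W
      subst hi0
      rw [mem_Sums_zero] at hx
      subst hx
      rcases Nat.lt_or_ge 1 i' with hi2' | hi2'
      · obtain ⟨w, hw, hwd⟩ := Gsum_red h5 hg (by omega)
        obtain ⟨i'', rfl⟩ : ∃ i'', i' = i'' + 2 := ⟨i' - 2, by omega⟩
        -- w contains an element equal to 5M
        have hw' : ∃ w' ∈ Sums A' i'', (m : ℤ) ∣ (g : ℤ) - 10 * M - w' := by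
          obtain ⟨a, ⟨b, _, _, rfl⟩, z', hz', rfl⟩ := hg
          obtain ⟨w', hw', hwd'⟩ := Gsum_red h5 hz' (by omega)
          refine ⟨w', by simpa using hw', ?_⟩
          rw [show (((5 * M + b * m + z' : ℕ) : ℤ) - 10 * M - w') =
            ((z' : ℤ) - 5 * M - w') + m * b by push_cast; ring]
          exact Int.dvd_add hwd' (Dvd.intro _ rfl)
        obtain ⟨w', hw', hwd'⟩ := hw'
        apply hν (w' + v)
        · have := Sums_add hw' hv
          rw [show i'' + (t + 3 - 0 - (i'' + 2)) = t + 1 by omega] at this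
          exact this
        · have e1 : (n : ℤ) = g + v := by rw [hnx, hzg]; push_cast; ring
          have e2 : (n : ℤ) = ν + 10 * M + m * (B + t + 3) := by rw [hn]; push_cast; ring
          rw [show (ν : ℤ) - (w' + v : ℕ) = ((g : ℤ) - 10 * M - w') + m * (-(B + t + 3)) by
            push_cast; linarith]
          exact Int.dvd_add hwd' (Dvd.intro _ rfl)
      · -- at most one element of G
        have h1 : i' * (5 * M + B * m) ≤ 1 * (5 * M + B * m) := Nat.mul_le_mul_right _ hi2'
        rcases Nat.eq_zero_or_pos i' with h0 | h0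
        · subst h0
          rw [mem_Sums_zero] at hg
          subst hg
          have hb' : (t + 3 - 0 - 0) * m = t * m + 3 * m := by
            rw [show t + 3 - 0 - 0 = t + 3 by omega]; ring
          have htm : 0 ≤ 2 * m * m := Nat.zero_le _
          have h4 : 4 * t * m = 4 * (t * m) := by ring
          omega
        · have h1' : i' = 1 := by omega
          subst h1'
          have hb' : (t + 3 - 0 - 1) * m = t * m + 2 * m := by
            rw [show t + 3 - 0 - 1 = t + 2 by omega]; ring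
          have hBm' : B * m = 2 * m * m + 3 * t * m + 5 * m := by rw [hB]; ring
          have h4 : 4 * t * m = 4 * (t * m) := by ring
          have h3 : 3 * t * m = 3 * (t * m) := by ring
          omega
    · -- exactly one element of W
      have hi1 : i = 1 := by omega
      subst hi1
      obtain ⟨a, ⟨y, hy, rfl⟩, z', hz', hxa⟩ := hx
      rw [mem_Sums_zero] at hz'
      subst hz'
      rw [add_zero] at hxa
      obtain ⟨hW1, hW2, s, hs, hbad⟩ := hW y hy
      have hW2' : W y ≤ 2 * m * m + 2 * t * m + 5 * m := by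
        have h1 : (j₀ + y + 1) * m ≤ (j₀ + m) * m := Nat.mul_le_mul_right _ (by omega)
        have h2 : (j₀ + m) * m = j₀ * m + m * m := by ring
        have h3 : 2 * m * m = m * m + m * m := by ring
        omega
      rcases Nat.eq_zero_or_pos i' with h0 | h0
      · subst h0
        rw [mem_Sums_zero] at hg
        subst hg
        have hb' : (t + 3 - 1 - 0) * m = t * m + 2 * m := by
          rw [show t + 3 - 1 - 0 = t + 2 by omega]; ring
        have h4 : 4 * t * m = 4 * (t * m) := by ring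
        have h3 : 2 * t * m = 2 * (t * m) := by ring
        omega
      · obtain ⟨w, hw, hwd⟩ := Gsum_red h5 hg h0
        apply hbad (w + v)
        · have := Sums_add hw hv
          rw [show i' - 1 + (t + 3 - 1 - i') = t + 1 by omega] at this
          exact this
        · have e1 : (n : ℤ) = W y + g + v := by
            rw [hnx, hzg, hxa]; push_cast; ring
          have := Int.dvd_sub hwd hs
          rw [show (g : ℤ) - 5 * M - w - (n - W y - 5 * M - y - s) = y + s - (w + v : ℕ) by
            push_cast; linarith] at this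
          exact this

end Pool.Agent.H31.Basis
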