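import Pool.Agent.H31.Basis.Uniq

namespace Pool.Agent.H31.Basis

/-- The state of the construction: `O` lies in `[0, M]`, contains `0`, every number up to `36 * M`
is a sum of `t + 2` elements of `O` and every number in `[M, 36 * M]` a sum of `40` elements. -/
def Good (t : ℕ) (O : Set ℕ) (M : ℕ) : Prop :=
  1 ≤ M ∧ (∀ o ∈ O, o ≤ M) ∧ 0 ∈ O ∧ (∀ x, x ≤ 36 * M → x ∈ Sums O (t + 2)) ∧
    ∀ x, M ≤ x → x ≤ 36 * M → x ∈ Sums O 40

theorem stage {t : ℕ} (ht : 41 ≤ t) {O F : Set ℕ} {M : ℕ} (hG : Good t O M) (hF : F ⊆ O)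
    (h0F : 0 ∉ F) (hFC : ∀ b ∈ O, ∃ f ∈ F, b + f ∉ Sums (O \ F) 2) :
    ∃ (O' : Set ℕ) (M' : ℕ), Good t O' M' ∧ O ⊆ O' ∧ M < M' ∧ (∀ x ∈ O', x ∉ O → 5 * M ≤ x) ∧
      (∀ o ∈ O, ∀ x ∈ O', x ∉ O → ∀ y ∈ O', ∀ z ∈ O', o + x = y + z →
        (y = o ∧ z = x) ∨ (y = x ∧ z = o)) ∧
      ∃ n, M < n ∧ n < M' ∧ n ∉ Sums (O' \ F) (t + 3) := by
  obtain ⟨hM, hO, h0O, hk, hκ⟩ := hG
  -- the base
  obtain ⟨Q, hQ, htQ, h4Q⟩ : ∃ Q, 1000 * 32 ^ (20 * M) ≤ Q ∧ 8 * (t + 2) < Q ∧ 4 ∣ Q :=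
    ⟨4 * (1000 * 32 ^ (20 * M) + (8 * (t + 2) + 1)), by omega, by omega, Dvd.intro _ rfl⟩
  have hQ1 : 1 ≤ Q := by omega
  obtain ⟨P, hP⟩ : 4 ∣ Q ^ t := dvd_trans h4Q (dvd_pow_self _ (by omega))
  have hPpos : 1 ≤ P := by
    have : 1 ≤ Q ^ t := Nat.one_le_pow _ _ hQ1
    omega
  obtain ⟨m, hmdef⟩ : ∃ m, m = 20 * M * Q ^ t := ⟨_, rfl⟩
  have hmP : m = 20 * M * (4 * P) := by rw [hmdef, hP]
  have hm4 : m = 4 * (20 * M * P) := by rw [hmP]; ring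
  have hMP : 20 * M ≤ 20 * M * P := by nlinarith
  obtain ⟨ν, hν, hνb, hWex⟩ := exists_nu_W hM hQ h4Q hO h0O hF h0F hFC (by omega : 3 ≤ t) htQ
  rw [← hmdef] at hν
  obtain ⟨B, hB⟩ : ∃ B, B = 2 * m + 3 * t + 5 := ⟨_, rfl⟩
  obtain ⟨j₀, hj₀⟩ : ∃ j₀, j₀ = m + 2 * t + 5 := ⟨_, rfl⟩
  obtain ⟨b₁, hb₁⟩ : ∃ b₁, b₁ = B + t + 5 := ⟨_, rfl⟩
  obtain ⟨a₀, ha₀⟩ : ∃ a₀, a₀ = b₁ + 5 := ⟨_, rfl⟩
  obtain ⟨B₂, hB₂⟩ : ∃ B₂, B₂ = 37 * b₁ + 2 * a₀ + 12 * P + 20 := ⟨_, rfl⟩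
  obtain ⟨Mp, hMp⟩ : ∃ Mp, Mp = 5 * M + B₂ * m := ⟨_, rfl⟩
  obtain ⟨n, hn⟩ : ∃ n, n = ν + 10 * M + m * (B + t + 3) := ⟨_, rfl⟩
  obtain ⟨W, hW⟩ := hWex j₀ (B + t + 3)
  have hmz : ((m : ℕ) : ℤ) = 20 * M * Q ^ t := by rw [hmdef]; push_cast; ring
  -- cleaned properties of W
  have hQt4 : 5 * M * Q ^ t = 20 * M * P := by rw [hP]; ring
  have hQt12 : 15 * M * Q ^ t = 3 * (20 * M * P) := by rw [hP]; ring
  rw [← hmdef, hQt4, hQt12, ← hmz, ← hn] at hW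
  rw [← hmz] at hνb
  have hWp : ∀ y < m, (j₀ + y) * m ≤ W y ∧ W y ≤ (j₀ + y + 1) * m := by
    intro y hy
    obtain ⟨h1, h2, _⟩ := hW y hy
    have e : (j₀ + y + 1) * m = (j₀ + y) * m + m := by ring
    omega
  have hnlt : n < m * (B + t + 5) := by
    have e : m * (B + t + 5) = m * (B + t + 3) + 2 * m := by ring
    omega
  have hngt : m * (B + t + 3) ≤ n := by omega
  have hLLle : ∀ a ∈ LL O F M Q t, a ≤ m := by
    intro a ha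
    rw [hmdef]
    exact LL_le hM hQ hO (by omega) htQ ha
  have hb1m : n < b₁ * m := by
    have : b₁ * m = m * (B + t + 5) := by rw [hb₁]; ring
    omega
  have hmpos : 0 < m := by omega
  refine ⟨Big (LL O F M Q t) M m W B b₁ B₂ a₀ P, Mp, ⟨?_, ?_, ?_, ?_, ?_⟩, ?_, ?_, ?_, ?_,
    n, ?_, ?_, ?_⟩
  · omega
  · -- bounds
    have hB2m : m ≤ B₂ * m := by
      have : 1 * m ≤ B₂ * m := Nat.mul_le_mul_right _ (by omega)
      omega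
    rintro a ((⟨y, hy, rfl⟩ | ⟨b, _, hb, rfl⟩ | ha) | ⟨b, _, hb, rfl⟩ | ⟨j, hj1, hj2, rfl⟩)
    · have h1 := (hWp y hy).2
      have h2 : (j₀ + y + 1) * m ≤ B₂ * m := Nat.mul_le_mul_right _ (by omega)
      omega
    · have h2 : b * m ≤ B₂ * m := Nat.mul_le_mul_right _ (by omega)
      omega
    · have := hLLle a ha
      omega
    · have h2 : b * m ≤ B₂ * m := Nat.mul_le_mul_right _ hb
      omega
    · have h1 : j * (20 * M + m) ≤ 3 * P * (20 * M + m) := Nat.mul_le_mul_right _ hj2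
      have e1 : 3 * P * (20 * M + m) = 3 * (20 * M * P) + 3 * P * m := by ring
      have h2 : (a₀ + 1 + 3 * P) * m ≤ B₂ * m := Nat.mul_le_mul_right _ (by omega)
      have e2 : (a₀ + 1 + 3 * P) * m = a₀ * m + m + 3 * P * m := by ring
      omega
  · exact Or.inl (Or.inr (Or.inr (Or.inl (Or.inl h0O))))
  · intro x hx
    exact cov_all hM hQ hO h0O hF ht htQ hk hκ hmdef hP hB hj₀ hb₁ hB₂ hMp
      (n := n) (fun y hy => ⟨(hWp y hy).1, (hWp y hy).2, by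
        obtain ⟨_, _, _, s, hs, hsd, _⟩ := hW y hy
        exact ⟨s, hs, hsd⟩⟩) hx
  · intro x hx1 hx2
    obtain ⟨hp1, hp2⟩ := pow_facts (M := M) hQ (by omega : 3 ≤ t) htQ
    exact cov_E hQ hM hF hO hPpos hmP (by omega) hB₂ hMp
      (fun a ha => Or.inl (Or.inr (Or.inr (Or.inl ha)))) (fun a ha => Or.inr (Or.inr ha))
      (fun a ha => Or.inr (Or.inl ha)) hx1 hx2
  · exact fun a ha => Or.inl (Or.inr (Or.inr (Or.inl (Or.inl ha))))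
  · have : 1 * m ≤ B₂ * m := Nat.mul_le_mul_right _ (by omega)
    omega
  · -- new elements are large
    rintro a ((⟨y, hy, rfl⟩ | ⟨b, _, hb, rfl⟩ | ((ha | ⟨d, hd, _, rfl⟩) | ⟨l, hl, b, hb, rfl⟩)) |
      ⟨b, _, hb, rfl⟩ | ⟨j, hj1, hj2, rfl⟩) haO
    · have h1 := (hW y hy).1
      omega
    · omega
    · exact absurd ha haO
    · have h1 := cc_gt (M := M) (Q := Q) (d := d)
      have hs : 20 * M * 32 ≤ 20 * M * (32 * (1 + Q)) := by gcongr; omega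
      omega
    · omega
    · omega
    · omega
  · -- uniqueness
    intro o ho x hx hxO y hy z hz h
    exact uniq hM hQ hO (by omega) htQ hmdef hP (by omega) (by omega) (by omega)
      (fun y hy => ⟨(hW y hy).1, (hW y hy).2.1, (hW y hy).2.2.1⟩) ho hx hxO hy hz h
  · -- `M < n`
    have : m * 1 ≤ m * (B + t + 3) := Nat.mul_le_mul_left _ (by omega)
    omega
  · have h2 : b₁ * m ≤ B₂ * m := Nat.mul_le_mul_right _ (by omega)
    omega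
  · -- `n` is not represented
    intro hmem
    have h1 := Sums_restrict hmem le_rfl
    have hsub : {a | a ∈ Big (LL O F M Q t) M m W B b₁ B₂ a₀ P \ F ∧ a ≤ n} ⊆
        Wset W m ∪ (Gset M m 1 B ∪ LP O F M Q t) := by
      rintro a ⟨⟨(ha | ha | ((ha | ha) | ha)) | ⟨b, hb, hb', rfl⟩ | ⟨j, hj1, hj2, rfl⟩, haF⟩, han⟩
      · exact Or.inl ha
      · exact Or.inr (Or.inl ha)
      · exact Or.inr (Or.inr (Or.inl (Or.inl ⟨ha, haF⟩)))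
      · exact Or.inr (Or.inr (Or.inl (Or.inr ha)))
      · exact Or.inr (Or.inr (Or.inr ha))
      · exfalso
        have h2 : b₁ * m ≤ b * m := Nat.mul_le_mul_right _ hb
        omega
      · exfalso
        have h2 : b₁ * m ≤ a₀ * m := Nat.mul_le_mul_right _ (by omega)
        omega
    have h2 := Sums_mono hsub _ h1
    refine not_rep (A' := LP O F M Q t) (ν := ν) (j₀ := j₀) (n := n)
      (fun x hx => hLLle x (LP_sub_LL hx)) (beta_mem (by omega) hQ1) (by omega) hν hn hνb ?_ hj₀ hB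
      h2
    intro y hy
    obtain ⟨_, _, _, s, hs, hsd, hsb⟩ := hW y hy
    exact ⟨(hWp y hy).1, (hWp y hy).2, s, hsd, hsb⟩

end Pool.Agent.H31.Basis
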