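import Pool.Agent.H31.Basis.Digits

namespace Pool.Agent.H31.Basis

variable {O F : Set ℕ} {M Q : ℕ}

/-- `x` is an element in the middle of the cell `J`. -/
def Mid (M m P a₀ j₀ : ℕ) (W : ℕ → ℕ) (x J : ℕ) : Prop :=
  (∃ y, y < m ∧ J = j₀ + y ∧ x = W y) ∨
  (∃ j, P ≤ j ∧ j ≤ 3 * P ∧ J = a₀ + j ∧ x = 5 * M + a₀ * m + j * (20 * M + m))

theorem Mid_unique {m P a₀ j₀ x x' J : ℕ} {W : ℕ → ℕ} (ha : j₀ + m ≤ a₀)
    (h : Mid M m P a₀ j₀ W x J) (h' : Mid M m P a₀ j₀ W x' J) : x = x' := by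
  rcases h with ⟨y, hy, hJ, hx⟩ | ⟨j, hj1, hj2, hJ, hx⟩ <;>
  rcases h' with ⟨y', hy', hJ', hx'⟩ | ⟨j', hj1', hj2', hJ', hx'⟩
  · have : y = y' := by omega
    rw [hx, hx', this]
  · omega
  · omega
  · have : j = j' := by omega
    rw [hx, hx', this]

/-- The elements of a stage which are neither generic nor in the axes are of type `G` or `Mid`. -/
def GM (M m P a₀ j₀ : ℕ) (W : ℕ → ℕ) (x : ℕ) : Prop :=
  (∃ b, 1 ≤ b ∧ x = 5 * M + b * m) ∨ ∃ J, Mid M m P a₀ j₀ W x J

theorem Mid_bounds {m P a₀ j₀ x J : ℕ} {W : ℕ → ℕ} (hmP : m = 20 * M * (4 * P))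
    (hW : ∀ y < m, (j₀ + y) * m + 20 * M * P ≤ W y ∧ W y ≤ (j₀ + y) * m + 3 * (20 * M * P))
    (h : Mid M m P a₀ j₀ W x J) :
    J * m + 20 * M * P ≤ x ∧ x ≤ J * m + 3 * (20 * M * P) + 5 * M := by
  rcases h with ⟨y, hy, rfl, rfl⟩ | ⟨j, hj1, hj2, rfl, rfl⟩
  · have := hW y hy
    omega
  · have h1 : 20 * M * P ≤ 20 * M * j := Nat.mul_le_mul_left _ hj1
    have h2 : 20 * M * j ≤ 20 * M * (3 * P) := Nat.mul_le_mul_left _ hj2
    have e1 : 5 * M + a₀ * m + j * (20 * M + m) = (a₀ + j) * m + 20 * M * j + 5 * M := by ring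
    have e2 : 20 * M * (3 * P) = 3 * (20 * M * P) := by ring
    omega

theorem GM_gap {m P a₀ j₀ x x' : ℕ} {W : ℕ → ℕ} (hM : 1 ≤ M) (hP : 1 ≤ P)
    (hmP : m = 20 * M * (4 * P)) (ha : j₀ + m ≤ a₀)
    (hW : ∀ y < m, (j₀ + y) * m + 20 * M * P ≤ W y ∧ W y ≤ (j₀ + y) * m + 3 * (20 * M * P))
    (h : GM M m P a₀ j₀ W x) (h' : GM M m P a₀ j₀ W x') (hlt : x < x') :
    x + 20 * M * P ≤ x' + 5 * M := by
  have hm4 : m = 4 * (20 * M * P) := by rw [hmP]; ring
  have hMP : 20 * M ≤ 20 * M * P := by nlinarith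
  rcases h with ⟨b, hb, rfl⟩ | ⟨J, hJ⟩ <;> rcases h' with ⟨b', hb', rfl⟩ | ⟨J', hJ'⟩
  · have : b < b' := by
      by_contra hc
      push Not at hc
      have := Nat.mul_le_mul_right m hc
      omega
    have h1 : (b + 1) * m ≤ b' * m := Nat.mul_le_mul_right _ this
    have e : (b + 1) * m = b * m + m := by ring
    omega
  · obtain ⟨h1, h2⟩ := Mid_bounds hmP hW hJ'
    rcases Nat.lt_or_ge J' b with hc | hc
    · have h3 : (J' + 1) * m ≤ b * m := Nat.mul_le_mul_right _ hc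
      have e : (J' + 1) * m = J' * m + m := by ring
      omega
    · have h3 : b * m ≤ J' * m := Nat.mul_le_mul_right _ hc
      omega
  · obtain ⟨h1, h2⟩ := Mid_bounds hmP hW hJ
    rcases Nat.lt_or_ge J b' with hc | hc
    · have h3 : (J + 1) * m ≤ b' * m := Nat.mul_le_mul_right _ hc
      have e : (J + 1) * m = J * m + m := by ring
      omega
    · have h3 : b' * m ≤ J * m := Nat.mul_le_mul_right _ hc
      omega
  · obtain ⟨h1, h2⟩ := Mid_bounds hmP hW hJ
    obtain ⟨h1', h2'⟩ := Mid_bounds hmP hW hJ'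
    rcases lt_trichotomy J J' with hc | hc | hc
    · have h3 : (J + 1) * m ≤ J' * m := Nat.mul_le_mul_right _ hc
      have e : (J + 1) * m = J * m + m := by ring
      omega
    · subst hc
      have := Mid_unique ha hJ hJ'
      omega
    · have h3 : (J' + 1) * m ≤ J * m := Nat.mul_le_mul_right _ hc
      have e : (J' + 1) * m = J' * m + m := by ring
      omega

theorem GM_ge {m P a₀ j₀ x : ℕ} {W : ℕ → ℕ} (hmP : m = 20 * M * (4 * P)) (hj : 1 ≤ j₀)
    (ha : 1 ≤ a₀)
    (hW : ∀ y < m, (j₀ + y) * m + 20 * M * P ≤ W y ∧ W y ≤ (j₀ + y) * m + 3 * (20 * M * P))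
    (h : GM M m P a₀ j₀ W x) : m ≤ x ∧ (5 * M + m ≤ x ∨ 20 * M * P + m ≤ x) := by
  rcases h with ⟨b, hb, rfl⟩ | ⟨J, hJ⟩
  · have h3 : 1 * m ≤ b * m := Nat.mul_le_mul_right _ hb
    omega
  · obtain ⟨h1, h2⟩ := Mid_bounds hmP hW hJ
    have hJ1 : 1 ≤ J := by
      rcases hJ with ⟨y, _, rfl, _⟩ | ⟨j, _, _, rfl, _⟩ <;> omega
    have h3 : 1 * m ≤ J * m := Nat.mul_le_mul_right _ hJ1
    omega

/-- Largest element of the axes. -/
theorem U_le {t l x : ℕ} (hQ1 : 1 ≤ Q) (hl : l < t + 1) (hx : x ∈ Uax M Q l) :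
    x + 20 * M * Q ^ t ≤ 5 * M + 20 * M * Q ^ (t + 1) := by
  obtain ⟨b, hb, rfl⟩ := hx
  obtain ⟨c, rfl⟩ : ∃ c, Q = c + 1 := ⟨Q - 1, by omega⟩
  have h1 : b * (20 * M * (c + 1) ^ l) ≤ c * (20 * M * (c + 1) ^ t) := by
    apply Nat.mul_le_mul (by omega)
    exact Nat.mul_le_mul_left _ (Nat.pow_le_pow_right (by omega) (by omega))
  have e : 20 * M * (c + 1) ^ (t + 1) = c * (20 * M * (c + 1) ^ t) + 20 * M * (c + 1) ^ t := by
    ring
  omega

theorem uniq {t m P B j₀ b₁ a₀ B₂ : ℕ} {W : ℕ → ℕ}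
    (hM : 1 ≤ M) (hQ : 1000 * 32 ^ (20 * M) ≤ Q) (hO : ∀ o ∈ O, o ≤ M)
    (ht : 5 ≤ t) (htQ : 8 * (t + 2) < Q)
    (hmdef : m = 20 * M * Q ^ t) (hP : Q ^ t = 4 * P)
    (hj₀ : 1 ≤ j₀) (ha : j₀ + m ≤ a₀) (hb₁ : 1 ≤ b₁)
    (hW : ∀ y < m, (j₀ + y) * m + 20 * M * P ≤ W y ∧ W y ≤ (j₀ + y) * m + 3 * (20 * M * P) ∧
      ∃ δ : ℤ, -M ≤ δ ∧ δ ≤ M ∧ (20 * M : ℤ) ∣ (W y : ℤ) - 5 * M - δ)
    {o x y z : ℕ} (ho : o ∈ O) (hx : x ∈ Big (LL O F M Q t) M m W B b₁ B₂ a₀ P) (hxO : x ∉ O)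
    (hy : y ∈ Big (LL O F M Q t) M m W B b₁ B₂ a₀ P)
    (hz : z ∈ Big (LL O F M Q t) M m W B b₁ B₂ a₀ P) (h : o + x = y + z) :
    (y = o ∧ z = x) ∨ (y = x ∧ z = o) := by
  have hQ1 : 1 ≤ Q := by omega
  have hMz : (1 : ℤ) ≤ M := by exact_mod_cast hM
  have hPpos : 1 ≤ P := by
    have : 1 ≤ Q ^ t := Nat.one_le_pow _ _ hQ1
    omega
  have hmP : m = 20 * M * (4 * P) := by rw [hmdef, hP]
  have hm4 : m = 4 * (20 * M * P) := by rw [hmP]; ring
  have hW' : ∀ y < m, (j₀ + y) * m + 20 * M * P ≤ W y ∧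
      W y ≤ (j₀ + y) * m + 3 * (20 * M * P) := fun y hy => ⟨(hW y hy).1, (hW y hy).2.1⟩
  -- the threshold
  obtain ⟨K, hK⟩ : ∃ K, K = 20 * M * (2 * Q ^ 2) := ⟨_, rfl⟩
  obtain ⟨t', rfl⟩ : ∃ t', t = t' + 1 := ⟨t - 1, by omega⟩
  have hKt : 8 * K ≤ 20 * M * Q ^ t' := by
    have h1 : 16 * Q ^ 2 ≤ Q ^ t' := by
      calc 16 * Q ^ 2 ≤ Q * Q ^ 2 := Nat.mul_le_mul_right _ (by omega)
        _ = Q ^ 3 := by ring
        _ ≤ Q ^ t' := Nat.pow_le_pow_right hQ1 (by omega)
    calc 8 * K = 20 * M * (16 * Q ^ 2) := by rw [hK]; ring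
      _ ≤ 20 * M * Q ^ t' := Nat.mul_le_mul_left _ h1
  have hKm : 8 * (20 * M * Q ^ t') ≤ m := by
    rw [hmdef]
    calc 8 * (20 * M * Q ^ t') ≤ Q * (20 * M * Q ^ t') := Nat.mul_le_mul_right _ (by omega)
      _ = 20 * M * Q ^ (t' + 1) := by ring
  have hKM : 40 * M ≤ K := by
    have : 20 * M * (2 * 1) ≤ 20 * M * (2 * Q ^ 2) :=
      Nat.mul_le_mul_left _ (Nat.mul_le_mul_left _ (Nat.one_le_pow _ _ hQ1))
    omega
  -- classification
  have cls : ∀ a, a ∈ Big (LL O F M Q (t' + 1)) M m W B b₁ B₂ a₀ P →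
      a ∈ O ∨ (∃ d, d < 20 * M ∧ a = cc M Q d) ∨
        ((∃ l, l < t' + 1 ∧ a ∈ Uax M Q l) ∨ GM M m P a₀ j₀ W a) := by
    rintro a ((⟨y, hy, rfl⟩ | ⟨b, hb, _, rfl⟩ | ((ha | ⟨d, hd, _, rfl⟩) | ⟨l, hl, ha⟩)) |
      ⟨b, hb, _, rfl⟩ | ⟨j, hj1, hj2, rfl⟩)
    · exact Or.inr (Or.inr (Or.inr (Or.inr ⟨_, Or.inl ⟨y, hy, rfl, rfl⟩⟩)))
    · exact Or.inr (Or.inr (Or.inr (Or.inl ⟨b, hb, rfl⟩)))
    · exact Or.inl ha
    · exact Or.inr (Or.inl ⟨d, hd, rfl⟩)
    · exact Or.inr (Or.inr (Or.inl ⟨l, hl, ha⟩))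
    · exact Or.inr (Or.inr (Or.inr (Or.inl ⟨b, by omega, rfl⟩)))
    · exact Or.inr (Or.inr (Or.inr (Or.inr ⟨_, Or.inr ⟨j, hj1, hj2, rfl, rfl⟩⟩)))
  -- facts about the third class
  set N : ℕ → Prop := fun a => (∃ l, l < t' + 1 ∧ a ∈ Uax M Q l) ∨ GM M m P a₀ j₀ W a with hN
  have resN : ∀ a, N a → ∃ δ : ℤ, -M ≤ δ ∧ δ ≤ M ∧ (20 * M : ℤ) ∣ (a : ℤ) - 5 * M - δ := by
    rintro a (⟨l, _, ha⟩ | ⟨b, _, rfl⟩ | ⟨J, ⟨y, hy, _, rfl⟩ | ⟨j, _, _, _, rfl⟩⟩)
    · refine ⟨0, by omega, by omega, ?_⟩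
      have := resU ha
      simpa using this
    · refine ⟨0, by omega, by omega, b * Q ^ (t' + 1), ?_⟩
      rw [hmdef]; push_cast; ring
    · exact (hW y hy).2.2
    · refine ⟨0, by omega, by omega, (a₀ * Q ^ (t' + 1) + j + j * Q ^ (t' + 1)), ?_⟩
      rw [hmdef]; push_cast; ring
  have geN : ∀ a, N a → 5 * M ≤ a := by
    rintro a (⟨l, _, b, _, rfl⟩ | ha')
    · omega
    · have := (GM_ge hmP hj₀ (by omega) hW' ha').1
      omega
  have smallN : ∀ a, N a → a ≤ 2 * K + M → ∃ b i, b < Q ∧ a = 5 * M + b * (20 * M * Q ^ i) := by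
    rintro a (⟨l, _, b, hb, rfl⟩ | ha') hle
    · exact ⟨b, l, hb, rfl⟩
    · have := (GM_ge hmP hj₀ (by omega) hW' ha').1
      omega
  have gapN : ∀ a a', N a → N a' → a < a' → a' ≤ a + K →
      (∃ b i, b < Q ∧ a = 5 * M + b * (20 * M * Q ^ i)) ∧
      (∃ b i, b < Q ∧ a' = 5 * M + b * (20 * M * Q ^ i)) := by
    rintro a a' (⟨l, hl, ha1⟩ | ha1) (⟨l', hl', ha2⟩ | ha2) hlt hle
    · obtain ⟨b, hb, rfl⟩ := ha1
      obtain ⟨b', hb', rfl⟩ := ha2
      exact ⟨⟨b, l, hb, rfl⟩, ⟨b', l', hb', rfl⟩⟩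
    · have h1 := U_le (t := t') hQ1 hl ha1
      have h2 := (GM_ge hmP hj₀ (by omega) hW' ha2).2
      rw [← hmdef] at h1
      exfalso
      omega
    · have h1 := U_le (t := t') hQ1 hl' ha2
      have h2 := (GM_ge hmP hj₀ (by omega) hW' ha1).1
      rw [← hmdef] at h1
      exfalso
      omega
    · have := GM_gap hM hPpos hmP ha hW' ha1 ha2 hlt
      exfalso
      omega
  -- no two distinct elements at distance at most `M`
  have gap1 : ∀ a a', N a → N a' → a < a' → a' ≤ a + M → False := by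
    intro a a' h1 h2 hlt hle
    obtain ⟨⟨b, i, hb, rfl⟩, ⟨b', i', hb', rfl⟩⟩ := gapN a a' h1 h2 hlt (by omega)
    have hd : (20 * M : ℤ) ∣ ((5 * M + b' * (20 * M * Q ^ i') : ℕ) : ℤ) -
        ((5 * M + b * (20 * M * Q ^ i) : ℕ) : ℤ) :=
      ⟨b' * Q ^ i' - b * Q ^ i, by push_cast; ring⟩
    exact no_dvd hd (by omega) (by omega)
  have hoM := hO o ho
  -- ordered version
  have main : ∀ y z, (y ∈ O ∨ (∃ d, d < 20 * M ∧ y = cc M Q d) ∨ N y) →
      (z ∈ O ∨ (∃ d, d < 20 * M ∧ z = cc M Q d) ∨ N z) → o + x = y + z →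
      (y ∈ O ∨ z ∉ O) → (N z ∨ ¬ N y) → y = o ∧ z = x ∨ y = x ∧ z = o := by
    intro y z hy hz h hord1 hord2
    rcases cls x hx with hx' | ⟨d, hd, rfl⟩ | hx'
    · exact absurd hx' hxO
    · -- `x` generic
      have hc1 := cc_lt (M := M) hQ hd
      rw [← hK] at hc1
      have hc2 := cc_gt (M := M) (Q := Q) (d := d)
      have hK2 : K = 2 * (20 * M * Q ^ 2) := by rw [hK]; ring
      have hs : 20 * M * 32 ≤ 20 * M * (32 * (1 + Q)) := by gcongr; omega
      rcases hy with hy | ⟨e, he, rfl⟩ | hy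
      · have hyM := hO y hy
        rcases hz with hz | ⟨e, he, rfl⟩ | hz
        · have hzM := hO z hz
          omega
        · have := D6 hM hQ hoM hyM hd he h
          subst this
          left; omega
        · exfalso
          obtain ⟨b, i, hb, rfl⟩ := smallN z hz (by omega)
          exact D2 hM hQ hoM hyM hd hb h
      · rcases hz with hz | ⟨e', he', rfl⟩ | hz
        · exfalso
          rcases hord1 with h1 | h1
          · have := hO _ h1
            have := cc_gt (M := M) (Q := Q) (d := e)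
            omega
          · exact h1 hz
        · have h3 := cc_gt (M := M) (Q := Q) (d := e)
          have h4 := cc_gt (M := M) (Q := Q) (d := e')
          omega
        · exfalso
          obtain ⟨b, i, hb, rfl⟩ := smallN z hz (by omega)
          exact D3 hM hQ hoM hd he hb h
      · rcases hz with hz | ⟨e', he', rfl⟩ | hz
        · exfalso
          rcases hord2 with h1 | h1
          · have h5 := geN z h1
            have := hO z hz
            omega
          · exact h1 hy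
        · exfalso
          rcases hord2 with h1 | h1
          · have h5 := cc_gt (M := M) (Q := Q) (d := e')
            obtain ⟨b, i, hb, hb'⟩ := smallN _ h1 (by omega)
            obtain ⟨b', i', hb1, rfl⟩ := smallN y hy (by omega)
            -- `cc` equal to an axis element: impossible by (D2) with `o = z = 0`
            exact D2 (o := 0) (z := 0) hM hQ (by omega) (by omega) he' hb (by
              rw [zero_add, zero_add]; exact hb')
          · exact h1 hy
        · exfalso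
          obtain ⟨b, i, hb, rfl⟩ := smallN y hy (by omega)
          obtain ⟨b', i', hb', rfl⟩ := smallN z hz (by omega)
          exact D1 hM hQ hoM hd hb hb' h
    · -- `x` in the third class
      have hx5 := geN x hx'
      rcases hy with hy | ⟨e, he, rfl⟩ | hy
      · have hyM := hO y hy
        rcases hz with hz | ⟨e, he, rfl⟩ | hz
        · have hzM := hO z hz
          omega
        · exfalso
          have hc1 := cc_lt (M := M) hQ he
          rw [← hK] at hc1
          obtain ⟨b, i, hb, rfl⟩ := smallN x hx' (by omega)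
          exact D2 hM hQ hyM hoM he hb h.symm
        · left
          rcases lt_trichotomy x z with hlt | heq | hgt
          · exact (gap1 x z hx' hz hlt (by omega)).elim
          · omega
          · exact (gap1 z x hz hx' hgt (by omega)).elim
      · have hc1 := cc_lt (M := M) hQ he
        rw [← hK] at hc1
        rcases hz with hz | ⟨e', he', rfl⟩ | hz
        · exfalso
          rcases hord1 with h1 | h1
          · have := hO _ h1
            have := cc_gt (M := M) (Q := Q) (d := e)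
            have hs : 20 * M * 32 ≤ 20 * M * (32 * (1 + Q)) := by gcongr; omega
            omega
          · exact h1 hz
        · exfalso
          have hc1' := cc_lt (M := M) hQ he'
          rw [← hK] at hc1'
          obtain ⟨b, i, hb, rfl⟩ := smallN x hx' (by omega)
          exact D4 hM hQ hoM he he' hb h
        · exfalso
          have hc2 := cc_gt (M := M) (Q := Q) (d := e)
          have hs : 20 * M * 32 ≤ 20 * M * (32 * (1 + Q)) := by gcongr; omega
          obtain ⟨⟨b, i, hb, rfl⟩, ⟨b', i', hb', rfl⟩⟩ := gapN z x hz hx' (by omega) (by omega)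
          exact D5 hM hQ hoM he hb' hb h
      · rcases hz with hz | ⟨e', he', rfl⟩ | hz
        · exfalso
          rcases hord2 with h1 | h1
          · have h5 := geN z h1
            have := hO z hz
            omega
          · exact h1 hy
        · exfalso
          rcases hord2 with h1 | h1
          · have hc1' := cc_lt (M := M) hQ he'
            rw [← hK] at hc1'
            obtain ⟨b, i, hb, hb'⟩ := smallN _ h1 (by omega)
            exact D2 (o := 0) (z := 0) hM hQ (by omega) (by omega) he' hb (by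
              rw [zero_add, zero_add]; exact hb')
          · exact h1 hy
        · exfalso
          obtain ⟨δx, a1, a2, a3⟩ := resN x hx'
          obtain ⟨δy, b1, b2, b3⟩ := resN y hy
          obtain ⟨δz, c1, c2, c3⟩ := resN z hz
          have hz' : (o : ℤ) + x = y + z := by exact_mod_cast h
          have h7 := Int.dvd_sub (Int.dvd_add b3 c3) a3
          have e : (y : ℤ) - 5 * M - δy + (z - 5 * M - δz) - (x - 5 * M - δx) =
            o - 5 * M - δy - δz + δx := by linarith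
          rw [e] at h7
          have h8 := (Int.dvd_neg (a := (20 * M : ℤ))).2 h7
          exact no_dvd h8 (by omega) (by omega)
  -- the two orders
  by_cases hyO : y ∈ O
  · by_cases hzN : N z
    · exact main y z (cls y hy) (cls z hz) h (Or.inl hyO) (Or.inl hzN)
    · have hyN : ¬ N y := by
        intro hyN
        have := geN y hyN
        have := hO y hyO
        omega
      exact main y z (cls y hy) (cls z hz) h (Or.inl hyO) (Or.inr hyN)
  · by_cases hyN : N y
    · -- swap unless `z` is in the third class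
      by_cases hzN : N z
      · refine main y z (cls y hy) (cls z hz) h (Or.inr ?_) (Or.inl hzN)
        intro hzO
        have := geN z hzN
        have := hO z hzO
        omega
      · have := main z y (cls z hz) (cls y hy) (by rw [h, add_comm]) (Or.inr hyO) (Or.inl hyN)
        tauto
    · by_cases hzO : z ∈ O
      · have := main z y (cls z hz) (cls y hy) (by rw [h, add_comm]) (Or.inl hzO) (by
          right
          intro hzN
          have := geN z hzN
          have := hO z hzO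
          omega)
        tauto
      · exact main y z (cls y hy) (cls z hz) h (Or.inr hzO) (Or.inr hyN)

end Pool.Agent.H31.Basis
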