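import Pool.Agent.H31.Basis.Axis

namespace Pool.Agent.H31.Basis

variable {O F : Set ℕ} {M Q : ℕ}

/-- The critical residue `ν` and the elements `W y`. -/
theorem exists_nu_W {t : ℕ} (hM : 1 ≤ M) (hQ : 1000 * 32 ^ (20 * M) ≤ Q) (h4Q : 4 ∣ Q)
    (hO : ∀ o ∈ O, o ≤ M) (h0O : 0 ∈ O) (hF : F ⊆ O) (h0F : 0 ∉ F)
    (hFC : ∀ b ∈ O, ∃ f ∈ F, b + f ∉ Sums (O \ F) 2) (ht : 3 ≤ t)
    (htQ : 8 * (t + 2) < Q) :
    ∃ ν : ℕ, ν < 20 * M * Q ^ t ∧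
      (∀ v ∈ Sums (LP O F M Q t) (t + 1), ¬ (20 * M * Q ^ t : ℤ) ∣ (ν : ℤ) - v) ∧
      ∀ (J₀ B' : ℕ), ∃ W : ℕ → ℕ, ∀ y < 20 * M * Q ^ t,
        (J₀ + y) * (20 * M * Q ^ t) + 5 * M * Q ^ t ≤ W y ∧
        W y ≤ (J₀ + y) * (20 * M * Q ^ t) + 15 * M * Q ^ t ∧
        (∃ δ : ℤ, -M ≤ δ ∧ δ ≤ M ∧ (20 * M : ℤ) ∣ (W y : ℤ) - 5 * M - δ) ∧
        ∃ s ∈ Sums (LL O F M Q t) t,
          (20 * M * Q ^ t : ℤ) ∣ ((ν + 10 * M + (20 * M * Q ^ t) * B' : ℕ) : ℤ)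
            - W y - 5 * M - y - s ∧
          ∀ v ∈ Sums (LP O F M Q t) (t + 1), ¬ (20 * M * Q ^ t : ℤ) ∣ (y : ℤ) + s - v := by
  have hMz : (1 : ℤ) ≤ M := by exact_mod_cast hM
  have hQ1 : 1 ≤ Q := by omega
  obtain ⟨j, rfl⟩ : ∃ j, t = j + 1 := ⟨t - 1, by omega⟩
  have hFR : FR O F M Q j := FR_all hM hQ (dvd_trans (by norm_num) h4Q) hO h0O hF h0F hFC j
    (by omega) (by omega)
  obtain ⟨H, hH⟩ := h4Q
  have hHz : (Q : ℤ) = 4 * H := by exact_mod_cast hH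
  set D : ℤ := 20 * M * Q ^ j with hD
  have hDpos : 20 * (M : ℤ) ≤ D := by
    rw [hD]
    have : (1 : ℤ) ≤ Q ^ j := one_le_pow₀ (by exact_mod_cast hQ1)
    nlinarith
  have hm : (20 * M * Q ^ (j + 1) : ℤ) = D * Q := by rw [hD]; ring
  have hmpos : 0 < D * Q := by
    have : (0 : ℤ) < Q := by exact_mod_cast hQ1
    have : 0 < D := by linarith
    positivity
  obtain ⟨s₀, hs₀, f₀, hf₀, hr₀, hb₀, hc₀, hc₀'⟩ :=
    axis_step hM hQ hO (by omega) hFR 0 (Q - 1) (by omega) (by omega)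
  have hQm1 : ((Q - 1 : ℕ) : ℤ) = Q - 1 := by omega
  rw [hQm1, zero_add, hm] at hc₀ hc₀'
  set ν : ℤ := (s₀ : ℤ) % (D * Q) with hν
  have hν0 : 0 ≤ ν := Int.emod_nonneg _ hmpos.ne'
  have hν1 : ν < D * Q := Int.emod_lt_of_pos _ hmpos
  have hνn : ((ν.toNat : ℕ) : ℤ) = ν := Int.toNat_of_nonneg hν0
  have hνs : D * Q ∣ ν - s₀ := by
    rw [hν]
    have := Int.emod_add_mul_ediv (s₀ : ℤ) (D * Q)
    exact ⟨-((s₀ : ℤ) / (D * Q)), by linarith⟩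
  have hqm : (20 * M : ℤ) ∣ D * Q := ⟨Q ^ j * Q, by rw [hD]; ring⟩
  refine ⟨ν.toNat, ?_, ?_, ?_⟩
  · have h1 : ((ν.toNat : ℕ) : ℤ) < ((20 * M * Q ^ (j + 1) : ℕ) : ℤ) := by
      rw [hνn]; push_cast; rw [hm]; exact hν1
    exact_mod_cast h1
  · intro v hv hd
    rw [hνn, hm] at hd
    apply hb₀ v hv
    rw [hm]
    have := Int.dvd_sub hd hνs
    rw [show ν - (v : ℤ) - (ν - s₀) = 0 + s₀ - v by ring] at this
    exact this
  · intro J₀ B'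
    have key : ∀ y : ℕ, y < 20 * M * Q ^ (j + 1) → ∃ w : ℕ,
        (J₀ + y) * (20 * M * Q ^ (j + 1)) + 5 * M * Q ^ (j + 1) ≤ w ∧
        w ≤ (J₀ + y) * (20 * M * Q ^ (j + 1)) + 15 * M * Q ^ (j + 1) ∧
        (∃ δ : ℤ, -M ≤ δ ∧ δ ≤ M ∧ (20 * M : ℤ) ∣ (w : ℤ) - 5 * M - δ) ∧
        ∃ s ∈ Sums (LL O F M Q (j + 1)) (j + 1),
          (20 * M * Q ^ (j + 1) : ℤ) ∣
            ((ν.toNat + 10 * M + (20 * M * Q ^ (j + 1)) * B' : ℕ) : ℤ)
            - w - 5 * M - y - s ∧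
          ∀ v ∈ Sums (LP O F M Q (j + 1)) (j + 1 + 1),
            ¬ (20 * M * Q ^ (j + 1) : ℤ) ∣ (y : ℤ) + s - v := by
      intro y _
      obtain ⟨s, hs, f, hf, hr, hb, hc, hc'⟩ :=
        axis_step hM hQ hO (by omega) hFR y (2 * H) (by omega) (by omega)
      rw [hm] at hc hc'
      set μ : ℤ := ((y : ℤ) + s) % (D * Q) with hμ
      have hμs : D * Q ∣ (y : ℤ) + s - μ := by
        rw [hμ]
        have := Int.emod_add_mul_ediv ((y : ℤ) + s) (D * Q)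
        exact ⟨(((y : ℤ) + s) / (D * Q)), by linarith⟩
      have e1 : ((2 * H : ℕ) : ℤ) = 2 * H := by push_cast; ring
      rw [e1] at hc hc'
      have hH' : (40 : ℤ) ≤ 4 * H := by
        rw [← hHz]; exact_mod_cast (by omega : 40 ≤ Q)
      have hmH : D * Q = D * (4 * H) := by rw [hHz]
      have hr1 : 0 ≤ ν + 5 * M - μ := by nlinarith
      set r : ℤ := ν + 5 * M - μ with hrdef
      have hrn : ((r.toNat : ℕ) : ℤ) = r := Int.toNat_of_nonneg hr1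
      have hm4 : 4 * (5 * M * Q ^ (j + 1) : ℤ) = D * Q := by rw [hD]; ring
      have hm34 : 4 * (15 * M * Q ^ (j + 1) : ℤ) = 3 * (D * Q) := by rw [hD]; ring
      have hcast : (((J₀ + y) * (20 * M * Q ^ (j + 1)) + r.toNat : ℕ) : ℤ) =
          ((J₀ : ℤ) + y) * (D * Q) + r := by
        rw [← hm]; push_cast; rw [hrn]
      refine ⟨(J₀ + y) * (20 * M * Q ^ (j + 1)) + r.toNat, ?_, ?_, ?_, s, hs, ?_, hb⟩
      · have : ((5 * M * Q ^ (j + 1) : ℕ) : ℤ) ≤ (r.toNat : ℕ) := by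
          rw [hrn]; push_cast
          rw [hrdef]
          nlinarith
        have : 5 * M * Q ^ (j + 1) ≤ r.toNat := by exact_mod_cast this
        omega
      · have : ((r.toNat : ℕ) : ℤ) ≤ ((15 * M * Q ^ (j + 1) : ℕ) : ℤ) := by
          rw [hrn]; push_cast
          rw [hrdef]
          nlinarith
        have : r.toNat ≤ 15 * M * Q ^ (j + 1) := by exact_mod_cast this
        omega
      · have hfM := hO f (hF hf)
        have hf₀M := hO f₀ (hF hf₀)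
        refine ⟨(f₀ : ℤ) - f, by omega, by omega, ?_⟩
        rw [hcast]
        -- residues
        have a1 : (20 * M : ℤ) ∣ ν - s₀ := dvd_trans hqm hνs
        have a2 : (20 * M : ℤ) ∣ (y : ℤ) + s - μ := dvd_trans hqm hμs
        have a3 : (20 * M : ℤ) ∣ ((J₀ : ℤ) + y) * (D * Q) := Dvd.dvd.mul_left hqm _
        have := Int.dvd_add (Int.dvd_add a3 a1) (Int.dvd_sub (Int.dvd_add a2 hr₀) hr)
        rw [show ((J₀ : ℤ) + y) * (D * Q) + r - 5 * M - ((f₀ : ℤ) - f) =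
          ((J₀ : ℤ) + y) * (D * Q) + (ν - s₀) + ((y : ℤ) + s - μ +
            (0 + s₀ - f₀ - (j + 1) * (5 * M)) - (y + s - f - (j + 1) * (5 * M))) by
          rw [hrdef]; ring]
        exact this
      · rw [hcast]
        have e2 : (((ν.toNat + 10 * M + (20 * M * Q ^ (j + 1)) * B' : ℕ) : ℤ)) =
            ν + 10 * M + (D * Q) * B' := by
          rw [← hm]; push_cast; rw [hνn]
        rw [e2, hm]
        have := Int.dvd_add (Dvd.intro (B' : ℤ) rfl : D * Q ∣ D * Q * B')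
          (Dvd.intro (-((J₀ : ℤ) + y)) rfl : D * Q ∣ D * Q * (-((J₀ : ℤ) + y)))
        have h2 := Int.dvd_sub this hμs
        rw [show ν + 10 * M + (D * Q) * (B' : ℤ) - (((J₀ : ℤ) + y) * (D * Q) + r) - 5 * M - y - s
          = D * Q * (B' : ℤ) + D * Q * (-((J₀ : ℤ) + y)) - ((y : ℤ) + s - μ) by
          rw [hrdef]; ring]
        exact h2
    choose! W hW using key
    exact ⟨W, hW⟩

end Pool.Agent.H31.Basis
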